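import Pool.Agent.H11.WCT.Sec

namespace WCT

open Real

/-- `F t = q0 log (1 + e ^ t) - log t + log (ell t)` -/
noncomputable def Ff (t : ℝ) : ℝ := q0 * (t + ell t) - log t + log (ell t)

noncomputable def Ff1 (t : ℝ) : ℝ := q0 * (1 - pf t) - 1 / t - pf t / ell t

noncomputable def Ff2 (t : ℝ) : ℝ :=
  q0 * (pf t * (1 - pf t)) + 1 / t ^ 2 - pf t / ell t * (pf t / ell t - (1 - pf t))

theorem hasDerivAt_Ff {t : ℝ} (ht : 0 < t) : HasDerivAt Ff (Ff1 t) t := by
  have h1 : HasDerivAt (fun s => q0 * (s + ell s)) (q0 * (1 + -pf t)) t :=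
    ((hasDerivAt_id t).add (hasDerivAt_ell t)).const_mul q0
  have h2 := hasDerivAt_log ht.ne'
  have h3 := (hasDerivAt_ell t).log (ell_pos t).ne'
  have h4 := (h1.sub h2).add h3
  have h5 : HasDerivAt Ff (q0 * (1 + -pf t) - t⁻¹ + -pf t / ell t) t := h4
  apply h5.congr_deriv
  unfold Ff1
  ring

theorem hasDerivAt_Ff1 {t : ℝ} (ht : 0 < t) : HasDerivAt Ff1 (Ff2 t) t := by
  have h1 : HasDerivAt (fun s => q0 * (1 - pf s)) (q0 * (-(-(pf t * (1 - pf t))))) t :=
    ((hasDerivAt_pf t).const_sub 1).const_mul q0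
  have h2 : HasDerivAt (fun s : ℝ => 1 / s) (-(t ^ 2)⁻¹) t := by
    have := hasDerivAt_inv ht.ne'
    simpa using this
  have h3 := (hasDerivAt_pf t).div (hasDerivAt_ell t) (ell_pos t).ne'
  have h4 := (h1.sub h2).sub h3
  have h5 : HasDerivAt Ff1 (q0 * (-(-(pf t * (1 - pf t)))) - -(t ^ 2)⁻¹ -
    (-(pf t * (1 - pf t)) * ell t - pf t * -pf t) / ell t ^ 2) t := h4
  apply h5.congr_deriv
  unfold Ff2
  have := ell_pos t
  field_simp
  ring

theorem Ff2_ge {t : ℝ} (ht : 0 < t) :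
    pf t * (q0 * (1 - pf t) - 1 / 2) + 1 / t ^ 2 ≤ Ff2 t := by
  have hp := pf_pos t
  have hp1 := pf_lt_one t
  have hl := ell_ge t
  have hlp := ell_pos t
  obtain ⟨z, hz⟩ : ∃ z, z = pf t / ell t := ⟨_, rfl⟩
  have hz0 : 0 < z := by rw [hz]; positivity
  have hz1 : z * (1 + pf t / 2) ≤ 1 := by
    have h1 : z * ell t = pf t := by rw [hz]; field_simp
    have h2 : z * (pf t + pf t ^ 2 / 2) ≤ z * ell t := mul_le_mul_of_nonneg_left hl hz0.le
    rw [h1] at h2
    have h3 : pf t * (z * (1 + pf t / 2)) ≤ pf t * 1 := by nlinarith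
    exact le_of_mul_le_mul_left h3 hp
  have key : z * (z - (1 - pf t)) ≤ pf t / 2 := by
    obtain ⟨p, hpp⟩ : ∃ p, p = pf t := ⟨_, rfl⟩
    rw [← hpp] at hz1 hp hp1 ⊢
    have hle : z ≤ 1 := by nlinarith
    by_cases hc : z ≤ 1 - p
    · nlinarith
    · push Not at hc
      -- z ≤ Z, Z (Z - (1-p)) (1+p/2)^2 = p(1+p)/2
      have e1 : z - (1 - p) ≤ (p / 2 + p ^ 2 / 2) * z := by nlinarith
      have e2 : z * (z - (1 - p)) ≤ z * ((p / 2 + p ^ 2 / 2) * z) :=
        mul_le_mul_of_nonneg_left e1 hz0.le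
      have e3 : z ^ 2 * (1 + p) ≤ 1 := by
        have : z ^ 2 * (1 + p / 2) ^ 2 ≤ 1 := by
          have h0 : 0 ≤ z * (1 + p / 2) := by positivity
          nlinarith
        nlinarith [sq_nonneg (z * p)]
      nlinarith
  unfold Ff2
  rw [← hz]
  nlinarith

theorem Ff2_nonneg {t : ℝ} (ht : 0 < t) : 0 ≤ Ff2 t := by
  refine le_trans ?_ (Ff2_ge ht)
  have hp := pf_pos t
  have hp2 := pf_le_half ht.le
  have hq := q0_lo
  have h1 : 0 ≤ q0 * (1 - pf t) - 1 / 2 := by
    norm_num at hq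
    nlinarith
  have h2 : 0 ≤ pf t * (q0 * (1 - pf t) - 1 / 2) := mul_nonneg hp.le h1
  have h3 : 0 ≤ 1 / t ^ 2 := by positivity
  linarith

theorem Ff_tangent {x t : ℝ} (hx : 0 < x) (ht : 0 < t) : Ff x + Ff1 x * (t - x) ≤ Ff t := by
  have h := taylor_lower (f := Ff) (f' := Ff1) (f'' := Ff2) (a := min x t) (b := max x t) (x := x) 0
    ⟨min_le_left _ _, le_max_left _ _⟩
    (fun s hs => hasDerivAt_Ff (lt_of_lt_of_le (lt_min hx ht) hs.1))
    (fun s hs => hasDerivAt_Ff1 (lt_of_lt_of_le (lt_min hx ht) hs.1))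
    (fun s hs => Ff2_nonneg (lt_of_lt_of_le (lt_min hx ht) hs.1)) t
    ⟨min_le_right _ _, le_max_right _ _⟩
  simpa using h

theorem Ff_t0 : Ff t0 = 0 := by
  unfold Ff
  rw [ell_t0]
  have h1 := s0_pos
  have h2 : log t0 = log 75 + log s0 := by
    unfold t0; rw [log_mul (by norm_num) h1.ne']
  rw [h2]
  have h3 : q0 * (t0 + s0) = log 75 := by
    rw [← q0_mul]; unfold t0; ring
  rw [h3]; ring

theorem Ff1_t0 : 0 ≤ Ff1 t0 ∧ Ff1 t0 ≤ 0.0005 := by
  have hR := Rr_pos
  have hR2 := Rr_hi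
  have ht0 := t0_lo
  have hh0 := h0_lo
  have hg1 := gap_lo
  have hg2 := gap_hi
  have hs := s0_pos
  have hq := q0_pos
  have ht0p : 0 < t0 := lt_trans (by norm_num) ht0
  have hh0p : 0 < h0 := lt_trans (by norm_num) hh0
  have hh : h0 * q0 = 1 + 76 * Rr := by unfold h0; field_simp
  have h1 : Ff1 t0 = (1 + 76 * Rr) / (1 + Rr) * ((t0 - h0) / (h0 * t0)) := by
    unfold Ff1
    rw [pf_t0, ell_t0]
    have h2 : s0 = t0 / 75 := by unfold t0; ring
    rw [h2]
    have h3 : q0 = (1 + 76 * Rr) / h0 := by rw [← hh]; field_simp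
    rw [h3]
    field_simp
    ring
  norm_num at hR2 ht0 hh0 hg1 hg2
  have h4 : 0 ≤ (t0 - h0) / (h0 * t0) := by
    apply div_nonneg (by linarith) (by positivity)
  have h5 : (t0 - h0) / (h0 * t0) ≤ 0.000112 := by
    rw [div_le_iff₀ (by positivity)]
    norm_num
    nlinarith
  have h6 : 0 ≤ (1 + 76 * Rr) / (1 + Rr) := by positivity
  have h7 : (1 + 76 * Rr) / (1 + Rr) ≤ 4.26 := by
    rw [div_le_iff₀ (by linarith)]
    norm_num
    linarith
  rw [h1]
  refine ⟨mul_nonneg h6 h4, ?_⟩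
  calc (1 + 76 * Rr) / (1 + Rr) * ((t0 - h0) / (h0 * t0)) ≤ 4.26 * 0.000112 :=
        mul_le_mul h7 h5 h4 (by norm_num)
    _ ≤ 0.0005 := by norm_num

theorem Ff_near {t : ℝ} (ht : |t - t0| ≤ 3 / 10) :
    Ff1 t0 * (t - t0) + 0.0525 * (t - t0) ^ 2 ≤ Ff t := by
  have h1 := t0_lo
  have h2 := t0_hi
  norm_num at h1 h2
  rw [abs_le] at ht
  have h := taylor_lower (f := Ff) (f' := Ff1) (f'' := Ff2) (a := t0 - 3 / 10) (b := t0 + 3 / 10)
    (x := t0) 0.105 ⟨by linarith, by linarith⟩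
    (fun s hs => hasDerivAt_Ff (by have := hs.1; linarith))
    (fun s hs => hasDerivAt_Ff1 (by have := hs.1; linarith))
    (fun s hs => by
      have hs0 : 0 < s := by have := hs.1; linarith
      refine le_trans ?_ (Ff2_ge hs0)
      have hs1 : s ≤ 3.45 := by have := hs.2; norm_num; linarith
      have e1 : 0.084 ≤ 1 / s ^ 2 := by
        rw [le_div_iff₀ (by positivity)]
        norm_num at hs1 ⊢
        nlinarith
      have hR1 := Rr_lo
      have hR2 := Rr_hi
      norm_num at hR1 hR2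
      have hee : exp (3 / 10) ≤ 1.35 := by
        have := Real.exp_bound' (x := 3 / 10) (by norm_num) (by norm_num) (n := 6) (by norm_num)
        refine this.trans ?_
        norm_num [Finset.sum_range_succ, Nat.factorial]
      have e2 : 0.0307 ≤ pf s := by
        refine le_trans ?_ (pf_mono hs.2)
        rw [pf_shift, le_div_iff₀ (by positivity)]
        norm_num at hee ⊢
        nlinarith
      have e3 : pf s ≤ 0.055 := by
        refine le_trans (pf_mono hs.1) ?_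
        have : t0 - 3 / 10 = t0 + (-(3 / 10)) := by ring
        rw [this, pf_shift, div_le_iff₀ (by positivity), exp_neg]
        have h5 : (1.35 : ℝ)⁻¹ ≤ (exp (3 / 10))⁻¹ := inv_anti₀ (exp_pos _) hee
        norm_num at h5 ⊢
        linarith
      have hq := q0_lo
      norm_num at hq e1 e2 e3 ⊢
      have e4 : 7783 / 10000 ≤ q0 * (1 - pf s) - 1 / 2 := by nlinarith
      have e5 : 307 / 10000 * (7783 / 10000) ≤ pf s * (q0 * (1 - pf s) - 1 / 2) :=
        mul_le_mul e2 e4 (by norm_num) (by linarith)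
      linarith) t ⟨by linarith, by linarith⟩
  rw [Ff_t0] at h
  norm_num at h ⊢
  linarith

theorem Ff_le {t : ℝ} (ht : 0 < t) : pf t ^ q0 * t = exp (-Ff t) * ell t := by
  have hl := ell_pos t
  rw [rpow_def_of_pos (pf_pos t), log_pf]
  unfold Ff
  have h1 : -(q0 * (t + ell t) - log t + log (ell t))
    = (-t - ell t) * q0 + log t - log (ell t) := by ring
  rw [h1, exp_sub, exp_add, exp_log ht, exp_log hl]
  field_simp

theorem Ff_left {t : ℝ} (ht : 0 < t) (h : t ≤ t0 - 3 / 10) :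
    0.0045 + 0.015 * (t0 - 3 / 10 - t) ≤ Ff t := by
  have h1 := t0_lo
  norm_num at h1
  have hx : 0 < t0 - 3 / 10 := by linarith
  obtain ⟨f1, f2⟩ := Ff1_t0
  have h2 := Ff_near (t := t0 - 3 / 10) (by rw [abs_of_nonpos (by linarith)]; linarith)
  have h3 := Ff_tangent hx (show 0 < t0 by linarith)
  have h4 := Ff_tangent hx ht
  rw [Ff_t0] at h3
  norm_num at h2 f2 ⊢
  have h5 : 0.0045 ≤ Ff (t0 - 3 / 10) := by norm_num; nlinarith
  norm_num at h5
  have h6 : Ff1 (t0 - 3 / 10) ≤ -(3 / 200) := by nlinarith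
  nlinarith

theorem Ff_right {t : ℝ} (h : t0 + 3 / 10 ≤ t) : 0.0045 ≤ Ff t := by
  have h1 := t0_lo
  norm_num at h1
  have hx : 0 < t0 + 3 / 10 := by linarith
  obtain ⟨f1, f2⟩ := Ff1_t0
  have h2 := Ff_near (t := t0 + 3 / 10) (by rw [abs_of_nonneg (by linarith)]; linarith)
  have h3 := Ff_tangent hx (show 0 < t0 by linarith)
  have h4 := Ff_tangent hx (show 0 < t by linarith)
  rw [Ff_t0] at h3
  norm_num at h2 f2 ⊢
  have h5 : 0.0045 ≤ Ff (t0 + 3 / 10) := by norm_num; nlinarith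
  norm_num at h5
  have h6 : 0 ≤ Ff1 (t0 + 3 / 10) := by nlinarith
  nlinarith

theorem exp_neg_bd {x c : ℝ} (hx : 0 ≤ c) (h : c ≤ x) : exp (-x) ≤ 1 / (1 + c) := by
  have h1 := add_one_le_exp x
  rw [exp_neg, ← one_div]
  apply one_div_le_one_div_of_le (by linarith)
  linarith

/-- Put `F t = q0 log (1 + e ^ t) - log t + log (ell t)` for `t > 0`; the claim is
`F t ≥ - log (1 - 4/1000)`.  One has `F t0 = 0` (as `log (1 + e ^ t0) = 76 t0 / 75`),
`F' t = q0 (1 - p) - 1 / t - p / ell t` (with `p = pf t`), so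
`F' t0 = (1 + 76 R) / (1 + R) * (1 / h0 - 1 / t0)`, about 0.00045, and
`F'' t = q0 p (1 - p) + 1 / t ^ 2 - (p / ell t) (p / ell t - (1 - p))`, which is positive for all
`t > 0` (use `ell t = - log (1 - p) ≥ p + p ^ 2 / 2`) and at least `0.105` on
`[t0 - 3/10, t0 + 3/10]`.  So `F (t0 ± 3/10) ≥ 0.0045` and `F` is monotone outside. -/
theorem P3 (t : ℝ) (ht0 : 0 ≤ t) (ht : 3 / 10 ≤ |t - t0|) :
    pf t ^ q0 * t ≤ (1 - 4 / 1000) * ell t := by
  rcases eq_or_lt_of_le ht0 with h | h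
  · rw [← h, mul_zero]
    have := ell_pos 0
    nlinarith
  · rw [Ff_le h]
    apply mul_le_mul_of_nonneg_right _ (ell_pos t).le
    have h1 : 0.0045 ≤ Ff t := by
      rcases le_abs.1 ht with h2 | h2
      · exact Ff_right (by linarith)
      · have := Ff_left h (by linarith)
        norm_num at this ⊢
        linarith
    refine (exp_neg_bd (by norm_num) h1).trans ?_
    norm_num

/-- same function; at `t = 2` the quotient of the two sides is about `0.90` -/
theorem P3b (t : ℝ) (ht0 : 0 ≤ t) (ht : t ≤ 2) :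
    pf t ^ q0 * (t + 1 / 100) ≤ (1 - 4 / 1000) * ell t := by
  have h1 : pf t ^ q0 ≤ ell t := by
    refine le_trans ?_ (pf_le_ell t)
    have := rpow_le_rpow_of_exponent_ge (pf_pos t) (pf_lt_one t).le
      (show 1 ≤ q0 by have := q0_lo; norm_num at this; linarith)
    rwa [rpow_one] at this
  have h2 : pf t ^ q0 * t ≤ 0.984 * ell t := by
    rcases eq_or_lt_of_le ht0 with h | h
    · rw [← h, mul_zero]
      have := ell_pos 0
      positivity
    · rw [Ff_le h]
      apply mul_le_mul_of_nonneg_right _ (ell_pos t).le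
      have h3 := t0_lo
      norm_num at h3
      have h4 := Ff_left h (by linarith)
      have h5 : 0.0172 ≤ Ff t := by norm_num at h4 ⊢; linarith
      refine (exp_neg_bd (by norm_num) h5).trans ?_
      norm_num
  have h3 := ell_pos t
  norm_num at h2 ⊢
  nlinarith

end WCT
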