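import Pool.Agent.H11.WCT.P2
import Pool.Agent.H11.WCT.P3

namespace WCT

open Real

/-- `α Q(t)` with `α = 1.00032`, `Q(t) = h0 + y + 0.024 y²`, `y = t - t0` -/
noncomputable def aQ (t : ℝ) : ℝ :=
  (100032 / 100000) * (h0 + (t - t0) + 24 / 1000 * (t - t0) ^ 2)

/-- the potential -/
noncomputable def Hk (t : ℝ) : ℝ := min t (aQ t) + 1 / 100 * max 0 (1 - t / 2)

/-- the main part of the potential -/
noncomputable def Hm (t : ℝ) : ℝ := min t (aQ t)

/-- `t0 - α h0` -/
noncomputable def bet : ℝ := t0 - (100032 / 100000) * h0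

theorem bet_lo : 0.0000625 < bet := by
  have h1 := gap_lo
  have h2 := h0_hi
  unfold bet
  norm_num at h1 h2 ⊢
  linarith

theorem bet_hi : bet < 0.000103 := by
  have h1 := gap_hi
  have h2 := h0_lo
  unfold bet
  norm_num at h1 h2 ⊢
  linarith

theorem sub_aQ (t : ℝ) : t - aQ t = bet - 32 / 100000 * (t - t0)
    - (100032 / 100000) * (24 / 1000) * (t - t0) ^ 2 := by
  unfold aQ bet
  ring

theorem aQ_lower (t : ℝ) : t - 2 / 10000 ≤ aQ t := by
  have h1 := sub_aQ t
  have h2 := bet_hi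
  norm_num at h2
  nlinarith [sq_nonneg ((t - t0) + 67 / 10000)]

/-- slope of the main part -/
theorem Hm_slope {a b : ℝ} (hab : a ≤ b) : (1 - 33 / 10000) * (b - a) ≤ Hm b - Hm a := by
  have h1 := bet_hi
  have h1' := bet_lo
  norm_num at h1 h1'
  have eb := sub_aQ b
  have ea := sub_aQ a
  have hHa1 : Hm a ≤ a := min_le_left _ _
  have hHa2 : Hm a ≤ aQ a := min_le_right _ _
  rcases le_total b (aQ b) with hb | hb
  · have : Hm b = b := min_eq_left hb
    rw [this]
    linarith
  · have hHb : Hm b = aQ b := min_eq_right hb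
    rw [hHb]
    set yb := b - t0 with hyb
    set ya := a - t0 with hya
    have hu : 0 ≤ yb - ya := by simp only [hyb, hya]; linarith
    have hba : b - a = yb - ya := by simp only [hyb, hya]; ring
    set m : ℝ := 32 / 100000 + 2 * ((100032 / 100000) * (24 / 1000)) * yb with hm
    have hid : m ^ 2 + 4 * ((100032 / 100000) * (24 / 1000)) * (b - aQ b) =
        (32 / 100000) ^ 2 + 4 * ((100032 / 100000) * (24 / 1000)) * bet := by
      rw [eb, hm]; ring
    have hm2 : m ^ 2 ≤ (33 / 10000) ^ 2 := by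
      nlinarith
    have hm3 : |m| ≤ 33 / 10000 := abs_le_of_sq_le_sq (by linarith) (by norm_num)
    obtain ⟨hm4, hm5⟩ := abs_le.1 hm3
    rcases le_total (aQ a) a with haa | haa
    · -- both in the region: use the exact difference
      have hma : -(33 / 10000) ≤ 32 / 100000 + 2 * ((100032 / 100000) * (24 / 1000)) * ya := by
        have hid' : (32 / 100000 + 2 * ((100032 / 100000) * (24 / 1000)) * ya) ^ 2 +
            4 * ((100032 / 100000) * (24 / 1000)) * (a - aQ a) =
            (32 / 100000) ^ 2 + 4 * ((100032 / 100000) * (24 / 1000)) * bet := by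
          rw [ea]; ring
        have : (32 / 100000 + 2 * ((100032 / 100000) * (24 / 1000)) * ya) ^ 2 ≤ (33 / 10000) ^ 2 := by
          nlinarith
        exact (abs_le.1 (abs_le_of_sq_le_sq (by linarith) (by norm_num))).1
      have hdiff : aQ b - aQ a = (yb - ya) *
          (1 + ((32 / 100000 + 2 * ((100032 / 100000) * (24 / 1000)) * ya) + m) / 2) := by
        have e1 : aQ b = b - (b - aQ b) := by ring
        have e2 : aQ a = a - (a - aQ a) := by ring
        rw [e1, e2, eb, ea, hm]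
        have : b - a = yb - ya := hba
        nlinarith
      rw [hba]
      have h5 : aQ b - Hm a ≥ aQ b - aQ a := by linarith
      have h6 : (yb - ya) * (1 - 33 / 10000) ≤ (yb - ya) *
          (1 + ((32 / 100000 + 2 * ((100032 / 100000) * (24 / 1000)) * ya) + m) / 2) := by
        apply mul_le_mul_of_nonneg_left _ hu
        linarith
      linarith
    · -- `a` outside
      rw [hba]
      have hkey : b - aQ b ≤ 33 / 10000 * (yb - ya) := by
        by_contra hcon
        push Not at hcon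
        rcases eq_or_lt_of_le hu with h0 | hupos
        · have : a = b := by linarith
          subst this
          have : aQ a = a := le_antisymm hb haa
          rw [this] at hcon
          linarith
        have hea : a - aQ a = (b - aQ b) + (yb - ya) * m
            - (100032 / 100000) * (24 / 1000) * (yb - ya) ^ 2 := by
          rw [ea, eb, hm]; ring
        have h7 : (b - aQ b) + (yb - ya) * m ≤ (100032 / 100000) * (24 / 1000) * (yb - ya) ^ 2 := by
          linarith
        have h8 : (33 / 10000 + m) * (yb - ya) < (100032 / 100000) * (24 / 1000) * (yb - ya) * (yb - ya) := by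
          nlinarith
        have h9 : 33 / 10000 + m < (100032 / 100000) * (24 / 1000) * (yb - ya) :=
          lt_of_mul_lt_mul_right h8 hu
        have h10 : 4 * ((100032 / 100000) * (24 / 1000)) * (b - aQ b) ≤
            (33 / 10000 - m) * (33 / 10000 + m) := by
          nlinarith
        have h11 : (33 / 10000 - m) * (33 / 10000 + m) ≤
            (33 / 10000 - m) * ((100032 / 100000) * (24 / 1000) * (yb - ya)) :=
          mul_le_mul_of_nonneg_left h9.le (by linarith)
        nlinarith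
      have h5 : aQ b - Hm a ≥ aQ b - a := by linarith
      linarith

theorem Hm_zero : Hm 0 = 0 := by
  unfold Hm
  apply min_eq_left
  have h1 := sub_aQ 0
  have h2 := bet_hi
  have h3 := t0_lo
  have h4 := t0_hi
  norm_num at h2 h3 h4
  nlinarith

theorem Hk_eq_Hm {t : ℝ} (h : 2 ≤ t) : Hk t = Hm t := by
  unfold Hk Hm
  rw [max_eq_left (by linarith)]
  ring

theorem Hk_upper {t : ℝ} (ht : 0 ≤ t) : Hk t ≤ t + 1 / 100 := by
  unfold Hk
  have h1 : min t (aQ t) ≤ t := min_le_left _ _
  have h2 : max 0 (1 - t / 2) ≤ 1 := max_le zero_le_one (by linarith)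
  linarith

theorem Hk_lower {t : ℝ} (ht : 0 ≤ t) : (1 / 2) * (t + 1 / 100) ≤ Hk t := by
  unfold Hk
  have h1 : t - 2 / 10000 ≤ min t (aQ t) := le_min (by linarith) (aQ_lower t)
  have h2 : 0 ≤ max 0 (1 - t / 2) := le_max_left _ _
  have h3 : 1 - t / 2 ≤ max 0 (1 - t / 2) := le_max_right _ _
  rcases le_total t 1 with h | h
  · linarith
  · linarith

theorem Hm_le_Hk (t : ℝ) : Hm t ≤ Hk t := by
  unfold Hk Hm
  have h2 : 0 ≤ max 0 (1 - t / 2) := le_max_left _ _
  linarith

theorem light {t : ℝ} (ht : 0 ≤ t) (h : 3 / 10 ≤ |t - t0|) :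
    pf t ^ q0 * Hk t ≤ (1 - 4 / 1000) * ell t := by
  have hp : 0 ≤ pf t ^ q0 := rpow_nonneg (pf_pos t).le _
  rcases le_total t 2 with h2 | h2
  · exact (mul_le_mul_of_nonneg_left (Hk_upper ht) hp).trans (P3b t ht h2)
  · rw [Hk_eq_Hm h2]
    exact (mul_le_mul_of_nonneg_left (min_le_left _ _) hp).trans (P3 t ht h)

theorem heavy1 {t : ℝ} (h : |t - t0| ≤ 3 / 10) :
    pf t ^ q0 * Hk t ≤ (100032 / 100000) * (h0 / 75 + (ell t - s0) - (ell t - s0) ^ 2) := by
  have hp : 0 ≤ pf t ^ q0 := rpow_nonneg (pf_pos t).le _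
  have h1 := P2 t h
  have h2 := t0_lo
  norm_num at h2
  obtain ⟨h3, h4⟩ := abs_le.1 h
  rw [Hk_eq_Hm (by linarith)]
  have h5 : pf t ^ q0 * Hm t ≤ pf t ^ q0 * aQ t := mul_le_mul_of_nonneg_left (min_le_right _ _) hp
  have h6 : pf t ^ q0 * aQ t = (100032 / 100000) / 75 *
      (75 * pf t ^ q0 * (h0 + (t - t0) + 24 / 1000 * (t - t0) ^ 2)) := by
    unfold aQ; ring
  rw [h6] at h5
  have h7 : (100032 / 100000) / 75 *
      (75 * pf t ^ q0 * (h0 + (t - t0) + 24 / 1000 * (t - t0) ^ 2)) ≤ (100032 / 100000) / 75 *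
      (h0 + 75 * (ell t - s0) - 75 * (ell t - s0) ^ 2) := by
    apply mul_le_mul_of_nonneg_left h1 (by norm_num)
  linarith

theorem heavy2 {t : ℝ} (h : |t - t0| ≤ 3 / 10) : pf t ^ q0 * Hk t ≤ ell t := by
  refine (heavy1 h).trans ?_
  have h1 := bet_lo
  norm_num at h1
  have h2 : ell t = s0 + (ell t - s0) := by ring
  set L := ell t - s0 with hL
  have h3 : bet = 75 * s0 - (100032 / 100000) * h0 := by unfold bet t0; ring
  rw [h2]
  nlinarith [sq_nonneg (L - 16 / 100000)]

theorem heavy3 {t : ℝ} (h : |t - t0| ≤ 3 / 10) : ell t ≤ 107 / 100 * pf t := by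
  have h2 := t0_lo
  norm_num at h2
  obtain ⟨h3, h4⟩ := abs_le.1 h
  have ht : 14 / 5 ≤ t := by linarith
  have h5 : exp (-t) ≤ 7 / 100 := by
    have h6 : 100 / 7 ≤ exp t := by
      have h7 : exp (2 + 4 / 5 : ℝ) ≤ exp t := exp_le_exp.2 (by linarith)
      have h8 : exp (2 + 4 / 5 : ℝ) = exp 1 * exp 1 * exp (4 / 5) := by
        rw [← exp_add, ← exp_add]; norm_num
      have h9 := quadratic_le_exp_of_nonneg (show (0 : ℝ) ≤ 4 / 5 by norm_num)
      have h10 := exp_one_gt_d9
      norm_num at h10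
      have h11 : (27 / 10 : ℝ) * (27 / 10) ≤ exp 1 * exp 1 := by nlinarith
      have h12 : (27 / 10 : ℝ) * (27 / 10) * (212 / 100) ≤ exp 1 * exp 1 * exp (4 / 5) := by
        apply mul_le_mul h11 _ (by norm_num) (by positivity)
        norm_num at h9 ⊢
        linarith
      norm_num at h12
      linarith
    rw [exp_neg]
    rw [inv_le_comm₀ (exp_pos t) (by norm_num)]
    norm_num
    linarith
  have h6 := ell_le_exp t
  have h7 := pf_eq t
  have h8 : exp (-t) = pf t * (1 + exp (-t)) := by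
    rw [h7]
    have := exp_pos (-t)
    field_simp
  have h9 := pf_pos t
  calc ell t ≤ exp (-t) := h6
    _ = pf t * (1 + exp (-t)) := h8
    _ ≤ pf t * (107 / 100) := by
        apply mul_le_mul_of_nonneg_left _ h9.le
        linarith
    _ = 107 / 100 * pf t := by ring

/-- Bookkeeping: the heavy children and the fillers. -/
theorem split_list (l : List ℝ) (hl : ∀ t ∈ l, 0 ≤ t) :
    ∃ (k : ℕ) (T F P L2 : ℝ), 0 ≤ T ∧ 0 ≤ F ∧ 0 ≤ L2 ∧ (l.map ell).sum = T + F ∧
      (l.map (fun t => pf t ^ q0 * Hk t)).sum ≤ P + (1 - 4 / 1000) * F ∧ P ≤ T ∧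
      P ≤ (100032 / 100000) * (k * h0 / 75 + (T - k * s0) - L2) ∧
      (T - k * s0) ^ 2 ≤ k * L2 ∧ (k = 0 → T = 0) ∧ T ≤ 107 / 100 * (l.map pf).sum := by
  induction l with
  | nil =>
    refine ⟨0, 0, 0, 0, 0, le_rfl, le_rfl, le_rfl, ?_, ?_, le_rfl, ?_, ?_, fun _ => rfl, ?_⟩ <;> simp
  | cons t l ih =>
    obtain ⟨k, T, F, P, L2, hT, hF, hL2, h1, h2, h3, h4, h5, h6, h7⟩ :=
      ih (fun s hs => hl s (List.mem_cons_of_mem _ hs))
    have ht : 0 ≤ t := hl t List.mem_cons_self
    have hell := (ell_pos t).le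
    have hpf := (pf_pos t).le
    simp only [List.map_cons, List.sum_cons]
    rcases le_total (3 / 10) |t - t0| with hh | hh
    · refine ⟨k, T, F + ell t, P, L2, hT, by linarith, hL2, by linarith, ?_, h3, h4, h5, h6, ?_⟩
      · have := light ht hh
        linarith
      · linarith
    · refine ⟨k + 1, T + ell t, F, P + pf t ^ q0 * Hk t, L2 + (ell t - s0) ^ 2, by linarith, hF,
        by positivity, by linarith, by linarith, ?_, ?_, ?_, ?_, ?_⟩
      · have := heavy2 hh
        linarith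
      · have := heavy1 hh
        push_cast
        linarith
      · push_cast
        set X := T - k * s0 with hX
        set Λ := ell t - s0 with hΛ
        have e1 : T + ell t - ((k : ℝ) + 1) * s0 = X + Λ := by rw [hX, hΛ]; ring
        rw [e1]
        have hk : (0 : ℝ) ≤ k := Nat.cast_nonneg k
        have h8 : |2 * X * Λ| ≤ L2 + k * Λ ^ 2 := by
          apply abs_le_of_sq_le_sq _ (by positivity)
          nlinarith [sq_nonneg (L2 - k * Λ ^ 2), mul_nonneg (sub_nonneg.2 h5) (sq_nonneg Λ)]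
        have h9 := (abs_le.1 h8).2
        nlinarith
      · intro h; omega
      · have := heavy3 hh
        linarith

theorem heavy_total {k : ℕ} {T P L2 : ℝ} (hL2 : 0 ≤ L2)
    (h4 : P ≤ (100032 / 100000) * (k * h0 / 75 + (T - k * s0) - L2))
    (h5 : (T - k * s0) ^ 2 ≤ k * L2) (hk : 1 ≤ k) : P ≤ aQ T := by
  refine h4.trans ?_
  unfold aQ
  apply mul_le_mul_of_nonneg_left _ (by norm_num)
  have hgl := gap_lo
  have hgh := gap_hi
  have hs := s0_lo
  norm_num at hgl hgh hs
  set Y := T - t0 with hY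
  set j : ℝ := 75 - k with hj
  have hkr : (k : ℝ) = 75 - j := by rw [hj]; ring
  have hk1 : (1 : ℝ) ≤ k := by exact_mod_cast hk
  set Z := T - k * s0 with hZ
  have hZY : Z = Y + j * s0 := by
    rw [hZ, hY, hj]
    unfold t0
    ring
  suffices hgoal : j * (t0 - h0) / 75 ≤ 24 / 1000 * Y ^ 2 + L2 by
    have e : (k : ℝ) * h0 / 75 + Z - L2 = h0 + Y - L2 + j * (t0 - h0) / 75 := by
      rw [hkr, hZY]
      unfold t0
      ring
    rw [e]
    linarith
  rcases le_or_gt 75 k with h75 | h75
  · have : j ≤ 0 := by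
      rw [hj]
      have : (75 : ℝ) ≤ k := by exact_mod_cast h75
      linarith
    have h1 : j * (t0 - h0) ≤ 0 := mul_nonpos_of_nonpos_of_nonneg this (by linarith)
    have h2 : 0 ≤ 24 / 1000 * Y ^ 2 + L2 := by positivity
    linarith
  · have hj1 : 1 ≤ j := by
      rw [hj]
      have : (k : ℝ) + 1 ≤ 75 := by exact_mod_cast h75
      linarith
    have hk0 : (0 : ℝ) < k := by linarith
    set R := 24 / 1000 * Y ^ 2 + L2 with hR
    have hR0 : 0 ≤ R := by positivity
    have hcs : (j * s0) ^ 2 ≤ (k + 1000 / 24) * R := by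
      have e : j * s0 = Z - Y := by rw [hZY]; ring
      rw [e]
      have h8 : |2 * Z * Y| ≤ (1000 / 24) * L2 + k * (24 / 1000) * Y ^ 2 := by
        apply abs_le_of_sq_le_sq _ (by positivity)
        nlinarith [sq_nonneg ((1000 / 24) * L2 - k * (24 / 1000) * Y ^ 2),
          mul_nonneg (sub_nonneg.2 h5) (sq_nonneg Y)]
      have h9 := (abs_le.1 h8).1
      rw [hR]
      nlinarith
    have h10 : (k : ℝ) + 1000 / 24 = 75 - j + 1000 / 24 := by rw [hkr]
    rw [h10] at hcs
    -- numeric
    have hden : 0 < 75 - j + 1000 / 24 := by rw [← h10]; positivity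
    have hs2 : (0.0017631 : ℝ) ≤ s0 ^ 2 := by
      norm_num
      nlinarith
    have h11 : j * (t0 - h0) / 75 * (75 - j + 1000 / 24) ≤ (j * s0) ^ 2 := by
      have h12 : (t0 - h0) * (75 - j + 1000 / 24) ≤ 75 * (j * s0 ^ 2) := by
        have h13 : (t0 - h0) * (75 - j + 1000 / 24) ≤ 111 / 100000 * (74 + 1000 / 24) := by
          apply mul_le_mul _ _ hden.le (by norm_num)
          · linarith
          · linarith
        have h14 : s0 ^ 2 ≤ j * s0 ^ 2 := le_mul_of_one_le_left (sq_nonneg _) hj1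
        norm_num at hs2 h13
        linarith
      have h15 := mul_le_mul_of_nonneg_left h12 (show 0 ≤ j / 75 by positivity)
      calc j * (t0 - h0) / 75 * (75 - j + 1000 / 24)
          = j / 75 * ((t0 - h0) * (75 - j + 1000 / 24)) := by ring
        _ ≤ j / 75 * (75 * (j * s0 ^ 2)) := h15
        _ = (j * s0) ^ 2 := by ring
    have h16 : j * (t0 - h0) / 75 * (75 - j + 1000 / 24) ≤ R * (75 - j + 1000 / 24) := by
      linarith
    exact le_of_mul_le_mul_right h16 hden

/-- the common part of `core` and `core_gap` -/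
theorem core_aux (l : List ℝ) (hl : ∀ t ∈ l, 0 ≤ t) :
    ∃ T F : ℝ, 0 ≤ T ∧ 0 ≤ F ∧ (l.map ell).sum = T + F ∧
      (l.map (fun t => pf t ^ q0 * Hk t)).sum ≤ Hm (T + F) - 7 / 10000 * F ∧
      T ≤ 107 / 100 * (l.map pf).sum := by
  obtain ⟨k, T, F, P, L2, hT, hF, hL2, h1, h2, h3, h4, h5, h6, h7⟩ := split_list l hl
  refine ⟨T, F, hT, hF, h1, ?_, h7⟩
  have hP : P ≤ Hm T := by
    rcases Nat.eq_zero_or_pos k with hk | hk
    · rw [h6 hk, Hm_zero]
      rw [h6 hk] at h3
      exact h3
    · exact le_min h3 (heavy_total hL2 h4 h5 hk)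
  have h8 := Hm_slope (a := T) (b := T + F) (by linarith)
  have h9 : T + F - T = F := by ring
  rw [h9] at h8
  linarith

/-- The multi-child inequality. -/
theorem core (l : List ℝ) (hl : ∀ t ∈ l, 0 ≤ t) :
    (l.map (fun t => pf t ^ q0 * Hk t)).sum ≤ Hk (l.map ell).sum := by
  obtain ⟨T, F, hT, hF, h1, h2, _⟩ := core_aux l hl
  rw [h1]
  have := Hm_le_Hk (T + F)
  linarith

/-- The multi-child inequality with a gap. -/
theorem core_gap (l : List ℝ) (hl : ∀ t ∈ l, 0 ≤ t) (hp : (l.map pf).sum ≤ 11 / 10) :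
    (l.map (fun t => pf t ^ q0 * Hk t)).sum ≤ (1 - 1 / 10000) * Hk (l.map ell).sum := by
  obtain ⟨T, F, hT, hF, h1, h2, h3⟩ := core_aux l hl
  rw [h1]
  have h4 : T ≤ 12 / 10 := by linarith
  have h5 := Hk_upper (t := T + F) (by linarith)
  rcases le_total F (4 / 10) with hF4 | hF4
  · have h6 : Hm (T + F) + 2 / 1000 ≤ Hk (T + F) := by
      unfold Hk Hm
      have : 1 - (T + F) / 2 ≤ max 0 (1 - (T + F) / 2) := le_max_right _ _
      linarith
    linarith
  · have h6 := Hm_le_Hk (T + F)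
    linarith

end WCT
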