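import Pool.Agent.H11.WCT.Defs

namespace WCT

theorem corona_connected {V : Type*} (G : SimpleGraph V) (hG : G.Connected) :
    (corona G).Connected := by
  have hV : Nonempty V := hG.nonempty
  have hhom : ∀ a b : V, G.Adj a b → (corona G).Adj (Sum.inl a) (Sum.inl b) := fun a b h => h
  have hl : ∀ a b : V, (corona G).Reachable (Sum.inl a) (Sum.inl b) := by
    intro a b
    exact (hG.preconnected a b).map (⟨Sum.inl, fun {a b} h => hhom a b h⟩ : G →g corona G)
  have hr : ∀ a : V, (corona G).Reachable (Sum.inl a) (Sum.inr a) := by
    intro a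
    exact SimpleGraph.Adj.reachable (show (corona G).Adj (Sum.inl a) (Sum.inr a) from rfl)
  have hall : ∀ (a : V) (x : V ⊕ V), (corona G).Reachable (Sum.inl a) x := by
    rintro a (b | b)
    · exact hl a b
    · exact (hl a b).trans (hr b)
  have : Nonempty (V ⊕ V) := ⟨Sum.inl hV.some⟩
  exact ⟨fun x y => (hall hV.some x).symm.trans (hall hV.some y)⟩

open Classical in
theorem corona_card_edges {V : Type*} [Fintype V] (G : SimpleGraph V) :
    (corona G).edgeFinset.card = G.edgeFinset.card + Fintype.card V := by
  have h1 := G.sum_degrees_eq_twice_card_edges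
  have h2 := (corona G).sum_degrees_eq_twice_card_edges
  rw [Fintype.sum_sum_type] at h2
  have hinl : ∀ a : V, (corona G).degree (Sum.inl a) = G.degree a + 1 := by
    intro a
    have : (corona G).neighborFinset (Sum.inl a)
        = (G.neighborFinset a).disjSum {a} := by
      ext x
      rw [SimpleGraph.mem_neighborFinset]
      rcases x with b | b
      · rw [Finset.inl_mem_disjSum, SimpleGraph.mem_neighborFinset]
        rfl
      · rw [Finset.inr_mem_disjSum, Finset.mem_singleton]
        exact ⟨fun h => Eq.symm h, fun h => Eq.symm h⟩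
    rw [← SimpleGraph.card_neighborFinset_eq_degree, this, Finset.card_disjSum,
      SimpleGraph.card_neighborFinset_eq_degree, Finset.card_singleton]
  have hinr : ∀ a : V, (corona G).degree (Sum.inr a) = 1 := by
    intro a
    have : (corona G).neighborFinset (Sum.inr a) = {Sum.inl a} := by
      ext x
      rw [SimpleGraph.mem_neighborFinset, Finset.mem_singleton]
      rcases x with b | b
      · rw [Sum.inl.injEq]
        exact ⟨fun h => Eq.symm h, fun h => Eq.symm h⟩
      · exact ⟨fun h => h.elim, fun h => by cases h⟩
    rw [← SimpleGraph.card_neighborFinset_eq_degree, this, Finset.card_singleton]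
  simp only [hinl, hinr] at h2
  rw [Finset.sum_add_distrib, h1] at h2
  simp only [Finset.sum_const, Finset.card_univ, smul_eq_mul, mul_one] at h2
  omega

theorem corona_isTree {V : Type*} [Fintype V] (G : SimpleGraph V) (hG : G.IsTree) :
    (corona G).IsTree := by
  classical
  rw [SimpleGraph.isTree_iff_connected_and_card] at hG ⊢
  refine ⟨corona_connected G hG.1, ?_⟩
  have h1 := hG.2
  have h2 := corona_card_edges G
  rw [Nat.card_eq_fintype_card, ← SimpleGraph.edgeFinset_card, Nat.card_eq_fintype_card] at h1 ⊢
  rw [h2, Fintype.card_sum]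
  omega

theorem corona_indep_iff {V : Type*} (G : SimpleGraph V) (s : Finset (V ⊕ V)) :
    (corona G).IsIndepSet (s : Set (V ⊕ V)) ↔
      G.IsIndepSet (s.toLeft : Set V) ∧ Disjoint s.toLeft s.toRight := by
  rw [SimpleGraph.isIndepSet_iff, SimpleGraph.isIndepSet_iff]
  constructor
  · intro h
    refine ⟨?_, ?_⟩
    · intro a ha b hb hab
      simp only [Finset.mem_coe, Finset.mem_toLeft] at ha hb
      exact h (Finset.mem_coe.mpr ha) (Finset.mem_coe.mpr hb)
        (fun e => hab (Sum.inl_injective e))
    · rw [Finset.disjoint_left]
      intro a ha hb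
      rw [Finset.mem_toLeft] at ha
      rw [Finset.mem_toRight] at hb
      exact h (Finset.mem_coe.mpr ha) (Finset.mem_coe.mpr hb) (fun e => by cases e) rfl
  · rintro ⟨h1, h2⟩ x hx y hy hxy
    rw [Finset.disjoint_left] at h2
    rcases x with a | a <;> rcases y with b | b
    · exact h1 (by simpa using hx) (by simpa using hy) (fun e => hxy (by rw [e]))
    · intro h
      have h' : a = b := h
      subst h'
      exact h2 (by simpa using hx) (by simpa using hy)
    · intro h
      have h' : a = b := h
      subst h'
      exact h2 (by simpa using hy) (by simpa using hx)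
    · exact fun h => h

theorem corona_wellCovered {V : Type*} [Fintype V] (G : SimpleGraph V) :
    WellCovered (corona G) := by
  classical
  have key : ∀ s : Finset (V ⊕ V),
      Maximal (fun u : Finset (V ⊕ V) => (corona G).IsIndepSet (u : Set (V ⊕ V))) s →
      s.card = Fintype.card V := by
    intro s hs
    have hind := (corona_indep_iff G s).mp hs.prop
    rw [← Finset.card_toLeft_add_card_toRight, ← Finset.card_union_of_disjoint hind.2,
      Finset.card_eq_iff_eq_univ, Finset.eq_univ_iff_forall]
    intro a
    by_contra ha
    rw [Finset.mem_union, not_or, Finset.mem_toLeft, Finset.mem_toRight] at ha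
    -- insert the pendant vertex
    have hins : (corona G).IsIndepSet ((insert (Sum.inr a) s : Finset (V ⊕ V)) : Set (V ⊕ V)) := by
      rw [SimpleGraph.isIndepSet_iff]
      have h0 := SimpleGraph.isIndepSet_iff (corona G) |>.mp hs.prop
      rw [Finset.coe_insert]
      intro x hx y hy hxy
      rcases Set.mem_insert_iff.mp hx with rfl | hx'
      · rcases Set.mem_insert_iff.mp hy with rfl | hy'
        · exact absurd rfl hxy
        · rcases y with b | b
          · intro h
            have h' : a = b := h
            subst h'
            exact ha.1 (Finset.mem_coe.mp hy')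
          · exact fun h => h
      · rcases Set.mem_insert_iff.mp hy with rfl | hy'
        · rcases x with b | b
          · intro h
            have h' : b = a := h
            subst h'
            exact ha.1 (Finset.mem_coe.mp hx')
          · exact fun h => h
        · exact h0 hx' hy' hxy
    have := hs.le_of_ge hins (Finset.subset_insert _ _)
    exact ha.2 (this (Finset.mem_insert_self _ _))
  intro s t hs ht
  rw [key s hs, key t ht]

/-- An independent set of the corona is an independent set `J` of `G` together with any set of
pendant vertices attached outside `J`. -/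
theorem hpoly_corona {V : Type*} [Fintype V] (G : SimpleGraph V) (z : ℂ) :
    hpoly (corona G) 1 z = hpoly G (1 + z) z := by
  classical
  unfold hpoly
  rw [← (Finset.sumEquiv (α := V) (β := V)).symm.toEquiv.sum_comp]
  rw [Fintype.sum_prod_type]
  apply Finset.sum_congr rfl
  intro J _
  have h1 : ∀ K : Finset V,
      (if (corona G).IsIndepSet ((((Finset.sumEquiv (α := V) (β := V)).symm.toEquiv (J, K)) :
          Finset (V ⊕ V)) : Set (V ⊕ V)) then
        z ^ (((Finset.sumEquiv (α := V) (β := V)).symm.toEquiv (J, K)) : Finset (V ⊕ V)).card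
          * (1 : ℂ) ^ (Fintype.card (V ⊕ V)
            - (((Finset.sumEquiv (α := V) (β := V)).symm.toEquiv (J, K)) : Finset (V ⊕ V)).card)
        else 0)
      = if G.IsIndepSet (J : Set V) then (if K ∈ (Jᶜ).powerset then z ^ J.card * z ^ K.card else 0)
        else 0 := by
    intro K
    have e : ((Finset.sumEquiv (α := V) (β := V)).symm.toEquiv (J, K) : Finset (V ⊕ V))
        = J.disjSum K := rfl
    rw [e, one_pow, mul_one]
    have hiff := corona_indep_iff G (J.disjSum K)
    rw [Finset.toLeft_disjSum, Finset.toRight_disjSum] at hiff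
    have hdis : Disjoint J K ↔ K ∈ (Jᶜ).powerset := by
      rw [Finset.mem_powerset, Finset.subset_compl_iff_disjoint_left, disjoint_comm]
    rw [hdis] at hiff
    by_cases hJ : G.IsIndepSet (J : Set V)
    · by_cases hK : K ∈ (Jᶜ).powerset
      · rw [if_pos (hiff.mpr ⟨hJ, hK⟩), if_pos hJ, if_pos hK, Finset.card_disjSum, pow_add]
      · rw [if_neg (fun h => hK (hiff.mp h).2), if_pos hJ, if_neg hK]
    · rw [if_neg (fun h => hJ (hiff.mp h).1), if_neg hJ]
  refine Eq.trans (b := ∑ K : Finset V, if G.IsIndepSet (J : Set V) then
    (if K ∈ (Jᶜ).powerset then z ^ J.card * z ^ K.card else 0) else 0)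
    (Finset.sum_congr rfl (fun K _ => ?_)) ?_
  · rw [← h1 K]
    congr
  by_cases hJ : G.IsIndepSet (J : Set V)
  · simp only [if_pos hJ]
    rw [Finset.sum_ite_mem, Finset.univ_inter, ← Finset.mul_sum]
    congr 1
    have h2 := Finset.sum_pow_mul_eq_add_pow z 1 (Jᶜ)
    simp only [one_pow, mul_one] at h2
    rw [h2, Finset.card_compl, add_comm z 1]
  · simp only [if_neg hJ, Finset.sum_const_zero]

end WCT
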