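import Mathlib

namespace WCT

open Metric Set Filter Topology

/-- A holomorphic function without zeros on a disc has a logarithm. -/
lemma exists_log_ball (f : ℂ → ℂ) (c : ℂ) (R : ℝ) (hR : 0 < R)
    (hf : DifferentiableOn ℂ f (ball c R)) (h0 : ∀ z ∈ ball c R, f z ≠ 0) (l : ℂ)
    (hl : Complex.exp l = f c) :
    ∃ h : ℂ → ℂ, h c = l ∧ DifferentiableOn ℂ h (ball c R) ∧
      ∀ z ∈ ball c R, Complex.exp (h z) = f z := by
  have hq : DifferentiableOn ℂ (fun z => deriv f z / f z) (ball c R) :=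
    (hf.deriv isOpen_ball).div hf h0
  obtain ⟨h, hc, hh⟩ := (hq.isExactOn_ball).with_val_at c l
  refine ⟨h, hc, fun z hz => (hh z hz).differentiableAt.differentiableWithinAt, ?_⟩
  have hder : ∀ z ∈ ball c R, HasDerivAt (fun z => Complex.exp (-h z) * f z) 0 z := by
    intro z hz
    have h1 := ((hh z hz).neg.cexp).mul
      ((hf.differentiableAt (isOpen_ball.mem_nhds hz)).hasDerivAt)
    have h2 := h0 z hz
    have key : Complex.exp (-h z) * (-(deriv f z / f z)) * f z
        + Complex.exp (-h z) * deriv f z = 0 := by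
      have h3 : deriv f z / f z * f z = deriv f z := div_mul_cancel₀ _ h2
      linear_combination (-Complex.exp (-h z)) * h3
    rw [← key]
    exact h1
  have hcon : ∀ z ∈ ball c R, Complex.exp (-h z) * f z = Complex.exp (-h c) * f c := by
    intro z hz
    exact isOpen_ball.is_const_of_deriv_eq_zero (convex_ball c R).isPreconnected
      (fun w hw => (hder w hw).differentiableAt.differentiableWithinAt)
      (fun w hw => (hder w hw).deriv) hz (mem_ball_self hR)
  intro z hz
  have h2 := hcon z hz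
  rw [hc, ← hl, ← Complex.exp_add, neg_add_cancel, Complex.exp_zero] at h2
  have h3 : Complex.exp (h z) * (Complex.exp (-h z) * f z) = Complex.exp (h z) := by
    rw [h2, mul_one]
  rw [← mul_assoc, ← Complex.exp_add, add_neg_cancel, Complex.exp_zero, one_mul] at h3
  exact h3.symm

/-- A weak form of Bloch's theorem. -/
lemma bloch (F : ℂ → ℂ) (c : ℂ) (R ρ : ℝ) (hρ : 0 < ρ)
    (hF : DifferentiableOn ℂ F (ball c R))
    (hom : ∀ w : ℂ, ∃ v ∈ ball w ρ, v ∉ F '' ball c R) (hR : 0 < R) :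
    ‖deriv F c‖ * R ≤ 48 * ρ := by
  have key : ∀ r : ℝ, 0 < r → r < R → ‖deriv F c‖ * r ≤ 48 * ρ := by
    intro r hr hrR
    by_cases hD : ‖deriv F c‖ = 0
    · rw [hD, zero_mul]; positivity
    have hD' : 0 < ‖deriv F c‖ := lt_of_le_of_ne (norm_nonneg _) (Ne.symm hD)
    have hsub : closedBall c r ⊆ ball c R := closedBall_subset_ball hrR
    have hdF : DifferentiableOn ℂ (deriv F) (ball c R) := hF.deriv isOpen_ball
    have hcont : ContinuousOn (fun z => ‖deriv F z‖ * (r - ‖z - c‖)) (closedBall c r) := by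
      refine ContinuousOn.mul (hdF.continuousOn.mono hsub).norm ?_
      fun_prop
    obtain ⟨z0, hz0, hmax⟩ := (isCompact_closedBall c r).exists_isMaxOn
      ⟨c, mem_closedBall_self hr.le⟩ hcont
    have hmax' : ∀ z ∈ closedBall c r,
        ‖deriv F z‖ * (r - ‖z - c‖) ≤ ‖deriv F z0‖ * (r - ‖z0 - c‖) := fun z hz => hmax hz
    have hc1 := hmax' c (mem_closedBall_self hr.le)
    rw [sub_self, norm_zero, sub_zero] at hc1
    have hpos : 0 < ‖deriv F z0‖ * (r - ‖z0 - c‖) := lt_of_lt_of_le (by positivity) hc1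
    have hM : 0 < ‖deriv F z0‖ := by
      rcases (norm_nonneg (deriv F z0)).lt_or_eq with h | h
      · exact h
      · rw [← h, zero_mul] at hpos; exact absurd hpos (lt_irrefl _)
    set M := ‖deriv F z0‖ with hMdef
    have ht2 : 0 < r - ‖z0 - c‖ := by
      by_contra hcon
      push Not at hcon
      have := mul_nonpos_of_nonneg_of_nonpos hM.le hcon
      linarith
    set t := (r - ‖z0 - c‖) / 2 with ht
    have htpos : 0 < t := by positivity
    have hin : ∀ z ∈ ball z0 t, z ∈ closedBall c r ∧ t ≤ r - ‖z - c‖ := by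
      intro z hz
      rw [mem_ball, dist_eq_norm] at hz
      have h1 : ‖z - c‖ ≤ ‖z - z0‖ + ‖z0 - c‖ := by
        have := norm_add_le (z - z0) (z0 - c)
        rwa [sub_add_sub_cancel] at this
      have h2 : t ≤ r - ‖z - c‖ := by
        rw [ht] at hz ⊢; linarith
      refine ⟨?_, h2⟩
      rw [mem_closedBall, dist_eq_norm]
      linarith
    have hbd : ∀ z ∈ ball z0 t, ‖deriv F z‖ ≤ 2 * M := by
      intro z hz
      obtain ⟨h1, h2⟩ := hin z hz
      have h3 := hmax' z h1
      have h4 : ‖deriv F z‖ * t ≤ ‖deriv F z‖ * (r - ‖z - c‖) :=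
        mul_le_mul_of_nonneg_left h2 (norm_nonneg _)
      have h5 : M * (r - ‖z0 - c‖) = (2 * M) * t := by rw [ht]; ring
      exact le_of_mul_le_mul_right (by linarith) htpos
    have hsub2 : ball z0 t ⊆ ball c R := fun z hz => hsub (hin z hz).1
    have hmaps : MapsTo (deriv F) (ball z0 t) (closedBall (deriv F z0) (3 * M)) := by
      intro z hz
      rw [mem_closedBall, dist_eq_norm]
      have := norm_sub_le (deriv F z) (deriv F z0)
      have := hbd z hz
      linarith
    have hsch : ∀ z ∈ ball z0 t, ‖deriv F z - deriv F z0‖ ≤ 3 * M / t * ‖z - z0‖ := by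
      intro z hz
      have := Complex.dist_le_div_mul_dist_of_mapsTo_ball (hdF.mono hsub2) hmaps hz
      rwa [dist_eq_norm, dist_eq_norm] at this
    set s := t / 6 with hs
    have hspos : 0 < s := by positivity
    have hst : s < t := by rw [hs]; linarith
    have hcb : closedBall z0 s ⊆ ball z0 t := closedBall_subset_ball hst
    have hmain : ∀ z ∈ sphere z0 s, M * t / 12 ≤ ‖F z - F z0‖ := by
      intro z hz
      have hzc : z ∈ closedBall z0 s := sphere_subset_closedBall hz
      have hG : ∀ w ∈ closedBall z0 s,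
          HasDerivWithinAt (fun w => F w - deriv F z0 * w) (deriv F w - deriv F z0)
            (closedBall z0 s) w := by
        intro w hw
        have h1 : HasDerivAt F (deriv F w) w :=
          (hF.differentiableAt (isOpen_ball.mem_nhds (hsub2 (hcb hw)))).hasDerivAt
        have h2 := h1.sub ((hasDerivAt_id w).const_mul (deriv F z0))
        simp only [mul_one] at h2
        exact h2.hasDerivWithinAt
      have hb : ∀ w ∈ closedBall z0 s, ‖deriv F w - deriv F z0‖ ≤ M / 2 := by
        intro w hw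
        have h1 := hsch w (hcb hw)
        have h2 : ‖w - z0‖ ≤ s := by rwa [mem_closedBall, dist_eq_norm] at hw
        have h3 : 3 * M / t * ‖w - z0‖ ≤ 3 * M / t * s :=
          mul_le_mul_of_nonneg_left h2 (by positivity)
        have h4 : 3 * M / t * s = M / 2 := by
          rw [hs]; field_simp; norm_num
        linarith
      have h5 := (convex_closedBall z0 s).norm_image_sub_le_of_norm_hasDerivWithin_le hG hb
        (mem_closedBall_self hspos.le) hzc
      have hzs : ‖z - z0‖ = s := by rwa [mem_sphere, dist_eq_norm] at hz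
      rw [hzs] at h5
      have h6 : F z - deriv F z0 * z - (F z0 - deriv F z0 * z0)
          = (F z - F z0) - deriv F z0 * (z - z0) := by ring
      rw [h6] at h5
      have h7 : ‖deriv F z0 * (z - z0)‖ = M * s := by rw [norm_mul, hzs]
      have h8 : ‖deriv F z0 * (z - z0)‖ ≤ ‖F z - F z0‖
          + ‖(F z - F z0) - deriv F z0 * (z - z0)‖ := by
        have := norm_sub_le (F z - F z0) ((F z - F z0) - deriv F z0 * (z - z0))
        rwa [sub_sub_cancel] at this
      rw [h7] at h8
      have h9 : M * t / 12 = M * s - M / 2 * s := by rw [hs]; ring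
      rw [h9]
      linarith
    have hfreq : ∃ᶠ z in 𝓝 z0, F z ≠ F z0 := by
      have h1 : HasDerivAt F (deriv F z0) z0 :=
        (hF.differentiableAt (isOpen_ball.mem_nhds (hsub hz0))).hasDerivAt
      have h2 : deriv F z0 ≠ 0 := norm_pos_iff.mp hM
      have h3 : ∀ᶠ z in 𝓝[≠] z0, F z ≠ F z0 := h1.eventually_ne h2
      exact h3.frequently.filter_mono nhdsWithin_le_nhds
    have hdc : DiffContOnCl ℂ F (ball z0 s) := by
      have : DifferentiableOn ℂ F (closure (ball z0 s)) := by
        refine hF.mono (Subset.trans closure_ball_subset_closedBall (hcb.trans hsub2))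
      exact this.diffContOnCl
    have hball := hdc.ball_subset_image_closedBall hspos hmain hfreq
    obtain ⟨v, hv1, hv2⟩ := hom (F z0)
    have hlt : M * t / 12 / 2 < ρ := by
      by_contra hcon
      push Not at hcon
      have h1 : v ∈ ball (F z0) (M * t / 12 / 2) := ball_subset_ball hcon hv1
      obtain ⟨z, hz, hzv⟩ := hball h1
      exact hv2 ⟨z, hsub2 (hcb hz), hzv⟩
    have h10 : ‖deriv F c‖ * r ≤ M * (2 * t) := by
      have : 2 * t = r - ‖z0 - c‖ := by rw [ht]; ring
      rw [this]; exact hc1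
    linarith
  by_contra hcon
  push Not at hcon
  have hD : 0 < ‖deriv F c‖ := by
    rcases (norm_nonneg (deriv F c)).lt_or_eq with h | h
    · exact h
    · rw [← h, zero_mul] at hcon
      have : 0 < 48 * ρ := by positivity
      linarith
  have h1 : 48 * ρ / ‖deriv F c‖ < R := by
    rw [div_lt_iff₀ hD]; linarith
  have h0 : 0 < 48 * ρ / ‖deriv F c‖ := by positivity
  have h2 := key ((48 * ρ / ‖deriv F c‖ + R) / 2) (by linarith) (by linarith)
  have h3 : 48 * ρ = ‖deriv F c‖ * (48 * ρ / ‖deriv F c‖) := by field_simp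
  have h4 : ‖deriv F c‖ * (48 * ρ / ‖deriv F c‖)
      < ‖deriv F c‖ * ((48 * ρ / ‖deriv F c‖ + R) / 2) :=
    mul_lt_mul_of_pos_left (by linarith) hD
  linarith

lemma real_net_nonneg (x : ℝ) (hx : 0 ≤ x) :
    ∃ a : ℝ, (∃ n : ℕ, Real.cosh (2 * a) = 2 * n + 1) ∧ |x - a| ≤ 1 / 2 := by
  have hcosh : ∀ n : ℕ, Real.cosh (2 * Real.arsinh (Real.sqrt n)) = 2 * n + 1 := by
    intro n
    rw [Real.cosh_two_mul, Real.cosh_sq, Real.sinh_arsinh, Real.sq_sqrt (Nat.cast_nonneg n)]
    ring
  set n := ⌊Real.sinh x ^ 2⌋₊ with hn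
  have h1 : (n : ℝ) ≤ Real.sinh x ^ 2 := Nat.floor_le (sq_nonneg _)
  have h2 : Real.sinh x ^ 2 < n + 1 := Nat.lt_floor_add_one _
  have hs0 : 0 ≤ Real.sinh x := Real.sinh_nonneg_iff.mpr hx
  have h3 : Real.arsinh (Real.sqrt n) ≤ x := by
    have : Real.sqrt n ≤ Real.sinh x := Real.sqrt_le_iff.mpr ⟨hs0, h1⟩
    calc Real.arsinh (Real.sqrt n) ≤ Real.arsinh (Real.sinh x) := Real.arsinh_le_arsinh.mpr this
      _ = x := Real.arsinh_sinh x
  have h4 : x ≤ Real.arsinh (Real.sqrt ((n + 1 : ℕ) : ℝ)) := by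
    have : Real.sinh x ≤ Real.sqrt ((n + 1 : ℕ) : ℝ) := by
      apply Real.le_sqrt_of_sq_le
      push_cast
      exact h2.le
    calc x = Real.arsinh (Real.sinh x) := (Real.arsinh_sinh x).symm
      _ ≤ _ := Real.arsinh_le_arsinh.mpr this
  have h5 : Real.arsinh (Real.sqrt ((n + 1 : ℕ) : ℝ)) ≤ Real.arsinh (Real.sqrt n) + 1 := by
    have h6 : Real.sqrt ((n + 1 : ℕ) : ℝ) ≤ Real.sinh (Real.arsinh (Real.sqrt n) + 1) := by
      rw [Real.sinh_add, Real.sinh_arsinh, Real.cosh_arsinh, Real.sq_sqrt (Nat.cast_nonneg n)]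
      have h7 : (1 : ℝ) ≤ Real.sinh 1 := Real.self_le_sinh_iff.mpr zero_le_one
      have h8 : 0 ≤ Real.sqrt (1 + (n : ℝ)) := Real.sqrt_nonneg _
      have h9 : Real.sqrt ((n + 1 : ℕ) : ℝ) = Real.sqrt (1 + (n : ℝ)) := by
        push_cast; rw [add_comm]
      rw [h9]
      have h10 : 0 ≤ Real.sqrt (n : ℝ) * Real.cosh 1 :=
        mul_nonneg (Real.sqrt_nonneg _) (Real.cosh_pos 1).le
      nlinarith
    calc Real.arsinh (Real.sqrt ((n + 1 : ℕ) : ℝ))
        ≤ Real.arsinh (Real.sinh (Real.arsinh (Real.sqrt n) + 1)) := Real.arsinh_le_arsinh.mpr h6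
      _ = _ := Real.arsinh_sinh _
  by_cases hle : x - Real.arsinh (Real.sqrt n) ≤ 1 / 2
  · refine ⟨_, ⟨n, hcosh n⟩, ?_⟩
    rw [abs_le]; constructor <;> linarith
  · push Not at hle
    refine ⟨_, ⟨n + 1, hcosh (n + 1)⟩, ?_⟩
    rw [abs_le]; constructor <;> linarith

lemma real_net (x : ℝ) :
    ∃ a : ℝ, (∃ n : ℕ, Real.cosh (2 * a) = 2 * n + 1) ∧ |x - a| ≤ 1 / 2 := by
  rcases le_total 0 x with hx | hx
  · exact real_net_nonneg x hx
  · obtain ⟨a, ⟨n, hn⟩, ha⟩ := real_net_nonneg (-x) (by linarith)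
    refine ⟨-a, ⟨n, ?_⟩, ?_⟩
    · rw [mul_neg, Real.cosh_neg]; exact hn
    · rw [show x - -a = -(-x - a) by ring, abs_neg]; exact ha

/-- Every open disc of radius one contains a point where `cosh ^ 2` is an integer. -/
lemma net (w : ℂ) : ∃ v ∈ ball w 1, ∃ k : ℤ, Complex.cosh v ^ 2 = k := by
  obtain ⟨a, ⟨n, hn⟩, ha⟩ := real_net w.re
  set m : ℤ := round (w.im / (Real.pi / 2)) with hm
  have hpi : 0 < Real.pi / 2 := by positivity
  have hm1 : |w.im - m * (Real.pi / 2)| ≤ Real.pi / 4 := by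
    have h1 := abs_sub_round (w.im / (Real.pi / 2))
    rw [← hm] at h1
    have h2 : w.im - m * (Real.pi / 2) = (w.im / (Real.pi / 2) - m) * (Real.pi / 2) := by
      field_simp
    rw [h2, abs_mul, abs_of_pos hpi]
    have := mul_le_mul_of_nonneg_right h1 hpi.le
    linarith
  set v : ℂ := (a : ℂ) + ((m * (Real.pi / 2) : ℝ) : ℂ) * Complex.I with hv
  have hre : v.re = a := by simp [hv]
  have him : v.im = m * (Real.pi / 2) := by simp [hv]
  refine ⟨v, ?_, ?_⟩
  · rw [mem_ball, dist_comm, dist_eq_norm]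
    have h1 : ‖w - v‖ ^ 2 = (w.re - a) ^ 2 + (w.im - m * (Real.pi / 2)) ^ 2 := by
      rw [← Complex.normSq_eq_norm_sq, Complex.normSq_apply, Complex.sub_re, Complex.sub_im,
        hre, him]
      ring
    have h2 : (w.re - a) ^ 2 ≤ (1 / 2) ^ 2 := by
      rw [← sq_abs]; exact pow_le_pow_left₀ (abs_nonneg _) ha 2
    have h3 : (w.im - m * (Real.pi / 2)) ^ 2 ≤ (Real.pi / 4) ^ 2 := by
      rw [← sq_abs]; exact pow_le_pow_left₀ (abs_nonneg _) hm1 2
    have h4 : Real.pi < 3.15 := Real.pi_lt_d2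
    have h5 : 0 < Real.pi := Real.pi_pos
    have h6 : ‖w - v‖ ^ 2 < 1 := by
      rw [h1]
      nlinarith
    nlinarith [norm_nonneg (w - v)]
  · have h2v : 2 * v = ((2 * a : ℝ) : ℂ) + ((m : ℂ) * (Real.pi : ℂ)) * Complex.I := by
      rw [hv]; push_cast; ring
    have hcos : Complex.cos ((m : ℂ) * (Real.pi : ℂ)) = (-1) ^ m := by
      have h1 := congrArg (fun x : ℝ => (x : ℂ)) (Real.cos_int_mul_pi m)
      push_cast at h1
      exact h1
    have hc2 : Complex.cosh (2 * v) = (2 * (n : ℂ) + 1) * (-1) ^ m := by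
      rw [h2v, Complex.cosh_add, Complex.cosh_mul_I, Complex.sinh_mul_I,
        Complex.sin_int_mul_pi, hcos, ← Complex.ofReal_cosh, hn]
      push_cast
      ring
    have hsq : Complex.cosh v ^ 2 = (Complex.cosh (2 * v) + 1) / 2 := by
      have h1 := Complex.cosh_two_mul v
      have h2 := Complex.cosh_sq v
      rw [h1]
      linear_combination (1 / 2 : ℂ) * h2
    rw [hsq, hc2]
    rcases Int.even_or_odd m with he | ho
    · refine ⟨n + 1, ?_⟩
      rw [he.neg_one_zpow]
      push_cast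
      ring
    · refine ⟨-n, ?_⟩
      rw [ho.neg_one_zpow]
      push_cast
      ring

/-- A weak form of Landau's theorem: a holomorphic function on a disc that omits `0` and `1` has
a derivative at the centre bounded in terms of the value there.

Route: (1) weak Bloch theorem: `F` holomorphic near the closed unit disc, then the image of the
open disc contains an open disc of radius `‖F' 0‖ / 72` (take the maximum of
`‖F' z‖ * (1 - ‖z‖)`, then `DiffContOnCl.ball_subset_image_closedBall`).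
(2) `g = exp (2 π i F)`, `F = cosh (G) ^ 2` (logarithms and square roots exist on a disc), and
`G` omits the net `± log (√n + √(n-1)) + i π m / 2`, which meets every disc of radius `1`.
(3) hence `‖G' 0‖ R ≤ 72`, and `g' = 2 π i g * 2 cosh G sinh G * G'`, where
`‖cosh G sinh G‖ ^ 2 = ‖F‖ ‖F - 1‖`. -/
theorem landau (g : ℂ → ℂ) (c : ℂ) (R : ℝ) (hR : 0 < R)
    (hg : DifferentiableOn ℂ g (Metric.ball c R))
    (h0 : ∀ z ∈ Metric.ball c R, g z ≠ 0) (h1 : ∀ z ∈ Metric.ball c R, g z ≠ 1) :
    ‖deriv g c‖ * R ≤ 1000 * ‖g c‖ * (1 + ‖Complex.log (g c)‖) := by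
  have hcc : c ∈ ball c R := mem_ball_self hR
  obtain ⟨h, hhc, hhd, hhe⟩ := exists_log_ball g c R hR hg h0 (Complex.log (g c))
    (Complex.exp_log (h0 c hcc))
  have hpi : (2 * (Real.pi : ℂ) * Complex.I) ≠ 0 := Complex.two_pi_I_ne_zero
  set F : ℂ → ℂ := fun z => h z / (2 * (Real.pi : ℂ) * Complex.I) with hF
  have hFd : DifferentiableOn ℂ F (ball c R) := hhd.div_const _
  have hFint : ∀ z ∈ ball c R, ∀ k : ℤ, F z ≠ k := by
    intro z hz k hk
    have : h z = k * (2 * (Real.pi : ℂ) * Complex.I) := by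
      rw [← hk, hF]; field_simp
    have h2 : g z = 1 := by
      rw [← hhe z hz, this]
      exact Complex.exp_eq_one_iff.mpr ⟨k, rfl⟩
    exact h1 z hz h2
  have hF0 : ∀ z ∈ ball c R, F z ≠ 0 := fun z hz => by simpa using hFint z hz 0
  have hF1 : ∀ z ∈ ball c R, F z - 1 ≠ 0 := fun z hz => by
    have := hFint z hz 1
    intro h2
    apply this
    push_cast
    linear_combination h2
  obtain ⟨hA, -, hAd, hAe⟩ := exists_log_ball F c R hR hFd hF0 (Complex.log (F c))
    (Complex.exp_log (hF0 c hcc))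
  obtain ⟨hB, -, hBd, hBe⟩ := exists_log_ball (fun z => F z - 1) c R hR (hFd.sub_const 1) hF1
    (Complex.log (F c - 1)) (Complex.exp_log (hF1 c hcc))
  set A : ℂ → ℂ := fun z => Complex.exp (hA z / 2) with hAdef
  set B : ℂ → ℂ := fun z => Complex.exp (hB z / 2) with hBdef
  have hA2 : ∀ z ∈ ball c R, A z ^ 2 = F z := by
    intro z hz
    rw [hAdef, ← hAe z hz, ← Complex.exp_nat_mul]
    congr 1
    push_cast
    ring
  have hB2 : ∀ z ∈ ball c R, B z ^ 2 = F z - 1 := by
    intro z hz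
    rw [hBdef, ← hBe z hz, ← Complex.exp_nat_mul]
    congr 1
    push_cast
    ring
  have hAB : ∀ z ∈ ball c R, (A z + B z) * (A z - B z) = 1 := by
    intro z hz
    have h2 := hA2 z hz
    have h3 := hB2 z hz
    linear_combination h2 - h3
  have hu0 : ∀ z ∈ ball c R, A z + B z ≠ 0 := by
    intro z hz h2
    have := hAB z hz
    rw [h2, zero_mul] at this
    exact zero_ne_one this
  have hud : DifferentiableOn ℂ (fun z => A z + B z) (ball c R) :=
    ((hAd.div_const 2).cexp).add ((hBd.div_const 2).cexp)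
  obtain ⟨G, -, hGd, hGe⟩ := exists_log_ball (fun z => A z + B z) c R hR hud hu0
    (Complex.log (A c + B c)) (Complex.exp_log (hu0 c hcc))
  have hcosh : ∀ z ∈ ball c R, Complex.cosh (G z) = A z := by
    intro z hz
    have h2 := hGe z hz
    have h3 := hAB z hz
    have h4 : Complex.exp (-G z) = A z - B z := by
      rw [Complex.exp_neg, h2]
      exact inv_eq_of_mul_eq_one_right h3
    rw [Complex.cosh, h2, h4]
    ring
  have hcosh2 : ∀ z ∈ ball c R, Complex.cosh (G z) ^ 2 = F z := by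
    intro z hz
    rw [hcosh z hz, hA2 z hz]
  have hbl := bloch G c R 1 one_pos hGd (by
    intro w
    obtain ⟨v, hv, k, hk⟩ := net w
    refine ⟨v, hv, ?_⟩
    rintro ⟨z, hz, hzv⟩
    have := hcosh2 z hz
    rw [hzv, hk] at this
    exact hFint z hz k this.symm) hR
  have hGc : HasDerivAt G (deriv G c) c :=
    (hGd.differentiableAt (isOpen_ball.mem_nhds hcc)).hasDerivAt
  have hder : HasDerivAt (fun z => Complex.exp (2 * (Real.pi : ℂ) * Complex.I
      * Complex.cosh (G z) ^ 2))
      (Complex.exp (2 * (Real.pi : ℂ) * Complex.I * Complex.cosh (G c) ^ 2)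
        * (2 * (Real.pi : ℂ) * Complex.I * (2 * Complex.cosh (G c)
          * (Complex.sinh (G c) * deriv G c)))) c := by
    have h2 := ((hGc.ccosh.pow 2).const_mul (2 * (Real.pi : ℂ) * Complex.I)).cexp
    have h3 : (2 : ℕ) * Complex.cosh (G c) ^ (2 - 1) * (Complex.sinh (G c) * deriv G c)
        = 2 * Complex.cosh (G c) * (Complex.sinh (G c) * deriv G c) := by
      norm_num
    rw [← h3]
    exact h2
  have heq : g =ᶠ[𝓝 c] fun z => Complex.exp (2 * (Real.pi : ℂ) * Complex.I
      * Complex.cosh (G z) ^ 2) := by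
    filter_upwards [isOpen_ball.mem_nhds hcc] with z hz
    rw [hcosh2 z hz, ← hhe z hz, hF]
    congr 1
    field_simp
  have hdg : deriv g c = g c * (2 * (Real.pi : ℂ) * Complex.I * (2 * Complex.cosh (G c)
          * (Complex.sinh (G c) * deriv G c))) := by
    have hgc : g c = Complex.exp (2 * (Real.pi : ℂ) * Complex.I * Complex.cosh (G c) ^ 2) :=
      heq.self_of_nhds
    rw [heq.deriv_eq, hder.deriv, hgc]
  set p := ‖Complex.cosh (G c)‖ with hp
  set q := ‖Complex.sinh (G c)‖ with hq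
  have hp2 : p ^ 2 = ‖F c‖ := by rw [hp, ← norm_pow, hcosh2 c hcc]
  have hq2 : q ^ 2 ≤ ‖F c‖ + 1 := by
    have h2 : Complex.sinh (G c) ^ 2 = F c - 1 := by
      have := Complex.cosh_sq (G c)
      rw [hcosh2 c hcc] at this
      linear_combination -this
    rw [hq, ← norm_pow, h2]
    have := norm_sub_le (F c) 1
    rwa [norm_one] at this
  have hFc : ‖F c‖ * (2 * Real.pi) = ‖Complex.log (g c)‖ := by
    have h2 : F c * (2 * (Real.pi : ℂ) * Complex.I) = Complex.log (g c) := by
      rw [hF, ← hhc]; field_simp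
    rw [← h2, norm_mul, norm_mul, norm_mul, Complex.norm_I, Complex.norm_real,
      Real.norm_of_nonneg Real.pi_pos.le]
    simp
  have hpq : p * q ≤ ‖F c‖ + 1 / 2 := by nlinarith [sq_nonneg (p - q)]
  have hnorm : ‖deriv g c‖ * R = ‖g c‖ * (4 * Real.pi) * (p * q) * (‖deriv G c‖ * R) := by
    rw [hdg, norm_mul, norm_mul, norm_mul, norm_mul, norm_mul, norm_mul, norm_mul,
      Complex.norm_I, Complex.norm_real, Real.norm_of_nonneg Real.pi_pos.le, ← hp, ← hq]
    simp only [Complex.norm_ofNat]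
    ring
  have hpi3 : Real.pi < 3.15 := Real.pi_lt_d2
  have hpi0 : 0 < Real.pi := Real.pi_pos
  have hg0 : 0 ≤ ‖g c‖ := norm_nonneg _
  have hp0 : 0 ≤ p := norm_nonneg _
  have hq0 : 0 ≤ q := norm_nonneg _
  have hL0 : 0 ≤ ‖Complex.log (g c)‖ := norm_nonneg _
  have hfin : (4 * Real.pi) * (p * q) * (‖deriv G c‖ * R)
      ≤ 1000 * (1 + ‖Complex.log (g c)‖) := by
    have h2 : (4 * Real.pi) * (p * q) * (‖deriv G c‖ * R)
        ≤ (4 * Real.pi) * (‖F c‖ + 1 / 2) * (48 * 1) := by
      apply mul_le_mul _ hbl (by positivity) (by positivity)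
      exact mul_le_mul_of_nonneg_left hpq (by positivity)
    have h3 : (4 * Real.pi) * (‖F c‖ + 1 / 2) * (48 * 1)
        = 96 * (‖F c‖ * (2 * Real.pi)) + 96 * Real.pi := by ring
    rw [h3, hFc] at h2
    nlinarith
  calc ‖deriv g c‖ * R = ‖g c‖ * ((4 * Real.pi) * (p * q) * (‖deriv G c‖ * R)) := by
        rw [hnorm]; ring
    _ ≤ ‖g c‖ * (1000 * (1 + ‖Complex.log (g c)‖)) := mul_le_mul_of_nonneg_left hfin hg0
    _ = 1000 * ‖g c‖ * (1 + ‖Complex.log (g c)‖) := by ring

end WCT
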