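import Pool.Agent.H11.WCT.Upper
import Pool.Agent.H11.WCT.Landau

namespace WCT

open Real

/-- graft `j` leaves onto the root -/
def BT.addLeaves : ℕ → BT → BT
  | 0, A => A
  | j + 1, A => .graft (BT.addLeaves j A) .leaf

theorem BT.size_addLeaves (j : ℕ) (A : BT) : (BT.addLeaves j A).size = A.size + j := by
  induction j with
  | zero => rfl
  | succ j ih => simp only [BT.addLeaves, BT.size, ih]; omega

theorem BT.W_addLeaves (j : ℕ) (A : BT) (x : ℂ) :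
    (BT.addLeaves j A).W 1 x = ((A.W 1 x).1 * (1 + x) ^ j, (A.W 1 x).2) := by
  induction j with
  | zero => simp [BT.addLeaves]
  | succ j ih =>
    simp only [BT.addLeaves, BT.W, ih]
    rw [pow_succ]
    simp only [mul_one, mul_assoc]

theorem BT.diff_W (A : BT) : Differentiable ℂ (fun x => (A.W 1 x).1) ∧
    Differentiable ℂ (fun x => (A.W 1 x).2) := by
  induction A with
  | leaf => exact ⟨by simp only [BT.W]; exact differentiable_const _, by
      simp only [BT.W]; exact differentiable_id⟩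
  | graft A B hA hB =>
    simp only [BT.W]
    exact ⟨hA.1.mul (hB.1.add hB.2), hA.2.mul hB.1⟩

/-- values and logarithmic derivative at `x = 1` -/
theorem BT.W_one (A : BT) : ∃ P' Q' : ℂ, HasDerivAt (fun x => (A.W 1 x).1) P' 1 ∧
    HasDerivAt (fun x => (A.W 1 x).2) Q' 1 ∧ (A.W 1 1).1 ≠ 0 ∧
    (A.W 1 1).2 = (A.W 1 1).1 * (Real.exp (-A.t) : ℝ) ∧
    Q' * (A.W 1 1).1 - (A.W 1 1).2 * P' = (A.W 1 1).2 * (A.W 1 1).1 * (A.D : ℝ) := by
  induction A with
  | leaf =>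
    refine ⟨0, 1, ?_, ?_, ?_, ?_, ?_⟩
    · simp only [BT.W]; exact hasDerivAt_const _ _
    · simp only [BT.W]; exact hasDerivAt_id _
    · simp [BT.W]
    · simp [BT.W, BT.t]
    · simp [BT.W, BT.D]
  | graft A B hA hB =>
    obtain ⟨PA, QA, hPA, hQA, hA0, hA1, hA2⟩ := hA
    obtain ⟨PB, QB, hPB, hQB, hB0, hB1, hB2⟩ := hB
    have hpos : (0:ℝ) < 1 + Real.exp (-B.t) := by have := exp_pos (-B.t); linarith
    have hsum : (B.W 1 1).1 + (B.W 1 1).2 = (B.W 1 1).1 * ((1 + Real.exp (-B.t) : ℝ) : ℂ) := by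
      rw [hB1]; push_cast; ring
    have hposC : ((1 + Real.exp (-B.t) : ℝ) : ℂ) ≠ 0 := by
      exact_mod_cast hpos.ne'
    refine ⟨_, _, hPA.mul (hPB.add hQB), hQA.mul hPB, ?_, ?_, ?_⟩
    · simp only [BT.W]
      rw [hsum]
      exact mul_ne_zero hA0 (mul_ne_zero hB0 hposC)
    · simp only [BT.W, BT.t]
      rw [hsum, hA1]
      have h1 : Real.exp (-(A.t + ell B.t)) = Real.exp (-A.t) * (1 + Real.exp (-B.t))⁻¹ := by
        rw [neg_add, Real.exp_add]
        congr 1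
        rw [Real.exp_neg, ell, Real.exp_log hpos]
      rw [h1]
      push_cast
      push_cast at hposC
      field_simp
    · simp only [BT.W, BT.D]
      have h2 : (pf B.t : ℂ) * ((B.W 1 1).1 + (B.W 1 1).2) = (B.W 1 1).2 := by
        rw [hsum, hB1, pf_eq]
        push_cast
        push_cast at hposC
        field_simp
      push_cast
      linear_combination ((B.W 1 1).1 * ((B.W 1 1).1 + (B.W 1 1).2)) * hA2
        - ((A.W 1 1).2 * (A.W 1 1).1) * hB2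
        + ((A.W 1 1).2 * (B.W 1 1).1 * (A.W 1 1).1 * (B.D : ℂ)) * h2

/-- the composite tree -/
theorem BT.exists_composite (A : BT) (m K j : ℕ) (hm : m = A.size + K + 1) (hj : j ≤ K) :
    ∃ B : BT, B.size = m ∧ ∀ x : ℂ, 1 + x ≠ 0 → (B.W 1 x).1 + (B.W 1 x).2 =
      (1 + x) ^ (K - j) * ((A.W 1 x).2 +
        ((1 + x) ^ j + (1 + x) ^ (2 * j) * (x / (1 + x) ^ K)) * (A.W 1 x).1) := by
  refine ⟨.graft (BT.addLeaves j A) (BT.addLeaves (K - j) .leaf), ?_, ?_⟩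
  · simp only [BT.size, BT.size_addLeaves]; omega
  · intro x hx
    simp only [BT.W, BT.W_addLeaves, one_mul]
    have hs : (1 + x) ^ K = (1 + x) ^ (K - j) * (1 + x) ^ j := by
      rw [← pow_add]; congr 1; omega
    have h2 : (1 + x) ^ (2 * j) = (1 + x) ^ j * (1 + x) ^ j := by
      rw [← pow_add]; congr 1; omega
    have h1 : (1 + x) ^ (K - j) ≠ 0 := pow_ne_zero _ hx
    have h3 : (1 + x) ^ j ≠ 0 := pow_ne_zero _ hx
    rw [hs, h2]
    field_simp
    ring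

theorem tau_bound {x : ℂ} (hx : ‖x - 1‖ < 1 / 4) {K : ℕ} (hK : 9 ≤ K) :
    ‖x / (1 + x) ^ K‖ ≤ 1 / 100 := by
  have h1 : ‖x‖ ≤ 5 / 4 := by
    have := norm_add_le (x - 1) 1
    simp only [sub_add_cancel, norm_one] at this
    linarith
  have h2 : 7 / 4 ≤ ‖1 + x‖ := by
    have h := norm_sub_norm_le (2 : ℂ) (1 - x)
    have h3 : (2 : ℂ) - (1 - x) = 1 + x := by ring
    rw [h3, norm_sub_rev] at h
    simp only [Complex.norm_ofNat] at h
    linarith
  have h3 : (7 / 4 : ℝ) ^ 9 ≤ ‖1 + x‖ ^ K := by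
    calc (7 / 4 : ℝ) ^ 9 ≤ (7 / 4 : ℝ) ^ K := pow_le_pow_right₀ (by norm_num) hK
      _ ≤ ‖1 + x‖ ^ K := pow_le_pow_left₀ (by norm_num) h2 _
  have h4 : (150 : ℝ) ≤ ‖1 + x‖ ^ K := le_trans (by norm_num) h3
  rw [norm_div, norm_pow, div_le_iff₀ (by linarith)]
  linarith

theorem one_add_ne {u : ℂ} (h : ‖u‖ < 1) : 1 + u ≠ 0 := by
  intro h1
  have : u = -1 := by linear_combination h1
  rw [this] at h
  simp at h

/-- the algebraic identity behind the derivative of the cross ratio -/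
theorem real_bounds {r T T' t : ℝ} (ht4 : t ≤ 4) (ht0 : 0 ≤ t) (hr : r = Real.exp (-t))
    (hT0 : 0 < T) (hT1 : T ≤ 1) (hT' : |T'| ≤ 1) :
    Real.exp (-4) / 21 ≤ (1 + 3 * T) * r / ((r + (1 + T)) * (r + (2 + 4 * T))) ∧
    |T' / (r + (1 + T)) - (1 + 4 * T + 4 * T') / (r + (2 + 4 * T))
      + (3 + 28 * T + 12 * T') / (2 + 12 * T) - (4 + 32 * T + 15 * T') / (3 + 15 * T)| ≤ 100 ∧
    1 / 63 ≤ (r + (1 + T)) * (2 + 12 * T) / ((r + (2 + 4 * T)) * (3 + 15 * T)) ∧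
    (r + (1 + T)) * (2 + 12 * T) / ((r + (2 + 4 * T)) * (3 + 15 * T)) ≤ 7 := by
  have hr0 : 0 < r := by rw [hr]; exact exp_pos _
  have hr1 : r ≤ 1 := by rw [hr]; exact Real.exp_le_one_iff.mpr (by linarith)
  have hr4 : Real.exp (-4) ≤ r := by rw [hr]; exact exp_le_exp.mpr (by linarith)
  have he4 : 0 < Real.exp (-4) := exp_pos _
  obtain ⟨h1, h2⟩ := abs_le.mp hT'
  refine ⟨?_, ?_, ?_, ?_⟩
  · rw [div_le_div_iff₀ (by norm_num) (by positivity)]
    have h3 : (r + (1 + T)) * (r + (2 + 4 * T)) ≤ 3 * 7 := by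
      apply mul_le_mul <;> nlinarith
    calc Real.exp (-4) * ((r + (1 + T)) * (r + (2 + 4 * T))) ≤ r * (3 * 7) := by
          apply mul_le_mul hr4 h3 (by positivity) hr0.le
      _ ≤ (1 + 3 * T) * r * 21 := by nlinarith [mul_pos hT0 hr0]
  · have a1 : |T' / (r + (1 + T))| ≤ 1 := by
      rw [abs_div, abs_of_pos (show 0 < r + (1 + T) by linarith), div_le_one (by linarith)]
      linarith
    have a2 : |(1 + 4 * T + 4 * T') / (r + (2 + 4 * T))| ≤ 9 := by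
      rw [abs_div, abs_of_pos (show 0 < r + (2 + 4 * T) by linarith), div_le_iff₀ (by linarith)]
      rw [abs_le]; constructor <;> nlinarith
    have a3 : |(3 + 28 * T + 12 * T') / (2 + 12 * T)| ≤ 43 := by
      rw [abs_div, abs_of_pos (show 0 < 2 + 12 * T by linarith), div_le_iff₀ (by linarith)]
      rw [abs_le]; constructor <;> nlinarith
    have a4 : |(4 + 32 * T + 15 * T') / (3 + 15 * T)| ≤ 47 := by
      rw [abs_div, abs_of_pos (show 0 < 3 + 15 * T by linarith), div_le_iff₀ (by linarith)]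
      rw [abs_le]; constructor <;> nlinarith
    rw [abs_le] at a1 a2 a3 a4 ⊢
    constructor <;> linarith [a1.1, a1.2, a2.1, a2.2, a3.1, a3.2, a4.1, a4.2]
  · rw [div_le_div_iff₀ (by norm_num) (by positivity)]
    have h3 : (r + (2 + 4 * T)) * (3 + 15 * T) ≤ 7 * 18 := by
      apply mul_le_mul <;> nlinarith
    have h4 : 1 * 2 ≤ (r + (1 + T)) * (2 + 12 * T) := by
      apply mul_le_mul <;> nlinarith
    linarith
  · rw [div_le_iff₀ (by positivity)]
    have h4 : (r + (1 + T)) * (2 + 12 * T) ≤ 3 * 14 := by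
      apply mul_le_mul <;> nlinarith
    have h3 : 2 * 3 ≤ (r + (2 + 4 * T)) * (3 + 15 * T) := by
      apply mul_le_mul <;> nlinarith
    linarith

theorem deriv_algebra (P P' r D f0 f1 N M f0' f1' N' M' : ℂ) (h0 : r + f0 ≠ 0)
    (h1 : r + f1 ≠ 0) (h2 : N ≠ 0) (h3 : M ≠ 0) :
    (((r * P * D + r * P') + (f0' * P + f0 * P')) * N + (P * r + f0 * P) * N') *
        ((P * r + f1 * P) * M) - ((P * r + f0 * P) * N) *
        (((r * P * D + r * P') + (f1' * P + f1 * P')) * M + (P * r + f1 * P) * M') =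
    ((r + f0) * N / ((r + f1) * M) * ((f1 - f0) * r / ((r + f0) * (r + f1)) * D +
      (f0' / (r + f0) - f1' / (r + f1) + N' / N - M' / M))) *
      ((P * r + f1 * P) * M) ^ 2 := by
  obtain ⟨u, hu⟩ : ∃ u, u = r + f0 := ⟨_, rfl⟩
  obtain ⟨v, hv⟩ : ∃ v, v = r + f1 := ⟨_, rfl⟩
  rw [← hu] at h0
  rw [← hv] at h1
  rw [← hu, ← hv]
  have e0 : f0 = u - r := by rw [hu]; ring
  have e1 : f1 = v - r := by rw [hv]; ring
  rw [e0, e1]
  field_simp
  ring

/-- Write `(o, i) = A.W 1 x` (polynomials in `x`), `f = i / o`; `f 1 = exp (- A.t)` and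
`f' 1 / f 1 = A.D`.  Suppose no `BT` of size `m` has a zero with `‖x - 1‖ < ε`.  Let
`K = m - A.size - 1`, `s = 1 + x`, `τ = x * s ^ (-K)`.  For `j = 0, 1, 2` graft `j` leaves and then
a star with `K - j` leaves (a `leaf` with `K - j` leaf children) onto `A`: this has size `m` and
its polynomial is `s ^ (K - j) * (o * φ j + i)` with `φ j = s ^ j + s ^ (2 j) τ`.  So
`o * φ j + i ≠ 0` on the disc for `j = 0, 1, 2`, and
`g = (i + φ 0 * o) (φ 2 - φ 1) / ((i + φ 1 * o) (φ 2 - φ 0))` is holomorphic on the disc, omits `0`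
and `1` (`φ 1 - φ 0 = x (1 + (s + 1) τ)`, `φ 2 - φ 1 = s x (1 + s (s + 1) τ)`,
`φ 2 - φ 0 = (s ^ 2 - 1) (1 + (s ^ 2 + 1) τ)` do not vanish for `‖x - 1‖ < 1/4`, `K ≥ 9`).
`landau` bounds `‖g' 1‖ ε` by a constant; and `g' 1 / g 1 =
f' 1 (φ 1 - φ 0) / ((f + φ 0) (f + φ 1)) + O(1)`, `f' 1 = exp (- A.t) * A.D`. -/
theorem cross : ∃ C : ℝ, 0 < C ∧ ∀ A : BT, A.t ≤ 4 → ∀ m : ℕ, A.size + 10 ≤ m →
    ∀ ε : ℝ, 0 < ε → ε ≤ 1 / 4 → C ≤ ε * |A.D| →
    ∃ B : BT, B.size = m ∧ ∃ x : ℂ, ‖x - 1‖ < ε ∧ (B.W 1 x).1 + (B.W 1 x).2 = 0 := by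
  refine ⟨21 * Real.exp 4 * 70000, by positivity, ?_⟩
  intro A hA4 m hm ε hε hε4 hC
  by_contra hcon
  push Not at hcon
  obtain ⟨K, hK⟩ : ∃ K, m = A.size + K + 1 := ⟨m - A.size - 1, by omega⟩
  have hK9 : 9 ≤ K := by omega
  obtain ⟨P', Q', hP, hQ, hP1, hQ1, hD⟩ := A.W_one
  obtain ⟨hPd, hQd⟩ := A.diff_W
  set P : ℂ → ℂ := fun x => (A.W 1 x).1 with hPdef
  set Q : ℂ → ℂ := fun x => (A.W 1 x).2 with hQdef
  set τ : ℂ → ℂ := fun x => x / (1 + x) ^ K with hτdef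
  -- basic facts on the disc
  have hlt : ∀ x : ℂ, ‖x - 1‖ < ε → ‖x - 1‖ < 1 / 4 := fun x hx => by linarith
  have hx0 : ∀ x : ℂ, ‖x - 1‖ < ε → x ≠ 0 := by
    intro x hx h
    rw [h] at hx
    simp at hx
    linarith
  have hs0 : ∀ x : ℂ, ‖x - 1‖ < ε → 1 + x ≠ 0 := by
    intro x hx h
    have h1 : x = -1 := by linear_combination h
    rw [h1] at hx
    norm_num at hx
    linarith
  have hs1 : ∀ x : ℂ, ‖x - 1‖ < ε → ‖1 + x‖ ≤ 9 / 4 := by
    intro x hx
    have h := norm_add_le (x - 1) 2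
    have h3 : x - 1 + 2 = 1 + x := by ring
    rw [h3] at h
    simp only [Complex.norm_ofNat] at h
    have := hlt x hx
    linarith
  have hτ : ∀ x : ℂ, ‖x - 1‖ < ε → ‖τ x‖ ≤ 1 / 100 := fun x hx => tau_bound (hlt x hx) hK9
  have nz : ∀ j, j ≤ 2 → ∀ x : ℂ, ‖x - 1‖ < ε →
      Q x + ((1 + x) ^ j + (1 + x) ^ (2 * j) * τ x) * P x ≠ 0 := by
    intro j hj x hx h
    obtain ⟨B, hB, hB2⟩ := A.exists_composite m K j hK (by omega)
    apply hcon B hB x hx
    rw [hB2 x (hs0 x hx)]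
    have : (A.W 1 x).2 + ((1 + x) ^ j + (1 + x) ^ (2 * j) * (x / (1 + x) ^ K)) * (A.W 1 x).1 = 0 :=
      h
    rw [this, mul_zero]
  have nz0 : ∀ x : ℂ, ‖x - 1‖ < ε → Q x + (1 + τ x) * P x ≠ 0 := by
    intro x hx
    have := nz 0 (by norm_num) x hx
    simpa using this
  have nz1 : ∀ x : ℂ, ‖x - 1‖ < ε → Q x + ((1 + x) + (1 + x) ^ 2 * τ x) * P x ≠ 0 := by
    intro x hx
    have := nz 1 (by norm_num) x hx
    simpa using this
  have nz2 : ∀ x : ℂ, ‖x - 1‖ < ε → Q x + ((1 + x) ^ 2 + (1 + x) ^ 4 * τ x) * P x ≠ 0 := by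
    intro x hx
    have := nz 2 (by norm_num) x hx
    simpa using this
  have hd10 : ∀ x : ℂ, ‖x - 1‖ < ε → ((1 + x) + (1 + x) ^ 2 * τ x) - (1 + τ x) ≠ 0 := by
    intro x hx
    have h1 : ((1 + x) + (1 + x) ^ 2 * τ x) - (1 + τ x) = x * (1 + (1 + x + 1) * τ x) := by ring
    rw [h1]
    refine mul_ne_zero (hx0 x hx) (one_add_ne ?_)
    rw [norm_mul]
    have h2 : ‖1 + x + 1‖ ≤ 13 / 4 := by
      have := norm_add_le (1 + x) 1
      rw [norm_one] at this
      have := hs1 x hx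
      linarith
    have := mul_le_mul h2 (hτ x hx) (norm_nonneg _) (by norm_num)
    linarith
  have hd21 : ∀ x : ℂ, ‖x - 1‖ < ε →
      ((1 + x) ^ 2 + (1 + x) ^ 4 * τ x) - ((1 + x) + (1 + x) ^ 2 * τ x) ≠ 0 := by
    intro x hx
    have h1 : ((1 + x) ^ 2 + (1 + x) ^ 4 * τ x) - ((1 + x) + (1 + x) ^ 2 * τ x) =
        (1 + x) * x * (1 + (1 + x) * (1 + x + 1) * τ x) := by ring
    rw [h1]
    refine mul_ne_zero (mul_ne_zero (hs0 x hx) (hx0 x hx)) (one_add_ne ?_)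
    rw [norm_mul, norm_mul]
    have h2 : ‖1 + x + 1‖ ≤ 13 / 4 := by
      have := norm_add_le (1 + x) 1
      rw [norm_one] at this
      have := hs1 x hx
      linarith
    have h3 : ‖1 + x‖ * ‖1 + x + 1‖ ≤ 9 / 4 * (13 / 4) :=
      mul_le_mul (hs1 x hx) h2 (norm_nonneg _) (by norm_num)
    have := mul_le_mul h3 (hτ x hx) (norm_nonneg _) (by norm_num)
    linarith
  have hd20 : ∀ x : ℂ, ‖x - 1‖ < ε → ((1 + x) ^ 2 + (1 + x) ^ 4 * τ x) - (1 + τ x) ≠ 0 := by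
    intro x hx
    have h1 : ((1 + x) ^ 2 + (1 + x) ^ 4 * τ x) - (1 + τ x) =
        x * (2 + x) * (1 + ((1 + x) ^ 2 + 1) * τ x) := by ring
    rw [h1]
    refine mul_ne_zero (mul_ne_zero (hx0 x hx) ?_) (one_add_ne ?_)
    · intro h
      have h2 : x = -2 := by linear_combination h
      rw [h2] at hx
      norm_num at hx
      linarith
    rw [norm_mul]
    have h2 : ‖(1 + x) ^ 2 + 1‖ ≤ (9 / 4) ^ 2 + 1 := by
      have := norm_add_le ((1 + x) ^ 2) 1
      rw [norm_one, norm_pow] at this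
      have := pow_le_pow_left₀ (norm_nonneg _) (hs1 x hx) 2
      linarith
    have := mul_le_mul h2 (hτ x hx) (norm_nonneg _) (by norm_num)
    linarith
  -- the cross ratio
  set g : ℂ → ℂ := fun x =>
    (Q x + (1 + τ x) * P x) * (((1 + x) ^ 2 + (1 + x) ^ 4 * τ x) - ((1 + x) + (1 + x) ^ 2 * τ x)) /
    ((Q x + ((1 + x) + (1 + x) ^ 2 * τ x) * P x) *
      (((1 + x) ^ 2 + (1 + x) ^ 4 * τ x) - (1 + τ x))) with hg
  have hball : ∀ z ∈ Metric.ball (1 : ℂ) ε, ‖z - 1‖ < ε := fun z hz => by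
    rwa [Metric.mem_ball, dist_eq_norm] at hz
  have hτd : ∀ x : ℂ, ‖x - 1‖ < ε → DifferentiableAt ℂ τ x := by
    intro x hx
    have : (1 + x) ^ K ≠ 0 := pow_ne_zero _ (hs0 x hx)
    exact differentiableAt_id.div ((differentiableAt_id.const_add 1).pow K) this
  have hgd : DifferentiableOn ℂ g (Metric.ball 1 ε) := by
    intro z hz
    have hz' := hball z hz
    have ht := hτd z hz'
    have hs : DifferentiableAt ℂ (fun x : ℂ => 1 + x) z := differentiableAt_id.const_add 1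
    have hp := hPd.differentiableAt (x := z)
    have hq := hQd.differentiableAt (x := z)
    apply DifferentiableAt.differentiableWithinAt
    apply DifferentiableAt.div
    · exact (hq.add ((ht.const_add 1).mul hp)).mul
        (((hs.pow 2).add ((hs.pow 4).mul ht)).sub (hs.add ((hs.pow 2).mul ht)))
    · exact (hq.add ((hs.add ((hs.pow 2).mul ht)).mul hp)).mul
        (((hs.pow 2).add ((hs.pow 4).mul ht)).sub (ht.const_add 1))
    · exact mul_ne_zero (nz1 z hz') (hd20 z hz')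
  have hg0 : ∀ z ∈ Metric.ball (1 : ℂ) ε, g z ≠ 0 := by
    intro z hz
    have hz' := hball z hz
    exact div_ne_zero (mul_ne_zero (nz0 z hz') (hd21 z hz'))
      (mul_ne_zero (nz1 z hz') (hd20 z hz'))
  have hg1 : ∀ z ∈ Metric.ball (1 : ℂ) ε, g z ≠ 1 := by
    intro z hz h
    have hz' := hball z hz
    rw [hg] at h
    simp only at h
    rw [div_eq_one_iff_eq (mul_ne_zero (nz1 z hz') (hd20 z hz'))] at h
    apply mul_ne_zero (hd10 z hz') (nz2 z hz')
    linear_combination -h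
  have hL := landau g 1 ε hε hgd hg0 hg1
  -- values at `1`
  set r : ℝ := Real.exp (-A.t) with hr
  set T : ℝ := 1 / 2 ^ K with hT
  set T' : ℝ := T * (1 - K / 2) with hT'
  have hT0 : 0 < T := by rw [hT]; positivity
  have hT1 : T ≤ 1 := by
    rw [hT, div_le_one (by positivity)]
    exact one_le_pow₀ (by norm_num)
  have hKT : K * T ≤ 1 := by
    rw [hT, mul_one_div, div_le_one (by positivity)]
    exact_mod_cast (Nat.lt_two_pow_self (n := K)).le
  have hT'1 : |T'| ≤ 1 := by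
    rw [abs_le, hT']
    have hK0 : (0:ℝ) ≤ K := Nat.cast_nonneg K
    constructor <;> nlinarith [mul_nonneg hK0 hT0.le]
  have hr0 : 0 < r := exp_pos _
  obtain ⟨b1, b2, b3, b4⟩ := real_bounds hA4 A.t_nonneg hr hT0 hT1 hT'1
  have hτ1 : τ 1 = (T : ℂ) := by
    rw [hτdef, hT]
    norm_num
  have hs' : HasDerivAt (fun x : ℂ => 1 + x) 1 1 := (hasDerivAt_id (1 : ℂ)).const_add 1
  have hτ1' : HasDerivAt τ (T' : ℂ) 1 := by
    have h0 : HasDerivAt (fun x : ℂ => (1 + x) ^ K) ((K : ℂ) * (1 + 1) ^ (K - 1) * 1) 1 :=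
      hs'.fun_pow K
    have h1 := (hasDerivAt_id' (1 : ℂ)).fun_div h0
      (by norm_num : ((1 : ℂ) + 1) ^ K ≠ 0)
    refine h1.congr_deriv ?_
    rw [hT', hT]
    obtain ⟨K', rfl⟩ : ∃ K', K = K' + 1 := ⟨K - 1, by omega⟩
    simp only [Nat.add_sub_cancel]
    push_cast
    have h2 : (2:ℂ) ^ K' ≠ 0 := pow_ne_zero _ (by norm_num)
    rw [show (1:ℂ) + 1 = 2 by norm_num, pow_succ]
    field_simp
  have hf0 : HasDerivAt (fun x => 1 + τ x) (T' : ℂ) 1 := hτ1'.const_add 1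
  have hf1 : HasDerivAt (fun x => (1 + x) + (1 + x) ^ 2 * τ x) (1 + 4 * T + 4 * T' : ℂ) 1 := by
    refine (hs'.add ((hs'.fun_pow 2).mul hτ1')).congr_deriv ?_
    simp only [hτ1]
    norm_num
    ring
  have hf2 : HasDerivAt (fun x => (1 + x) ^ 2 + (1 + x) ^ 4 * τ x) (4 + 32 * T + 16 * T' : ℂ) 1 := by
    refine ((hs'.fun_pow 2).add ((hs'.fun_pow 4).mul hτ1')).congr_deriv ?_
    simp only [hτ1]
    norm_num
    ring
  have hgder : HasDerivAt g _ 1 := (((hQ.add (hf0.mul hP)).mul (hf2.sub hf1)).div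
    ((hQ.add (hf1.mul hP)).mul (hf2.sub hf0))
    (mul_ne_zero (nz1 1 (by simpa using hε)) (hd20 1 (by simpa using hε))))
  have hP1' : P 1 ≠ 0 := hP1
  have hQ1' : Q 1 = P 1 * (r : ℂ) := hQ1
  have hD' : Q' = r * P 1 * (A.D : ℂ) + r * P' := by
    have h1 : Q' * P 1 - Q 1 * P' = Q 1 * P 1 * (A.D : ℂ) := hD
    rw [hQ1'] at h1
    apply mul_right_cancel₀ hP1'
    linear_combination h1
  have c0 : (r : ℂ) + (1 + T) ≠ 0 := by exact_mod_cast (by positivity : r + (1 + T) ≠ 0)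
  have c1 : (r : ℂ) + (2 + 4 * T) ≠ 0 := by exact_mod_cast (by positivity : r + (2 + 4 * T) ≠ 0)
  have c2 : (2 : ℂ) + 12 * T ≠ 0 := by exact_mod_cast (by positivity : 2 + 12 * T ≠ 0)
  have c3 : (3 : ℂ) + 15 * T ≠ 0 := by exact_mod_cast (by positivity : 3 + 15 * T ≠ 0)
  set a : ℝ := (1 + 3 * T) * r / ((r + (1 + T)) * (r + (2 + 4 * T))) with ha
  set b : ℝ := T' / (r + (1 + T)) - (1 + 4 * T + 4 * T') / (r + (2 + 4 * T))
      + (3 + 28 * T + 12 * T') / (2 + 12 * T) - (4 + 32 * T + 15 * T') / (3 + 15 * T) with hb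
  set g1 : ℝ := (r + (1 + T)) * (2 + 12 * T) / ((r + (2 + 4 * T)) * (3 + 15 * T)) with hg1'
  have hgval : g 1 = (g1 : ℂ) := by
    simp only [hg, hτ1, hQ1', hg1']
    push_cast
    rw [div_eq_div_iff]
    · ring
    · refine mul_ne_zero ?_ ?_
      · have : (P 1 * (r : ℂ) + (1 + 1 + (1 + 1) ^ 2 * T) * P 1) = P 1 * (r + (2 + 4 * T)) := by ring
        rw [this]
        exact mul_ne_zero hP1' c1
      · have : ((1 : ℂ) + 1) ^ 2 + (1 + 1) ^ 4 * T - (1 + T) = 3 + 15 * T := by ring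
        rw [this]
        exact c3
    · exact mul_ne_zero c1 c3
  have hderval : deriv g 1 = ((g1 * (a * A.D + b) : ℝ) : ℂ) := by
    rw [hgder.deriv]
    simp only [Pi.add_apply, Pi.mul_apply, Pi.sub_apply, hτ1, hQ1', hD']
    have hden : (P 1 * (r : ℂ) + (2 + 4 * T) * P 1) * (3 + 15 * T) ≠ 0 := by
      have : (P 1 * (r : ℂ) + (2 + 4 * T) * P 1) = P 1 * (r + (2 + 4 * T)) := by ring
      rw [this]
      exact mul_ne_zero (mul_ne_zero hP1' c1) c3
    have key := deriv_algebra (P 1) P' r A.D (1 + T) (2 + 4 * T) (2 + 12 * T) (3 + 15 * T)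
      T' (1 + 4 * T + 4 * T') (3 + 28 * T + 12 * T') (4 + 32 * T + 15 * T') c0 c1 c2 c3
    have e1 : (2 : ℂ) + 4 * T - (1 + T) = 1 + 3 * T := by ring
    rw [e1] at key
    have hval : ((g1 * (a * A.D + b) : ℝ) : ℂ) =
        ((r : ℂ) + (1 + T)) * (2 + 12 * T) / ((r + (2 + 4 * T)) * (3 + 15 * T)) *
        ((1 + 3 * T) * r / ((r + (1 + T)) * (r + (2 + 4 * T))) * A.D +
        (T' / (r + (1 + T)) - (1 + 4 * T + 4 * T') / (r + (2 + 4 * T))
        + (3 + 28 * T + 12 * T') / (2 + 12 * T) - (4 + 32 * T + 15 * T') / (3 + 15 * T))) := by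
      rw [hg1', ha, hb]
      push_cast
      ring
    rw [hval, div_eq_iff]
    · have e2 : ((P 1 * (r : ℂ) + (1 + 1 + (1 + 1) ^ 2 * T) * P 1) *
          ((1 + 1) ^ 2 + (1 + 1) ^ 4 * T - (1 + T))) =
          (P 1 * (r : ℂ) + (2 + 4 * T) * P 1) * (3 + 15 * T) := by ring
      rw [e2, ← key]
      ring
    · have e2 : ((P 1 * (r : ℂ) + (1 + 1 + (1 + 1) ^ 2 * T) * P 1) *
          ((1 + 1) ^ 2 + (1 + 1) ^ 4 * T - (1 + T))) =
          (P 1 * (r : ℂ) + (2 + 4 * T) * P 1) * (3 + 15 * T) := by ring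
      rw [e2]
      exact pow_ne_zero _ hden
  have hg1pos : 0 < g1 := lt_of_lt_of_le (by norm_num) b3
  have hlog : |Real.log g1| ≤ 62 := by
    rw [abs_le]
    constructor
    · have h1 := Real.one_sub_inv_le_log_of_pos hg1pos
      have h2 : g1⁻¹ ≤ 63 := by
        rw [inv_le_comm₀ hg1pos (by norm_num)]
        linarith
      linarith
    · have h1 := Real.log_le_sub_one_of_pos hg1pos
      linarith
  rw [hderval, hgval, Complex.norm_real, Complex.norm_real, ← Complex.ofReal_log hg1pos.le,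
    Complex.norm_real, Real.norm_eq_abs, Real.norm_eq_abs, Real.norm_eq_abs, abs_mul,
    abs_of_pos hg1pos] at hL
  have hL2 : |a * A.D + b| * ε ≤ 63000 := by
    have h1 : g1 * (|a * A.D + b| * ε) ≤ g1 * 63000 := by nlinarith
    exact le_of_mul_le_mul_left h1 hg1pos
  have ha0 : 0 < a := lt_of_lt_of_le (by have := exp_pos (-4); positivity) b1
  have hL3 : a * |A.D| ≤ |a * A.D + b| + |b| := by
    have h1 : |a * A.D| = a * |A.D| := by rw [abs_mul, abs_of_pos ha0]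
    have h2 := abs_sub_abs_le_abs_sub (a * A.D) (-b)
    rw [abs_neg, sub_neg_eq_add] at h2
    linarith
  have hL4 : a * (ε * |A.D|) ≤ 63000 + 25 := by
    have h1 := mul_le_mul_of_nonneg_right hL3 hε.le
    have h2 : |b| * ε ≤ 100 * (1 / 4) := mul_le_mul b2 hε4 hε.le (by norm_num)
    nlinarith
  have hL5 : Real.exp (-4) / 21 * (21 * Real.exp 4 * 70000) ≤ a * (ε * |A.D|) :=
    mul_le_mul b1 hC (by positivity) ha0.le
  have hL6 : Real.exp (-4) / 21 * (21 * Real.exp 4 * 70000) = 70000 := by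
    rw [Real.exp_neg]
    have := (exp_pos 4).ne'
    field_simp
  linarith

end WCT
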