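import Mathlib

/-!
Definitions for the maximum modulus of independence roots of well-covered trees.
-/

namespace WCT

open Polynomial

/-- The independence polynomial of a finite graph: the sum over `k` of the number of
independent sets with exactly `k` vertices, times `X ^ k`. -/
noncomputable def indepPoly {V : Type*} [Fintype V] (G : SimpleGraph V) : Polynomial ℂ :=
  ∑ k ∈ Finset.range (Fintype.card V + 1),
    C ((Nat.card {s : Finset V // s.card = k ∧ G.IsIndepSet (s : Set V)} : ℕ) : ℂ) * X ^ k

/-- A graph is well-covered if all its maximal independent sets have the same size. -/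
def WellCovered {V : Type*} (G : SimpleGraph V) : Prop :=
  ∀ s t : Finset V, Maximal (fun u : Finset V => G.IsIndepSet (u : Set V)) s →
    Maximal (fun u : Finset V => G.IsIndepSet (u : Set V)) t → s.card = t.card

/-- `M n` is the largest modulus of a complex zero of the independence polynomial of a
well-covered tree with `n` vertices. -/
noncomputable def M (n : ℕ) : ℝ :=
  sSup {r : ℝ | ∃ (T : SimpleGraph (Fin n)) (z : ℂ),
    T.IsTree ∧ WellCovered T ∧ (indepPoly T).eval z = 0 ∧ r = ‖z‖}

/-! ### Working tools -/

open Classical in
/-- The homogeneous independence polynomial: an independent set `s` has weight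
`i ^ |s| * o ^ (|V| - |s|)`. -/
noncomputable def hpoly {V : Type*} [Fintype V] (G : SimpleGraph V) (o i : ℂ) : ℂ :=
  ∑ s : Finset V, if G.IsIndepSet (s : Set V) then i ^ s.card * o ^ (Fintype.card V - s.card)
    else 0

open Classical in
/-- The same sum over the independent sets that avoid `v`. -/
noncomputable def hpolyOut {V : Type*} [Fintype V] (G : SimpleGraph V) (v : V) (o i : ℂ) : ℂ :=
  ∑ s : Finset V, if G.IsIndepSet (s : Set V) ∧ v ∉ s then
    i ^ s.card * o ^ (Fintype.card V - s.card) else 0

open Classical in
/-- The same sum over the independent sets that contain `v`. -/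
noncomputable def hpolyIn {V : Type*} [Fintype V] (G : SimpleGraph V) (v : V) (o i : ℂ) : ℂ :=
  ∑ s : Finset V, if G.IsIndepSet (s : Set V) ∧ v ∈ s then
    i ^ s.card * o ^ (Fintype.card V - s.card) else 0

/-- The graph obtained by attaching a new pendant vertex to every vertex: the vertex `Sum.inl v`
is the old vertex `v`, and `Sum.inr v` is its new pendant neighbour. -/
def corona {V : Type*} (G : SimpleGraph V) : SimpleGraph (V ⊕ V) where
  Adj
    | Sum.inl a, Sum.inl b => G.Adj a b
    | Sum.inl a, Sum.inr b => a = b
    | Sum.inr a, Sum.inl b => a = b
    | Sum.inr _, Sum.inr _ => False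
  symm := by
    constructor
    rintro (a | a) (b | b) h
    · exact h.symm
    · exact h.symm
    · exact h.symm
    · exact h
  loopless := by
    constructor
    rintro (a | a) h
    · exact G.irrefl h
    · exact h

/-- Rooted trees, built from a single vertex by attaching the root of the second tree as a new
child of the root of the first one. -/
inductive BT : Type
  | leaf : BT
  | graft : BT → BT → BT

namespace BT

/-- number of vertices -/
def size : BT → ℕ
  | leaf => 1
  | graft A B => size A + size B

/-- the two homogeneous independence polynomials (root out, root in) -/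
noncomputable def W : BT → ℂ → ℂ → ℂ × ℂ
  | leaf, o, i => (o, i)
  | graft A B, o, i => ((W A o i).1 * ((W B o i).1 + (W B o i).2), (W A o i).2 * (W B o i).1)

end BT

end WCT
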