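import Pool.Agent.H11.WCT.Defs

namespace WCT

open SimpleGraph

section Branch

variable {V : Type*} {T : SimpleGraph V}

/-- The branch of `T` at the edge `v u` on the side of `u`. -/
def branch (T : SimpleGraph V) (v u : V) : Set V :=
  {x | (T.deleteEdges {s(v, u)}).Reachable u x}

theorem self_mem_branch (v u : V) : u ∈ branch T v u := Reachable.refl _

theorem notMem_branch (hT : T.IsAcyclic) {v u : V} (h : T.Adj v u) : v ∉ branch T v u := by
  have hb := (isAcyclic_iff_forall_adj_isBridge.1 hT) h
  rw [isBridge_iff] at hb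
  intro hv
  have hv' : (T.deleteEdges {s(v, u)}).Reachable u v := hv
  exact hb hv'.symm

theorem branch_cut {v u x y : V} (hx : x ∈ branch T v u) (hy : y ∉ branch T v u)
    (h : T.Adj x y) (hv : v ∉ branch T v u) : x = u ∧ y = v := by
  by_contra hne
  have hx' : (T.deleteEdges {s(v, u)}).Reachable u x := hx
  have hadj : (T.deleteEdges {s(v, u)}).Adj x y := by
    rw [deleteEdges_adj]
    refine ⟨h, ?_⟩
    intro hm
    rw [Set.mem_singleton_iff, Sym2.eq_iff] at hm
    rcases hm with ⟨rfl, rfl⟩ | ⟨rfl, rfl⟩
    · exact hv hx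
    · exact hne ⟨rfl, rfl⟩
  exact hy (hx'.trans hadj.reachable)

theorem branch_disj (hT : T.IsAcyclic) {v u u' : V} (h : T.Adj v u) (h' : T.Adj v u')
    (hne : u ≠ u') {x : V} (hx : x ∈ branch T v u) : x ∉ branch T v u' := by
  have hv := notMem_branch hT h
  have hv' := notMem_branch hT h'
  have hu : u ∉ branch T v u' := by
    intro hu
    exact hne (branch_cut hu hv' h.symm hv').1
  have hx' : (T.deleteEdges {s(v, u)}).Reachable u x := hx
  rw [reachable_iff_reflTransGen] at hx'
  induction hx' with
  | refl => exact hu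
  | @tail b c hab hbc ih =>
    have hb : b ∈ branch T v u := by
      show (T.deleteEdges {s(v, u)}).Reachable u b
      rw [reachable_iff_reflTransGen]
      exact hab
    have hb' := ih hb
    intro hc
    have hadj : T.Adj c b := by
      rw [deleteEdges_adj] at hbc
      exact hbc.1.symm
    have := (branch_cut hc hb' hadj hv').2
    rw [this] at hb
    exact hv hb

end Branch

section Main

variable {V : Type*} {T : SimpleGraph V}

open Classical in
/-- replace the part of `K` in the branch `B` by `L` -/
theorem replace_maximal (B : Set V) (v u : V) (hvB : v ∉ B)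
    (hcut : ∀ x y, x ∈ B → y ∉ B → T.Adj x y → x = u ∧ y = v)
    (K L : Finset V)
    (hK : Maximal (fun s : Finset V => T.IsIndepSet (s : Set V) ∧ v ∉ s) K)
    (hL : Maximal (fun s : Finset V => T.IsIndepSet (s : Set V) ∧ (s : Set V) ⊆ B) L) :
    Maximal (fun s : Finset V => T.IsIndepSet (s : Set V) ∧ v ∉ s)
      (K.filter (fun x => x ∉ B) ∪ L) := by
  obtain ⟨⟨hKi, hvK⟩, hKm⟩ := hK
  obtain ⟨⟨hLi, hLB⟩, hLm⟩ := hL
  refine ⟨⟨?_, ?_⟩, ?_⟩
  · intro x hx y hy hxy hadj
    simp only [Finset.coe_union, Finset.coe_filter, Set.mem_union, Set.mem_ofPred_eq,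
      Finset.mem_coe] at hx hy
    rcases hx with ⟨hx, hxB⟩ | hx <;> rcases hy with ⟨hy, hyB⟩ | hy
    · exact hKi hx hy hxy hadj
    · have := (hcut y x (hLB hy) hxB hadj.symm).2
      exact hvK (this ▸ hx)
    · have := (hcut x y (hLB hx) hyB hadj).2
      exact hvK (this ▸ hy)
    · exact hLi hx hy hxy hadj
  · simp only [Finset.mem_union, Finset.mem_filter, not_or, not_and, not_not]
    exact ⟨fun h => absurd h hvK, fun h => hvB (hLB h)⟩
  · intro s hs hle x hx
    obtain ⟨hsi, hvs⟩ := hs
    by_cases hxB : x ∈ B
    · have h1 : insert x L ≤ L := by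
        apply hLm
        · constructor
          · intro a ha b hb hab
            rw [Finset.coe_insert] at ha hb
            have ha' : a ∈ s := by
              rcases ha with rfl | ha
              · exact hx
              · exact hle (Finset.mem_union_right _ ha)
            have hb' : b ∈ s := by
              rcases hb with rfl | hb
              · exact hx
              · exact hle (Finset.mem_union_right _ hb)
            exact hsi ha' hb' hab
          · rw [Finset.coe_insert]
            exact Set.insert_subset hxB hLB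
        · exact Finset.subset_insert _ _
      exact Finset.mem_union_right _ (h1 (Finset.mem_insert_self _ _))
    · have h1 : insert x K ≤ K := by
        apply hKm
        · constructor
          · intro a ha b hb hab hadj
            rw [Finset.coe_insert] at ha hb
            have key : ∀ c ∈ K, c ≠ x → ¬ T.Adj x c := by
              intro c hc hcx hadj'
              by_cases hcB : c ∈ B
              · have := (hcut c x hcB hxB hadj'.symm).2
                exact hvs (this ▸ hx)
              · have hc' : c ∈ s := hle (Finset.mem_union_left _ (Finset.mem_filter.2 ⟨hc, hcB⟩))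
                exact hsi hx hc' hcx.symm hadj'
            rcases ha with rfl | ha <;> rcases hb with rfl | hb
            · exact hab rfl
            · exact key b hb hab.symm hadj
            · exact key a ha hab hadj.symm
            · exact hKi ha hb hab hadj
          · rw [Finset.mem_insert, not_or]
            refine ⟨?_, hvK⟩
            rintro rfl
            exact hvs hx
        · exact Finset.subset_insert _ _
      exact Finset.mem_union_left _ (Finset.mem_filter.2 ⟨h1 (Finset.mem_insert_self _ _), hxB⟩)

theorem maximal_of_nbr {v u : V} {K : Finset V} (hvu : T.Adj v u) (hu : u ∈ K)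
    (hK : Maximal (fun s : Finset V => T.IsIndepSet (s : Set V) ∧ v ∉ s) K) :
    Maximal (fun s : Finset V => T.IsIndepSet (s : Set V)) K := by
  refine ⟨hK.1.1, ?_⟩
  intro s hs hle
  apply hK.2 _ hle
  refine ⟨hs, ?_⟩
  intro hv
  exact hs hv (hle hu) hvu.ne hvu

open Classical in
theorem maximal_of_no_nbr {v : V} {K : Finset V} (hno : ∀ u ∈ K, ¬ T.Adj v u)
    (hK : Maximal (fun s : Finset V => T.IsIndepSet (s : Set V) ∧ v ∉ s) K) :
    Maximal (fun s : Finset V => T.IsIndepSet (s : Set V)) (insert v K) := by
  refine ⟨?_, ?_⟩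
  · intro a ha b hb hab hadj
    rw [Finset.coe_insert] at ha hb
    rcases ha with rfl | ha <;> rcases hb with rfl | hb
    · exact hab rfl
    · exact hno b hb hadj
    · exact hno a ha hadj.symm
    · exact hK.1.1 ha hb hab hadj
  · intro s hs hle x hx
    by_cases hxv : x = v
    · exact hxv ▸ Finset.mem_insert_self _ _
    · have h1 : insert x K ≤ K := by
        apply hK.2
        · constructor
          · intro a ha b hb hab
            rw [Finset.coe_insert] at ha hb
            have ha' : a ∈ s := by
              rcases ha with rfl | ha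
              · exact hx
              · exact hle (Finset.mem_insert_of_mem ha)
            have hb' : b ∈ s := by
              rcases hb with rfl | hb
              · exact hx
              · exact hle (Finset.mem_insert_of_mem hb)
            exact hs ha' hb' hab
          · rw [Finset.mem_insert, not_or]
            exact ⟨fun h => hxv h.symm, hK.1.2⟩
        · exact Finset.subset_insert _ _
      exact Finset.mem_insert_of_mem (h1 (Finset.mem_insert_self _ _))

variable [Fintype V]

theorem not_two_leaves (hW : WellCovered T) {v a b : V} (ha : ∀ z, T.Adj a z ↔ z = v)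
    (hb : ∀ z, T.Adj b z ↔ z = v) : a = b := by
  classical
  by_contra hab
  obtain ⟨I, hI, hIm⟩ := Finite.exists_le_maximal
    (p := fun u : Finset V => T.IsIndepSet (u : Set V)) (a := {v}) (by simp [IsIndepSet])
  have hvI : v ∈ I := hI (Finset.mem_singleton_self v)
  have hva : T.Adj v a := ((ha v).2 rfl).symm
  have hvb : T.Adj v b := ((hb v).2 rfl).symm
  have haI : a ∉ I := fun h => hIm.1 hvI h hva.ne hva
  have hbI : b ∉ I := fun h => hIm.1 hvI h hvb.ne hvb
  have hJ : T.IsIndepSet ((insert a (insert b (I.erase v)) : Finset V) : Set V) := by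
    intro x hx y hy hxy hadj
    simp only [Finset.coe_insert, Set.mem_insert_iff, Finset.mem_coe, Finset.mem_erase] at hx hy
    have hyv : ∀ y, (y = a ∨ y = b ∨ y ≠ v ∧ y ∈ I) → y ≠ v := by
      rintro y (rfl | rfl | h)
      · exact hva.ne'
      · exact hvb.ne'
      · exact h.1
    rcases hx with rfl | rfl | hx
    · exact hyv y hy ((ha y).1 hadj)
    · exact hyv y hy ((hb y).1 hadj)
    · rcases hy with rfl | rfl | hy
      · exact hx.1 ((ha x).1 hadj.symm)
      · exact hx.1 ((hb x).1 hadj.symm)
      · exact hIm.1 hx.2 hy.2 hxy hadj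
  obtain ⟨J, hJ1, hJm⟩ := Finite.exists_le_maximal
    (p := fun u : Finset V => T.IsIndepSet (u : Set V)) hJ
  have h1 := Finset.card_le_card hJ1
  have h2 := hW _ _ hIm hJm
  rw [Finset.card_insert_of_notMem, Finset.card_insert_of_notMem, Finset.card_erase_of_mem hvI]
    at h1
  · have : 0 < I.card := Finset.card_pos.2 ⟨v, hvI⟩
    omega
  · simp [hbI]
  · simp [haI, hab]

theorem exists_leaf (hT : T.IsTree) (hW : WellCovered T) {v u₁ u₂ : V} (h₁ : T.Adj v u₁)
    (h₂ : T.Adj v u₂) (hne : u₁ ≠ u₂) : ∃ l, ∀ z, T.Adj l z ↔ z = v := by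
  classical
  by_contra hcon
  push Not at hcon
  have hw : ∀ u, ∃ w, T.Adj v u → T.Adj u w ∧ w ≠ v := by
    intro u
    by_cases hu : T.Adj v u
    · obtain ⟨z, hz⟩ := hcon u
      rcases hz with ⟨h, h'⟩ | ⟨h, h'⟩
      · exact ⟨z, fun _ => ⟨h, h'⟩⟩
      · exact absurd (h' ▸ hu.symm) h
    · exact ⟨u, fun h => absurd h hu⟩
  choose w hw using hw
  have hA := hT.isAcyclic
  have hwB : ∀ u, T.Adj v u → w u ∈ branch T v u := by
    intro u hu
    by_contra h
    exact (hw u hu).2 (branch_cut (self_mem_branch v u) h (hw u hu).1 (notMem_branch hA hu)).2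
  have hW0 : T.IsIndepSet (((Finset.univ.filter (fun u => T.Adj v u)).image w : Finset V) : Set V) := by
    intro x hx y hy hxy hadj
    simp only [Finset.coe_image, Finset.coe_filter, Finset.mem_univ, true_and, Set.mem_image,
      Set.mem_ofPred_eq] at hx hy
    obtain ⟨u, hu, rfl⟩ := hx
    obtain ⟨u', hu', rfl⟩ := hy
    have huu : u ≠ u' := fun h => hxy (by rw [h])
    exact (hw u' hu').2 (branch_cut (hwB u hu) (branch_disj hA hu' hu huu.symm (hwB u' hu')) hadj
      (notMem_branch hA hu)).2
  obtain ⟨K, hK0, hKm⟩ := Finite.exists_le_maximal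
    (p := fun s : Finset V => T.IsIndepSet (s : Set V) ∧ v ∉ s)
    (a := (Finset.univ.filter (fun u => T.Adj v u)).image w) ⟨hW0, by
      intro hv
      simp only [Finset.mem_image, Finset.mem_filter, Finset.mem_univ, true_and] at hv
      obtain ⟨u, hu, hu'⟩ := hv
      exact (hw u hu).2 hu'⟩
  have hKn : ∀ u ∈ K, ¬ T.Adj v u := by
    intro u hu hadj
    have hwK : w u ∈ K := hK0 (Finset.mem_image_of_mem _ (by simpa using hadj))
    exact hKm.1.1 hu hwK (hw u hadj).1.ne (hw u hadj).1
  have hLex : ∀ u, T.Adj v u → ∃ L : Finset V, u ∈ L ∧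
      Maximal (fun s : Finset V => T.IsIndepSet (s : Set V) ∧ (s : Set V) ⊆ branch T v u) L := by
    intro u hu
    obtain ⟨L, hL0, hL⟩ := Finite.exists_le_maximal
      (p := fun s : Finset V => T.IsIndepSet (s : Set V) ∧ (s : Set V) ⊆ branch T v u)
      (a := {u}) ⟨by simp [IsIndepSet], by simpa using self_mem_branch v u⟩
    exact ⟨L, hL0 (Finset.mem_singleton_self _), hL⟩
  obtain ⟨L₁, hu₁, hL₁⟩ := hLex u₁ h₁
  obtain ⟨L₂, hu₂, hL₂⟩ := hLex u₂ h₂
  have rep : ∀ (u : V) (hu : T.Adj v u) (K L : Finset V)
      (hK : Maximal (fun s : Finset V => T.IsIndepSet (s : Set V) ∧ v ∉ s) K)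
      (hL : Maximal (fun s : Finset V => T.IsIndepSet (s : Set V) ∧
        (s : Set V) ⊆ branch T v u) L),
      Maximal (fun s : Finset V => T.IsIndepSet (s : Set V) ∧ v ∉ s)
        (K.filter (fun x => x ∉ branch T v u) ∪ L) := by
    intro u hu K L hK hL
    exact replace_maximal (branch T v u) v u (notMem_branch hA hu)
      (fun x y hx hy h => branch_cut hx hy h (notMem_branch hA hu)) K L hK hL
  have card_rep : ∀ (u : V) (K L : Finset V), ((L : Set V) ⊆ branch T v u) →
      (K.filter (fun x => x ∉ branch T v u) ∪ L).card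
        = (K.filter (fun x => x ∉ branch T v u)).card + L.card := by
    intro u K L hL
    apply Finset.card_union_of_disjoint
    rw [Finset.disjoint_left]
    intro x hx hx'
    exact (Finset.mem_filter.1 hx).2 (hL hx')
  have m0 := maximal_of_no_nbr hKn hKm
  have r1 := rep u₁ h₁ K L₁ hKm hL₁
  have m1 := maximal_of_nbr h₁ (Finset.mem_union_right _ hu₁) r1
  have r2 := rep u₂ h₂ K L₂ hKm hL₂
  have m2 := maximal_of_nbr h₂ (Finset.mem_union_right _ hu₂) r2
  have r12 := rep u₂ h₂ _ L₂ r1 hL₂
  have m12 := maximal_of_nbr h₂ (Finset.mem_union_right _ hu₂) r12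
  have c0 := hW _ _ m0 m1
  have c1 := hW _ _ m1 m2
  have c2 := hW _ _ m2 m12
  rw [Finset.card_insert_of_notMem hKm.1.2] at c0
  rw [card_rep u₁ K L₁ hL₁.1.2] at c0
  rw [card_rep u₁ K L₁ hL₁.1.2, card_rep u₂ K L₂ hL₂.1.2] at c1
  rw [card_rep u₂ K L₂ hL₂.1.2, card_rep u₂ _ L₂ hL₂.1.2] at c2
  -- the part of the doubly modified set outside the second branch
  have e1 : ((K.filter (fun x => x ∉ branch T v u₁) ∪ L₁).filter
      (fun x => x ∉ branch T v u₂)).card
      = ((K.filter (fun x => x ∉ branch T v u₂)).filter (fun x => x ∉ branch T v u₁)).card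
        + L₁.card := by
    rw [Finset.filter_union, Finset.card_union_of_disjoint]
    · congr 1
      · rw [Finset.filter_comm]
      · rw [Finset.filter_true_of_mem]
        intro x hx
        exact branch_disj hA h₁ h₂ hne (hL₁.1.2 hx)
    · rw [Finset.disjoint_left]
      intro x hx hx'
      exact (Finset.mem_filter.1 (Finset.mem_filter.1 hx).1).2 (hL₁.1.2 (Finset.mem_filter.1 hx').1)
  rw [e1] at c2
  have e2 := Finset.card_filter_add_card_filter_not (s := K) (fun x => x ∈ branch T v u₁)
  have e3 := Finset.card_filter_add_card_filter_not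
    (s := K.filter (fun x => x ∉ branch T v u₂)) (fun x => x ∈ branch T v u₁)
  have e4 : (K.filter (fun x => x ∉ branch T v u₂)).filter (fun x => x ∈ branch T v u₁)
      = K.filter (fun x => x ∈ branch T v u₁) := by
    ext x
    simp only [Finset.mem_filter]
    constructor
    · rintro ⟨⟨h, -⟩, h'⟩
      exact ⟨h, h'⟩
    · rintro ⟨h, h'⟩
      exact ⟨⟨h, branch_disj hA h₁ h₂ hne h'⟩, h'⟩
  rw [e4] at e3
  omega

end Main

section Assemble

variable {V : Type*} {T : SimpleGraph V}

theorem assemble (hT : T.IsTree) (S : Set V) (l : S → V) (hinj : Function.Injective l)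
    (hout : ∀ s, l s ∉ S) (hadj : ∀ s z, T.Adj (l s) z ↔ z = (s : V))
    (hsurj : ∀ x, x ∉ S → ∃ s, l s = x) :
    (T.induce S).IsTree ∧ Nonempty (T ≃g corona (T.induce S)) := by
  classical
  constructor
  · refine ⟨?_, hT.isAcyclic.induce S⟩
    have hr : ∀ x, ∃ s : S, x = (s : V) ∨ l s = x := by
      intro x
      by_cases hx : x ∈ S
      · exact ⟨⟨x, hx⟩, Or.inl rfl⟩
      · obtain ⟨s, hs⟩ := hsurj x hx
        exact ⟨s, Or.inr hs⟩
    choose r hr using hr
    have hrS : ∀ s : S, r s = s := by
      intro s
      rcases hr s with h | h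
      · exact Subtype.ext h.symm
      · have h' : l (r s) ∈ S := by
          rw [h]
          exact s.2
        exact absurd h' (hout _)
    have hstep : ∀ x y, T.Adj x y → (T.induce S).Reachable (r x) (r y) := by
      intro x y hxy
      rcases hr x with hx | hx <;> rcases hr y with hy | hy
      · have : (T.induce S).Adj (r x) (r y) := by
          rw [comap_adj]
          show T.Adj (r x : V) (r y : V)
          rw [← hx, ← hy]
          exact hxy
        exact this.reachable
      · rw [← hy] at hxy
        have h := (hadj _ _).1 hxy.symm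
        have : r x = r y := Subtype.ext (by rw [← hx, h])
        rw [this]
      · rw [← hx] at hxy
        have h := (hadj _ _).1 hxy
        have : r y = r x := Subtype.ext (by rw [← hy, h])
        rw [this]
      · rw [← hx, ← hy] at hxy
        have h := (hadj _ _).1 hxy
        exact absurd (h ▸ (r x).2 : l (r y) ∈ S) (hout _)
    have hne : Nonempty S := by
      obtain ⟨x⟩ := hT.connected.nonempty
      exact ⟨r x⟩
    refine ⟨?_⟩
    intro a b
    have h := hT.connected.preconnected (a : V) (b : V)
    rw [reachable_iff_reflTransGen] at h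
    have key : ∀ y, Relation.ReflTransGen T.Adj (a : V) y →
        (T.induce S).Reachable (r a) (r y) := by
      intro y hy
      induction hy with
      | refl => exact Reachable.refl _
      | tail _ hbc ih => exact ih.trans (hstep _ _ hbc)
    have h2 := key b h
    rwa [hrS, hrS] at h2
  · let f : S ⊕ S → V := Sum.elim (fun s => (s : V)) l
    have hf : Function.Bijective f := by
      constructor
      · rintro (a | a) (b | b) hab
        · exact congrArg _ (Subtype.ext hab)
        · have h' : (a : V) = l b := hab
          exact absurd (h' ▸ a.2) (hout b)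
        · have h' : l a = (b : V) := hab
          exact absurd (h' ▸ b.2 : l a ∈ S) (hout a)
        · exact congrArg _ (hinj hab)
      · intro x
        by_cases hx : x ∈ S
        · exact ⟨Sum.inl ⟨x, hx⟩, rfl⟩
        · obtain ⟨s, hs⟩ := hsurj x hx
          exact ⟨Sum.inr s, hs⟩
    refine ⟨(RelIso.symm ⟨Equiv.ofBijective f hf, ?_⟩ : T ≃g corona (T.induce S))⟩
    rintro (a | a) (b | b)
    · exact Iff.rfl
    · show T.Adj (a : V) (l b) ↔ a = b
      rw [T.adj_comm, hadj, Subtype.ext_iff]
    · show T.Adj (l a) (b : V) ↔ a = b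
      rw [hadj, Subtype.ext_iff, eq_comm]
    · show T.Adj (l a) (l b) ↔ False
      rw [hadj, iff_false]
      intro h
      exact hout b (h ▸ a.2)

end Assemble

/-- Structure of well-covered trees (Finbow et al., Ravindra).  Proof: (a) no vertex has two leaf
neighbours (swap the vertex for its leaf neighbours in a maximal independent set containing it and
extend); (b) a vertex `v` with at least two neighbours has a leaf neighbour: otherwise pick for
each neighbour `u` of `v` a neighbour `w u ≠ v` of `u`; the `w u` lie in different components of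
`T - v`, so they form an independent set; let `K` be a maximal independent set of `T - v` that
contains them (it contains no neighbour of `v`), so `K ∪ {v}` is maximal independent in `T`;
replacing the part of `K` in the branch of one neighbour `u` by a maximal independent set of that
branch containing `u` gives a maximal independent set of `T` too, likewise for two neighbours at
once, and comparing the sizes gives a contradiction.  So every non-leaf has exactly one leaf
neighbour, and `T` is the corona of the tree induced on the non-leaves (for one edge, the corona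
of one vertex). -/
theorem exists_iso_corona {V : Type*} [Fintype V] (T : SimpleGraph V) (hT : T.IsTree)
    (hW : WellCovered T) (h2 : 2 ≤ Fintype.card V) :
    ∃ (S : Set V) (G : SimpleGraph S), G.IsTree ∧ Nonempty (T ≃g corona G) := by
  classical
  have hnt : Nontrivial V := Fintype.one_lt_card_iff_nontrivial.1 (by omega)
  have hnb : ∀ x, ∃ y, T.Adj x y := fun x => hT.connected.preconnected.exists_adj_of_nontrivial x
  by_cases hpair : ∃ x y, (∀ z, T.Adj x z ↔ z = y) ∧ (∀ z, T.Adj y z ↔ z = x)
  · obtain ⟨x, y, hx, hy⟩ := hpair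
    have hall : ∀ z, z = x ∨ z = y := by
      intro z
      have h := hT.connected.preconnected x z
      rw [reachable_iff_reflTransGen] at h
      induction h with
      | refl => exact Or.inl rfl
      | tail _ hbc ih =>
        rcases ih with rfl | rfl
        · exact Or.inr ((hx _).1 hbc)
        · exact Or.inl ((hy _).1 hbc)
    have hxy : T.Adj x y := (hx y).2 rfl
    refine ⟨{x}, _, assemble hT {x} (fun _ => y) ?_ ?_ ?_ ?_⟩
    · intro a b _
      exact Subtype.ext ((Set.mem_singleton_iff.1 a.2).trans (Set.mem_singleton_iff.1 b.2).symm)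
    · intro s
      exact hxy.ne'
    · intro s z
      rw [hy, Set.mem_singleton_iff.1 s.2]
    · intro z hz
      rcases hall z with h | h
      · exact absurd h hz
      · exact ⟨⟨x, rfl⟩, h.symm⟩
  · have hleaf : ∀ v, (¬ ∃ y, ∀ z, T.Adj v z ↔ z = y) → ∃ l, ∀ z, T.Adj l z ↔ z = v := by
      intro v hv
      obtain ⟨y, hy⟩ := hnb v
      have : ∃ y', T.Adj v y' ∧ y' ≠ y := by
        by_contra hcon
        push Not at hcon
        exact hv ⟨y, fun z => ⟨fun h => hcon z h, fun h => h ▸ hy⟩⟩
      obtain ⟨y', hy', hne⟩ := this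
      exact exists_leaf hT hW hy' hy hne
    have hch : ∀ s : {v | ¬ ∃ y, ∀ z, T.Adj v z ↔ z = y}, ∃ l, ∀ z, T.Adj l z ↔ z = (s : V) :=
      fun s => hleaf s s.2
    choose l hl using hch
    refine ⟨{v | ¬ ∃ y, ∀ z, T.Adj v z ↔ z = y}, _, assemble hT _ l ?_ ?_ hl ?_⟩
    · intro a b hab
      have h1 := (hl a a).2 rfl
      rw [hab, hl] at h1
      exact Subtype.ext h1
    · intro s hs
      exact hs ⟨s, hl s⟩
    · intro x hx
      have hx' : ∃ y, ∀ z, T.Adj x z ↔ z = y := not_not.1 hx
      obtain ⟨y, hy⟩ := hx'
      have hyS : y ∈ {v | ¬ ∃ y, ∀ z, T.Adj v z ↔ z = y} := by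
        rintro ⟨x', hx'⟩
        have h1 : x = x' := (hx' x).1 ((hy y).2 rfl).symm
        subst h1
        exact hpair ⟨x, y, hy, hx'⟩
      exact ⟨⟨y, hyS⟩, not_two_leaves hW (hl ⟨y, hyS⟩) hy⟩

end WCT
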