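import Pool.Agent.H11.WCT.Defs

namespace WCT

/-! ### Building a tree vertex by vertex -/

section Built

variable {V : Type*} [DecidableEq V]

/-- `Built G S`: the vertex set `S` can be built one vertex at a time, each new vertex having
exactly one neighbour among the previous ones. -/
inductive Built (G : SimpleGraph V) : Finset V → Prop
  | single (v : V) : Built G {v}
  | step (S : Finset V) (l u : V) : Built G S → l ∉ S → u ∈ S → G.Adj l u →
      (∀ w ∈ S, G.Adj l w → w = u) → Built G (insert l S)

theorem Built.nonempty {G : SimpleGraph V} {S : Finset V} (h : Built G S) : S.Nonempty := by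
  cases h with
  | single v => exact ⟨v, Finset.mem_singleton_self v⟩
  | step S l u => exact ⟨l, Finset.mem_insert_self _ _⟩

theorem Built.walk {G : SimpleGraph V} {S : Finset V} (h : Built G S) :
    ∀ u ∈ S, ∀ w ∈ S, ∃ p : G.Walk u w, ∀ x ∈ p.support, x ∈ S := by
  induction h with
  | single v =>
    intro u hu w hw
    rw [Finset.mem_singleton] at hu hw
    subst hu
    subst hw
    exact ⟨SimpleGraph.Walk.nil, by simp⟩
  | step S l u hS hl hu hadj huniq ih =>
    have key : ∀ w ∈ S, ∃ p : G.Walk l w, ∀ x ∈ p.support, x ∈ insert l S := by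
      intro w hw
      obtain ⟨p, hp⟩ := ih u hu w hw
      refine ⟨SimpleGraph.Walk.cons hadj p, ?_⟩
      intro x hx
      rw [SimpleGraph.Walk.support_cons, List.mem_cons] at hx
      rcases hx with rfl | hx
      · exact Finset.mem_insert_self _ _
      · exact Finset.mem_insert_of_mem (hp x hx)
    intro a ha b hb
    rw [Finset.mem_insert] at ha hb
    rcases ha with rfl | ha <;> rcases hb with rfl | hb
    · exact ⟨SimpleGraph.Walk.nil, by simp⟩
    · exact key b hb
    · obtain ⟨p, hp⟩ := key a ha
      exact ⟨p.reverse, fun x hx => hp x (by simpa using hx)⟩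
    · obtain ⟨p, hp⟩ := ih a ha b hb
      exact ⟨p, fun x hx => Finset.mem_insert_of_mem (hp x hx)⟩

theorem built_univ [Fintype V] (G : SimpleGraph V) (hG : G.IsTree) :
    Built G (Finset.univ : Finset V) := by
  classical
  obtain ⟨v0⟩ := hG.connected.nonempty
  obtain ⟨S, hS, hmax⟩ := Finset.exists_max_image
    (Finset.univ.filter (fun S : Finset V => Built G S)) Finset.card
    ⟨{v0}, by simpa using Built.single v0⟩
  rw [Finset.mem_filter] at hS
  have hS := hS.2
  by_contra hne
  obtain ⟨u, hu⟩ := hS.nonempty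
  obtain ⟨z, hz⟩ : ∃ z, z ∉ S := by
    by_contra hcon
    push Not at hcon
    apply hne
    rwa [← Finset.eq_univ_iff_forall.2 hcon]
  obtain ⟨p⟩ := hG.connected u z
  obtain ⟨d, hd, h1, h2⟩ := p.exists_boundary_dart (S : Set V) hu hz
  have hb : Built G (insert d.snd S) := by
    refine Built.step S d.snd d.fst hS h2 h1 d.adj.symm (fun w hw hadj => ?_)
    by_contra hne'
    obtain ⟨p, hp⟩ := hS.walk d.fst h1 w hw
    have hsw : d.snd ≠ w := hadj.ne
    have hfs : d.fst ≠ d.snd := d.adj.ne
    have hpath : (SimpleGraph.Walk.cons d.adj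
        (SimpleGraph.Walk.cons hadj (SimpleGraph.Walk.nil : G.Walk w w))).IsPath := by
      rw [SimpleGraph.Walk.cons_isPath_iff, SimpleGraph.Walk.cons_isPath_iff]
      refine ⟨⟨SimpleGraph.Walk.IsPath.nil, by simpa using hsw⟩, ?_⟩
      rw [SimpleGraph.Walk.support_cons, SimpleGraph.Walk.support_nil]
      simp only [List.mem_cons, List.not_mem_nil, or_false, not_or]
      exact ⟨hfs, fun h => hne' h.symm⟩
    have heq := hG.isAcyclic.path_unique p.toPath ⟨_, hpath⟩
    have hsupp : d.snd ∈ (p.toPath : G.Walk d.fst w).support := by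
      rw [heq]
      simp
    have := hp _ (SimpleGraph.Walk.support_toPath_subset p hsupp)
    exact h2 this
  have hle := hmax (insert d.snd S) (by simpa using hb)
  rw [Finset.card_insert_of_notMem h2] at hle
  omega

open Classical in
/-- weighted independence sum over the subsets of `S` -/
noncomputable def wsum (G : SimpleGraph V) (S : Finset V) (a b : V → ℂ) : ℂ :=
  ∑ t ∈ S.powerset, if G.IsIndepSet (t : Set V) then (∏ v ∈ t, b v) * ∏ v ∈ S \ t, a v else 0

theorem prod_update_mul (T : Finset V) (f : V → ℂ) (u : V) (c : ℂ) (hu : u ∈ T) :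
    ∏ v ∈ T, Function.update f u (f u * c) v = c * ∏ v ∈ T, f v := by
  rw [Finset.prod_update_of_mem hu, ← Finset.mul_prod_erase T f hu, Finset.sdiff_singleton_eq_erase]
  ring

theorem wsum_insert (G : SimpleGraph V) (S : Finset V) (a b : V → ℂ) {l u : V} (hl : l ∉ S)
    (hu : u ∈ S) (hadj : G.Adj l u) (huniq : ∀ w ∈ S, G.Adj l w → w = u) :
    wsum G (insert l S) a b
      = wsum G S (Function.update a u (a u * (a l + b l))) (Function.update b u (b u * a l)) := by
  classical
  unfold wsum
  rw [Finset.sum_powerset_insert hl, ← Finset.sum_add_distrib]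
  apply Finset.sum_congr rfl
  intro t ht
  rw [Finset.mem_powerset] at ht
  have hlt : l ∉ t := fun h => hl (ht h)
  have e1 : insert l S \ t = insert l (S \ t) := Finset.insert_sdiff_of_notMem _ hlt
  have e2 : insert l S \ insert l t = S \ t := by
    ext x
    simp only [Finset.mem_sdiff, Finset.mem_insert, not_or]
    constructor
    · rintro ⟨h1 | h1, h2, h3⟩
      · exact absurd h1 h2
      · exact ⟨h1, h3⟩
    · rintro ⟨h1, h2⟩
      exact ⟨Or.inr h1, fun h => hl (h ▸ h1), h2⟩
  have hlS : l ∉ S \ t := fun h => hl (Finset.mem_sdiff.1 h).1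
  rw [e1, e2, Finset.prod_insert hlS, Finset.prod_insert hlt]
  have hind : G.IsIndepSet ((insert l t : Finset V) : Set V) ↔
      G.IsIndepSet (t : Set V) ∧ u ∉ t := by
    rw [SimpleGraph.isIndepSet_iff, SimpleGraph.isIndepSet_iff, Finset.coe_insert]
    constructor
    · intro h
      refine ⟨h.mono (Set.subset_insert _ _), fun hut => ?_⟩
      exact h (Set.mem_insert _ _) (Set.mem_insert_of_mem _ hut) hadj.ne hadj
    · rintro ⟨h, hut⟩ x hx y hy hxy hadj'
      rcases hx with rfl | hx <;> rcases hy with rfl | hy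
      · exact hxy rfl
      · have := huniq y (ht hy) hadj'
        rw [this] at hy
        exact hut hy
      · have := huniq x (ht hx) hadj'.symm
        rw [this] at hx
        exact hut hx
      · exact h hx hy hxy hadj'
  by_cases h1 : G.IsIndepSet (t : Set V)
  · by_cases h2 : u ∈ t
    · have h3 : ¬ G.IsIndepSet ((insert l t : Finset V) : Set V) := by
        rw [hind]; tauto
      rw [if_pos h1, if_neg h3, if_pos h1, prod_update_mul t b u (a l) h2,
        Finset.prod_update_of_notMem (fun h => (Finset.mem_sdiff.1 h).2 h2)]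
      ring
    · have h3 : G.IsIndepSet ((insert l t : Finset V) : Set V) := by
        rw [hind]; tauto
      rw [if_pos h1, if_pos h3, if_pos h1,
        prod_update_mul (S \ t) a u (a l + b l) (Finset.mem_sdiff.2 ⟨hu, h2⟩),
        Finset.prod_update_of_notMem h2]
      ring
  · have h3 : ¬ G.IsIndepSet ((insert l t : Finset V) : Set V) := by
      rw [hind]; tauto
    rw [if_neg h1, if_neg h3, if_neg h1, add_zero]

theorem built_bt {G : SimpleGraph V} {S : Finset V} (h : Built G S) : ∀ w : V → BT,
    ∃ A : BT, A.size = ∑ v ∈ S, (w v).size ∧ ∀ o i : ℂ,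
      wsum G S (fun v => ((w v).W o i).1) (fun v => ((w v).W o i).2)
        = (A.W o i).1 + (A.W o i).2 := by
  induction h with
  | single v =>
    intro w
    refine ⟨w v, by simp, fun o i => ?_⟩
    unfold wsum
    have e : ({v} : Finset V).powerset = {∅, {v}} := by
      ext t
      simp [Finset.mem_powerset, Finset.subset_singleton_iff]
    have hne : (∅ : Finset V) ≠ {v} := (Finset.singleton_ne_empty v).symm
    rw [e, Finset.sum_pair hne]
    have h1 : G.IsIndepSet ((∅ : Finset V) : Set V) := by
      rw [SimpleGraph.isIndepSet_iff]; simp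
    have h2 : G.IsIndepSet (({v} : Finset V) : Set V) := by
      rw [SimpleGraph.isIndepSet_iff]; simp
    rw [if_pos h1, if_pos h2]
    simp
  | step S l u hS hl hu hadj huniq ih =>
    intro w
    obtain ⟨A, hA1, hA2⟩ := ih (Function.update w u (BT.graft (w u) (w l)))
    refine ⟨A, ?_, fun o i => ?_⟩
    · rw [hA1, Finset.sum_insert hl, ← Finset.add_sum_erase S _ hu,
        ← Finset.add_sum_erase S (fun v => (w v).size) hu]
      have e : ∑ v ∈ S.erase u, (Function.update w u (BT.graft (w u) (w l)) v).size
          = ∑ v ∈ S.erase u, (w v).size := by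
        apply Finset.sum_congr rfl
        intro v hv
        rw [Function.update_of_ne (Finset.ne_of_mem_erase hv)]
      rw [e, Function.update_self]
      simp only [BT.size]
      ring
    · rw [wsum_insert G S _ _ hl hu hadj huniq, ← hA2 o i]
      congr 1
      · funext v
        by_cases hv : v = u
        · subst hv
          simp [BT.W]
        · simp [Function.update_of_ne hv]
      · funext v
        by_cases hv : v = u
        · subst hv
          simp [BT.W]
        · simp [Function.update_of_ne hv]

end Built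

/-- Every finite tree is coded by a rooted tree `BT` (induct on the number of vertices, removing
a leaf `l` with neighbour `u`: keep at every vertex a `BT`, and graft the one at `l` into the one
at `u`). -/
theorem exists_bt_of_tree {V : Type*} [Fintype V] (G : SimpleGraph V) (hG : G.IsTree) :
    ∃ A : BT, A.size = Fintype.card V ∧
      ∀ o i : ℂ, hpoly G o i = (A.W o i).1 + (A.W o i).2 := by
  classical
  obtain ⟨A, hA1, hA2⟩ := built_bt (built_univ G hG) (fun _ => BT.leaf)
  refine ⟨A, ?_, fun o i => ?_⟩
  · rw [hA1]; simp [BT.size]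
  · rw [← hA2 o i]
    unfold hpoly wsum
    rw [Finset.powerset_univ]
    apply Finset.sum_congr rfl
    intro s _
    simp only [BT.W, Finset.prod_const]
    rw [← Finset.compl_eq_univ_sdiff, Finset.card_compl]

/-! ### Rooted trees from `BT` -/

theorem hpoly_eq_out_add_in {V : Type*} [Fintype V] (G : SimpleGraph V) (v : V) (o i : ℂ) :
    hpoly G o i = hpolyOut G v o i + hpolyIn G v o i := by
  classical
  unfold hpoly hpolyOut hpolyIn
  rw [← Finset.sum_add_distrib]
  apply Finset.sum_congr rfl
  intro s _
  by_cases h1 : G.IsIndepSet (s : Set V) <;> by_cases h2 : v ∈ s <;> simp [h1, h2]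

open SimpleGraph in
/-- join of two rooted graphs by an edge between the roots -/
def join {V W : Type*} (G : SimpleGraph V) (H : SimpleGraph W) (r : V) (q : W) :
    SimpleGraph (V ⊕ W) := (G ⊕g H) ⊔ SimpleGraph.edge (Sum.inl r) (Sum.inr q)

theorem join_isTree {V W : Type*} [Fintype V] [Fintype W] (G : SimpleGraph V) (H : SimpleGraph W)
    (r : V) (q : W) (hG : G.IsTree) (hH : H.IsTree) : (join G H r q).IsTree := by
  classical
  rw [SimpleGraph.isTree_iff_connected_and_card] at hG hH ⊢
  refine ⟨hG.1.sum_sup_edge hH.1, ?_⟩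
  have h1 : (join G H r q).edgeSet
      = insert s(Sum.inl r, Sum.inr q) (SimpleGraph.sum G H).edgeSet := by
    unfold join
    rw [SimpleGraph.edgeSet_sup, SimpleGraph.edgeSet_edge]
    ext e
    simp only [Set.mem_union, Set.mem_diff, Set.mem_singleton_iff, Set.mem_insert_iff]
    constructor
    · rintro (h | h)
      · exact Or.inr h
      · exact Or.inl h.1
    · rintro (h | h)
      · refine Or.inr ⟨h, ?_⟩
        subst h
        simp
      · exact Or.inl h
  have h2 : s(Sum.inl r, Sum.inr q) ∉ (SimpleGraph.sum G H).edgeSet := by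
    rw [SimpleGraph.mem_edgeSet]
    exact SimpleGraph.not_adj_sum_inl_inr r q
  have h3 : Nat.card (join G H r q).edgeSet = Nat.card (SimpleGraph.sum G H).edgeSet + 1 := by
    rw [h1, Nat.card_coe_set_eq, Set.ncard_insert_of_notMem h2 (Set.toFinite _),
      Nat.card_coe_set_eq]
  have h4 : Nat.card (SimpleGraph.sum G H).edgeSet = Nat.card G.edgeSet + Nat.card H.edgeSet := by
    rw [Nat.card_congr (SimpleGraph.edgeSetSumEquiv), Nat.card_sum]
  rw [h3, h4, Nat.card_sum]
  omega

theorem join_indep {V W : Type*} (G : SimpleGraph V) (H : SimpleGraph W)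
    (r : V) (q : W) (s : Finset V) (t : Finset W) :
    (join G H r q).IsIndepSet ((s.disjSum t : Finset (V ⊕ W)) : Set (V ⊕ W)) ↔
      G.IsIndepSet (s : Set V) ∧ H.IsIndepSet (t : Set W) ∧ ¬ (r ∈ s ∧ q ∈ t) := by
  simp only [SimpleGraph.isIndepSet_iff]
  constructor
  · intro h
    refine ⟨?_, ?_, ?_⟩
    · intro x hx y hy hxy hadj
      exact h (x := Sum.inl x) (by simpa using hx) (y := Sum.inl y) (by simpa using hy)
        (fun e => hxy (Sum.inl_injective e)) (Or.inl hadj)
    · intro x hx y hy hxy hadj
      exact h (x := Sum.inr x) (by simpa using hx) (y := Sum.inr y) (by simpa using hy)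
        (fun e => hxy (Sum.inr_injective e)) (Or.inl hadj)
    · rintro ⟨hr, hq⟩
      refine h (x := Sum.inl r) (by simpa using hr) (y := Sum.inr q) (by simpa using hq)
        (by simp) (Or.inr ?_)
      simp [SimpleGraph.edge_adj]
  · rintro ⟨h1, h2, h3⟩ x hx y hy hxy hadj
    unfold join at hadj
    rw [SimpleGraph.sup_adj, SimpleGraph.edge_adj] at hadj
    rcases x with x | x <;> rcases y with y | y
    · rcases hadj with hadj | hadj
      · exact h1 (by simpa using hx) (by simpa using hy) (fun e => hxy (by rw [e])) hadj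
      · simp at hadj
    · rcases hadj with hadj | hadj
      · exact SimpleGraph.not_adj_sum_inl_inr _ _ hadj
      · simp only [Sum.inl.injEq, Sum.inr.injEq, reduceCtorEq, and_false, or_false,
          ne_eq, not_false_eq_true, and_true] at hadj
        obtain ⟨rfl, rfl⟩ := hadj
        exact h3 ⟨by simpa using hx, by simpa using hy⟩
    · rcases hadj with hadj | hadj
      · exact SimpleGraph.not_adj_sum_inl_inr _ _ hadj.symm
      · simp only [Sum.inl.injEq, Sum.inr.injEq, reduceCtorEq, and_false, false_or,
          ne_eq, not_false_eq_true, and_true] at hadj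
        obtain ⟨rfl, rfl⟩ := hadj
        exact h3 ⟨by simpa using hy, by simpa using hx⟩
    · rcases hadj with hadj | hadj
      · exact h2 (by simpa using hx) (by simpa using hy) (fun e => hxy (by rw [e])) hadj
      · simp at hadj

theorem weight_disjSum {V W : Type*} [Fintype V] [Fintype W] (s : Finset V) (t : Finset W)
    (o i : ℂ) :
    i ^ (s.disjSum t).card * o ^ (Fintype.card (V ⊕ W) - (s.disjSum t).card)
      = (i ^ s.card * o ^ (Fintype.card V - s.card))
        * (i ^ t.card * o ^ (Fintype.card W - t.card)) := by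
  have h1 := s.card_le_univ
  have h2 := t.card_le_univ
  rw [Finset.card_disjSum, Fintype.card_sum]
  have h3 : Fintype.card V + Fintype.card W - (s.card + t.card)
      = (Fintype.card V - s.card) + (Fintype.card W - t.card) := by omega
  rw [h3, pow_add, pow_add]
  ring

theorem sum_finset_sum {V W : Type*} [Fintype V] [Fintype W]
    (f : Finset (V ⊕ W) → ℂ) :
    ∑ u : Finset (V ⊕ W), f u = ∑ s : Finset V, ∑ t : Finset W, f (s.disjSum t) := by
  have h := Fintype.sum_prod_type (fun p : Finset V × Finset W => f (p.1.disjSum p.2))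
  rw [← h]
  refine (Fintype.sum_equiv (Finset.sumEquiv (α := V) (β := W)).symm.toEquiv _ _ ?_).symm
  rintro ⟨s, t⟩
  rfl

theorem hpolyOut_join {V W : Type*} [Fintype V] [Fintype W] (G : SimpleGraph V)
    (H : SimpleGraph W) (r : V) (q : W) (o i : ℂ) :
    hpolyOut (join G H r q) (Sum.inl r) o i = hpolyOut G r o i * hpoly H o i := by
  classical
  unfold hpolyOut hpoly
  rw [sum_finset_sum, Finset.sum_mul_sum]
  apply Finset.sum_congr rfl
  intro s _
  apply Finset.sum_congr rfl
  intro t _
  rw [weight_disjSum]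
  by_cases h1 : G.IsIndepSet (s : Set V) <;> by_cases h2 : H.IsIndepSet (t : Set W) <;>
    by_cases h3 : r ∈ s <;> simp [join_indep, h1, h2, h3]

theorem hpolyIn_join {V W : Type*} [Fintype V] [Fintype W] (G : SimpleGraph V)
    (H : SimpleGraph W) (r : V) (q : W) (o i : ℂ) :
    hpolyIn (join G H r q) (Sum.inl r) o i = hpolyIn G r o i * hpolyOut H q o i := by
  classical
  unfold hpolyOut hpolyIn
  rw [sum_finset_sum, Finset.sum_mul_sum]
  apply Finset.sum_congr rfl
  intro s _
  apply Finset.sum_congr rfl
  intro t _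
  rw [weight_disjSum]
  by_cases h1 : G.IsIndepSet (s : Set V) <;> by_cases h2 : H.IsIndepSet (t : Set W) <;>
    by_cases h3 : r ∈ s <;> by_cases h4 : q ∈ t <;> simp [join_indep, h1, h2, h3, h4]

theorem exists_rooted (A : BT) : ∃ (V : Type) (_ : Fintype V) (G : SimpleGraph V) (r : V),
    G.IsTree ∧ Fintype.card V = A.size ∧
      ∀ o i : ℂ, hpolyOut G r o i = (A.W o i).1 ∧ hpolyIn G r o i = (A.W o i).2 := by
  classical
  induction A with
  | leaf =>
    refine ⟨Unit, inferInstance, ⊥, (), SimpleGraph.IsTree.of_subsingleton, by simp [BT.size],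
      fun o i => ?_⟩
    have e : (Finset.univ : Finset (Finset Unit)) = {∅, {()}} := by decide
    have hne : (∅ : Finset Unit) ≠ {()} := by decide
    unfold hpolyOut hpolyIn
    constructor
    · rw [e, Finset.sum_pair hne]
      simp [BT.W, SimpleGraph.isIndepSet_iff]
    · rw [e, Finset.sum_pair hne]
      simp [BT.W, SimpleGraph.isIndepSet_iff]
  | graft A B ihA ihB =>
    obtain ⟨V, _, G, r, hG, hcV, hV⟩ := ihA
    obtain ⟨W, _, H, q, hH, hcW, hW⟩ := ihB
    refine ⟨V ⊕ W, inferInstance, join G H r q, Sum.inl r, join_isTree G H r q hG hH, ?_,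
      fun o i => ⟨?_, ?_⟩⟩
    · rw [Fintype.card_sum, hcV, hcW]; rfl
    · rw [hpolyOut_join, hpoly_eq_out_add_in H q, (hV o i).1, (hW o i).1, (hW o i).2]
      rfl
    · rw [hpolyIn_join, (hV o i).2, (hW o i).1]
      rfl

theorem hpoly_iso {V W : Type*} [Fintype V] [Fintype W] {G : SimpleGraph V} {H : SimpleGraph W}
    (e : G ≃g H) (o i : ℂ) : hpoly G o i = hpoly H o i := by
  classical
  unfold hpoly
  refine Fintype.sum_equiv (Equiv.finsetCongr e.toEquiv) _ _ ?_
  intro s
  have h1 : ((Equiv.finsetCongr e.toEquiv) s).card = s.card := by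
    simp [Equiv.finsetCongr_apply]
  have h2 : Fintype.card V = Fintype.card W := Fintype.card_congr e.toEquiv
  have h3 : H.IsIndepSet (((Equiv.finsetCongr e.toEquiv) s : Finset W) : Set W)
      ↔ G.IsIndepSet (s : Set V) := by
    rw [SimpleGraph.isIndepSet_iff, SimpleGraph.isIndepSet_iff, Equiv.finsetCongr_apply,
      Finset.coe_map]
    constructor
    · intro h x hx y hy hxy hadj
      exact h (Set.mem_image_of_mem _ hx) (Set.mem_image_of_mem _ hy)
        (fun e' => hxy (e.toEquiv.injective e')) (e.map_adj_iff.2 hadj)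
    · rintro h _ ⟨x, hx, rfl⟩ _ ⟨y, hy, rfl⟩ hxy hadj
      exact h hx hy (fun e' => hxy (by rw [e'])) (e.map_adj_iff.1 hadj)
  rw [h1, h2]
  simp only [h3]

/-- Every `BT` comes from a tree. -/
theorem exists_tree_of_bt (A : BT) :
    ∃ (G : SimpleGraph (Fin A.size)), G.IsTree ∧
      ∀ o i : ℂ, hpoly G o i = (A.W o i).1 + (A.W o i).2 := by
  obtain ⟨V, _, G, r, hG, hc, hW⟩ := exists_rooted A
  let e : V ≃ Fin A.size := Fintype.equivFinOfCardEq hc
  let f : G ≃g G.map e.toEmbedding := SimpleGraph.Iso.map e G
  refine ⟨G.map e.toEmbedding, f.isTree_iff.1 hG, fun o i => ?_⟩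
  rw [← hpoly_iso f, hpoly_eq_out_add_in G r, (hW o i).1, (hW o i).2]

end WCT
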