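import Pool.Agent.H11.WCT.Upper
import Pool.Agent.H11.WCT.Corona
import Pool.Agent.H11.WCT.Struct
import Pool.Agent.H11.WCT.TreeBT

namespace WCT

open Real

/-- zeros of trees with `m` vertices are at distance at least `c m ^ (-γ)` from `1` -/
def UpperExp (γ : ℝ) : Prop :=
  ∃ c : ℝ, 0 < c ∧ ∀ (A : BT) (x : ℂ), (A.W 1 x).1 + (A.W 1 x).2 = 0 →
    c * (A.size : ℝ) ^ (-γ) ≤ ‖x - 1‖

/-- for all large `m`, some tree with `m` vertices has a zero at distance `O(m ^ (-γ))` from `1` -/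
def LowerExp (γ : ℝ) : Prop :=
  ∃ C : ℝ, 0 < C ∧ ∃ m0 : ℕ, ∀ m : ℕ, m0 ≤ m → ∃ (A : BT) (x : ℂ), A.size = m ∧
    (A.W 1 x).1 + (A.W 1 x).2 = 0 ∧ ‖x - 1‖ ≤ C * (m : ℝ) ^ (-γ)

/-! ### The independence polynomial and `hpoly` -/

theorem indepPoly_eval {V : Type*} [Fintype V] (G : SimpleGraph V) (z : ℂ) :
    (indepPoly G).eval z = hpoly G 1 z := by
  classical
  unfold indepPoly hpoly
  rw [Polynomial.eval_finset_sum]
  simp only [Polynomial.eval_mul, Polynomial.eval_C, Polynomial.eval_pow, Polynomial.eval_X,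
    one_pow, mul_one]
  rw [← Finset.sum_fiberwise_of_maps_to (s := (Finset.univ : Finset (Finset V)))
    (t := Finset.range (Fintype.card V + 1)) (g := fun s => s.card)
    (fun s _ => Finset.mem_range.2 (Nat.lt_succ_of_le (Finset.card_le_univ s)))]
  apply Finset.sum_congr rfl
  intro k _
  rw [← Finset.sum_filter, Finset.filter_filter]
  rw [Finset.sum_congr rfl (g := fun _ => z ^ k)
    (fun s hs => by rw [(Finset.mem_filter.1 hs).2.1])]
  rw [Finset.sum_const, nsmul_eq_mul]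
  congr 1
  rw [Nat.card_eq_fintype_card, Fintype.card_subtype]

theorem hpoly_smul {V : Type*} [Fintype V] (G : SimpleGraph V) (c o i : ℂ) :
    hpoly G (c * o) (c * i) = c ^ Fintype.card V * hpoly G o i := by
  classical
  unfold hpoly
  rw [Finset.mul_sum]
  apply Finset.sum_congr rfl
  intro s _
  by_cases h : G.IsIndepSet (s : Set V)
  · rw [if_pos h, if_pos h, mul_pow, mul_pow]
    have h1 : c ^ Fintype.card V = c ^ s.card * c ^ (Fintype.card V - s.card) := by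
      rw [← pow_add]
      congr 1
      have := Finset.card_le_univ s
      omega
    rw [h1]
    ring
  · rw [if_neg h, if_neg h, mul_zero]

theorem hpoly_zero {V : Type*} [Fintype V] (G : SimpleGraph V) : hpoly G 1 0 = 1 := by
  classical
  unfold hpoly
  rw [Finset.sum_eq_single (∅ : Finset V)]
  · simp
  · intro s _ hs
    have : s.card ≠ 0 := by simpa using hs
    simp [this]
  · intro h
    exact absurd (Finset.mem_univ _) h

theorem hpoly_one_one {V : Type*} [Fintype V] (G : SimpleGraph V) :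
    ∃ N : ℕ, 1 ≤ N ∧ (Nonempty V → 2 ≤ N) ∧ hpoly G 1 1 = (N : ℂ) := by
  classical
  refine ⟨(Finset.univ.filter (fun s : Finset V => G.IsIndepSet (s : Set V))).card, ?_, ?_, ?_⟩
  · apply Finset.card_pos.2
    exact ⟨∅, by simp⟩
  · rintro ⟨v⟩
    have h1 : ({∅, {v}} : Finset (Finset V)) ⊆
        Finset.univ.filter (fun s : Finset V => G.IsIndepSet (s : Set V)) := by
      intro s hs
      rw [Finset.mem_insert, Finset.mem_singleton] at hs
      rcases hs with rfl | rfl <;> simp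
    have h2 := Finset.card_le_card h1
    rwa [Finset.card_pair (Ne.symm (Finset.singleton_ne_empty v))] at h2
  · unfold hpoly
    rw [← Finset.sum_filter]
    simp

theorem indepPoly_iso {V W : Type*} [Fintype V] [Fintype W] {G : SimpleGraph V}
    {H : SimpleGraph W} (e : G ≃g H) (z : ℂ) : (indepPoly G).eval z = (indepPoly H).eval z := by
  rw [indepPoly_eval, indepPoly_eval, hpoly_iso e]

theorem isIndepSet_iso {V W : Type*} {G : SimpleGraph V} {H : SimpleGraph W} (e : G ≃g H)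
    (s : Finset V) : H.IsIndepSet ((s.map e.toEquiv.toEmbedding : Finset W) : Set W) ↔
      G.IsIndepSet (s : Set V) := by
  rw [SimpleGraph.isIndepSet_iff, SimpleGraph.isIndepSet_iff, Finset.coe_map]
  constructor
  · intro h x hx y hy hxy hadj
    exact h (Set.mem_image_of_mem _ hx) (Set.mem_image_of_mem _ hy)
      (fun e' => hxy (e.toEquiv.injective e')) (e.map_adj_iff.2 hadj)
  · rintro h _ ⟨x, hx, rfl⟩ _ ⟨y, hy, rfl⟩ hxy hadj
    exact h hx hy (fun e' => hxy (by rw [e'])) (e.map_adj_iff.1 hadj)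

theorem wellCovered_iso {V W : Type*} {G : SimpleGraph V} {H : SimpleGraph W} (e : G ≃g H)
    (h : WellCovered G) : WellCovered H := by
  classical
  have key : ∀ s : Finset W, Maximal (fun u : Finset W => H.IsIndepSet (u : Set W)) s →
      Maximal (fun u : Finset V => G.IsIndepSet (u : Set V))
        (s.map e.symm.toEquiv.toEmbedding) := by
    intro s hs
    refine ⟨(isIndepSet_iso e.symm s).2 hs.1, ?_⟩
    intro t ht hst
    have h1 : H.IsIndepSet ((t.map e.toEquiv.toEmbedding : Finset W) : Set W) :=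
      (isIndepSet_iso e t).2 ht
    have h2 : s ⊆ t.map e.toEquiv.toEmbedding := by
      intro x hx
      have h3 : e.symm x ∈ t := hst (Finset.mem_map.2 ⟨x, hx, rfl⟩)
      exact Finset.mem_map.2 ⟨e.symm x, h3, e.apply_symm_apply x⟩
    have h4 := hs.2 h1 h2
    intro y hy
    have h5 : e y ∈ s := h4 (Finset.mem_map.2 ⟨y, hy, rfl⟩)
    exact Finset.mem_map.2 ⟨e y, h5, e.symm_apply_apply y⟩
  intro s t hs ht
  have := h _ _ (key s hs) (key t ht)
  rwa [Finset.card_map, Finset.card_map] at this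

theorem bddAbove_roots (n : ℕ) : BddAbove {r : ℝ | ∃ (T : SimpleGraph (Fin n)) (z : ℂ),
    T.IsTree ∧ WellCovered T ∧ (indepPoly T).eval z = 0 ∧ r = ‖z‖} := by
  classical
  apply Set.Finite.bddAbove
  have h1 : (⋃ T : SimpleGraph (Fin n), (fun z : ℂ => ‖z‖) ''
      {z | (indepPoly T).eval z = 0}).Finite := by
    apply Set.finite_iUnion
    intro T
    apply Set.Finite.image
    apply Polynomial.finite_setOf_isRoot
    intro h0
    have h2 := indepPoly_eval T 0
    rw [h0, hpoly_zero] at h2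
    simp at h2
  refine h1.subset ?_
  rintro r ⟨T, z, _, _, hz, rfl⟩
  exact Set.mem_iUnion.2 ⟨T, z, hz, rfl⟩

/-- the corona of a tree, on `Fin (2 * m)` -/
theorem exists_corona_fin {m : ℕ} (G : SimpleGraph (Fin m)) (hG : G.IsTree) :
    ∃ T : SimpleGraph (Fin (2 * m)), T.IsTree ∧ WellCovered T ∧
      ∀ z : ℂ, (indepPoly T).eval z = hpoly G (1 + z) z := by
  let e : (Fin m ⊕ Fin m) ≃ Fin (2 * m) := Fintype.equivFinOfCardEq (by simp; omega)
  let f : corona G ≃g (corona G).map e.toEmbedding := SimpleGraph.Iso.map e (corona G)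
  refine ⟨(corona G).map e.toEmbedding, f.isTree_iff.1 (corona_isTree G hG),
    wellCovered_iso f (corona_wellCovered G), fun z => ?_⟩
  rw [← indepPoly_iso f, indepPoly_eval, hpoly_corona]

theorem hpoly_one_add {V : Type*} [Fintype V] (G : SimpleGraph V) {z : ℂ} (hz : 1 + z ≠ 0) :
    hpoly G (1 + z) z = (1 + z) ^ Fintype.card V * hpoly G 1 (z / (1 + z)) := by
  rw [← hpoly_smul, mul_one, mul_div_cancel₀ _ hz]

theorem M_upper {γ : ℝ} (hγ : 0 ≤ γ) (h : UpperExp γ) :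
    ∃ C : ℝ, 0 < C ∧ ∀ m : ℕ, 1 ≤ m → M (2 * m) ≤ C * ((2 * m : ℕ) : ℝ) ^ γ := by
  obtain ⟨c, hc, hU⟩ := h
  refine ⟨1 + 1 / c, by positivity, fun m hm => ?_⟩
  have hm0 : (1 : ℝ) ≤ m := by exact_mod_cast hm
  have h2m : (1 : ℝ) ≤ ((2 * m : ℕ) : ℝ) := by exact_mod_cast (by omega : 1 ≤ 2 * m)
  have hpow1 : (1 : ℝ) ≤ ((2 * m : ℕ) : ℝ) ^ γ := Real.one_le_rpow h2m hγ
  have hpow2 : (m : ℝ) ^ γ ≤ ((2 * m : ℕ) : ℝ) ^ γ := by
    apply Real.rpow_le_rpow (by positivity) _ hγ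
    push_cast
    linarith
  apply Real.sSup_le
  · rintro r ⟨T, z, hT, hW, hz, rfl⟩
    have hcz : 0 ≤ 1 / c := by positivity
    by_cases hz1 : 1 + z = 0
    · have : z = -1 := by linear_combination hz1
      rw [this, norm_neg, norm_one]
      nlinarith
    · obtain ⟨S, G, hG, ⟨e⟩⟩ := exists_iso_corona T hT hW (by simp; omega)
      classical
      obtain ⟨A, hA1, hA2⟩ := exists_bt_of_tree G hG
      have hcard : Fintype.card S = m := by
        have h1 := Fintype.card_congr e.toEquiv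
        rw [Fintype.card_fin, Fintype.card_sum] at h1
        omega
      have h1 : hpoly G (1 + z) z = 0 := by
        rw [← hpoly_corona, ← hpoly_iso e, ← indepPoly_eval, hz]
      rw [hpoly_one_add G hz1] at h1
      have h2 : hpoly G 1 (z / (1 + z)) = 0 := by
        rcases mul_eq_zero.1 h1 with h3 | h3
        · exact absurd h3 (pow_ne_zero _ hz1)
        · exact h3
      rw [hA2] at h2
      have h3 := hU A _ h2
      rw [hA1, hcard] at h3
      have h4 : z / (1 + z) - 1 = -(1 / (1 + z)) := by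
        field_simp
        ring
      rw [h4, norm_neg, norm_div, norm_one] at h3
      have h5 : 0 < ‖1 + z‖ := norm_pos_iff.2 hz1
      have h6 : ‖1 + z‖ ≤ 1 / c * (m : ℝ) ^ γ := by
        have h7 : c * (m : ℝ) ^ (-γ) * ‖1 + z‖ ≤ 1 := by
          rwa [le_div_iff₀ h5] at h3
        have h8 : (m : ℝ) ^ (-γ) * (m : ℝ) ^ γ = 1 := by
          rw [← Real.rpow_add (by linarith)]
          simp
        have h9 : 0 < (m : ℝ) ^ γ := Real.rpow_pos_of_pos (by linarith) _
        have h10 : c * ‖1 + z‖ ≤ (m : ℝ) ^ γ := by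
          calc c * ‖1 + z‖ = (c * (m : ℝ) ^ (-γ) * ‖1 + z‖) * (m : ℝ) ^ γ := by
                rw [show (c * (m : ℝ) ^ (-γ) * ‖1 + z‖) * (m : ℝ) ^ γ =
                  c * ‖1 + z‖ * ((m : ℝ) ^ (-γ) * (m : ℝ) ^ γ) by ring, h8, mul_one]
            _ ≤ 1 * (m : ℝ) ^ γ := mul_le_mul_of_nonneg_right h7 h9.le
            _ = (m : ℝ) ^ γ := one_mul _
        rw [div_mul_eq_mul_div, one_mul, le_div_iff₀ hc]
        linarith
      have h11 : ‖z‖ ≤ ‖1 + z‖ + 1 := by
        have : z = (1 + z) - 1 := by ring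
        calc ‖z‖ = ‖(1 + z) - 1‖ := by rw [← this]
          _ ≤ ‖1 + z‖ + ‖(1 : ℂ)‖ := norm_sub_le _ _
          _ = ‖1 + z‖ + 1 := by rw [norm_one]
      have h12 : 1 / c * (m : ℝ) ^ γ ≤ 1 / c * ((2 * m : ℕ) : ℝ) ^ γ :=
        mul_le_mul_of_nonneg_left hpow2 hcz
      nlinarith
  · positivity

theorem exists_bt_size (m : ℕ) (hm : 1 ≤ m) : ∃ A : BT, A.size = m := by
  induction m with
  | zero => omega
  | succ m ih =>
    rcases Nat.eq_zero_or_pos m with rfl | h
    · exact ⟨BT.leaf, rfl⟩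
    · obtain ⟨A, hA⟩ := ih h
      exact ⟨BT.graft A BT.leaf, by simp [BT.size, hA]⟩

theorem M_pos {m : ℕ} (hm : 1 ≤ m) : 0 < M (2 * m) := by
  obtain ⟨A, hA⟩ := exists_bt_size m hm
  subst hA
  obtain ⟨G, hG, _⟩ := exists_tree_of_bt A
  obtain ⟨T, hT, hW, hTe⟩ := exists_corona_fin G hG
  have hne : Nonempty (Fin (2 * A.size)) := ⟨⟨0, by omega⟩⟩
  obtain ⟨N, _, hN2, hN⟩ := hpoly_one_one T
  have h2 := hN2 hne
  have hdeg : (indepPoly T).degree ≠ 0 := by
    intro h0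
    have h1 := Polynomial.eq_C_of_degree_eq_zero h0
    have e0 := indepPoly_eval T 0
    have e1 := indepPoly_eval T 1
    rw [h1, Polynomial.eval_C, hpoly_zero] at e0
    rw [h1, Polynomial.eval_C, hN, e0] at e1
    have : (N : ℂ) = ((1 : ℕ) : ℂ) := by rw [← e1]; simp
    have := Nat.cast_injective this
    omega
  obtain ⟨z, hz⟩ := IsAlgClosed.exists_root (indepPoly T) hdeg
  have hz0 : z ≠ 0 := by
    rintro rfl
    have e0 := indepPoly_eval T 0
    rw [hpoly_zero] at e0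
    rw [Polynomial.IsRoot.def, e0] at hz
    exact one_ne_zero hz
  have h3 : ‖z‖ ≤ M (2 * A.size) := le_csSup (bddAbove_roots _) ⟨T, z, hT, hW, hz, rfl⟩
  exact lt_of_lt_of_le (norm_pos_iff.2 hz0) h3

theorem M_lower {γ : ℝ} (hγ : 0 < γ) (h : LowerExp γ) :
    ∃ c : ℝ, 0 < c ∧ ∀ m : ℕ, 1 ≤ m → c * ((2 * m : ℕ) : ℝ) ^ γ ≤ M (2 * m) := by
  obtain ⟨C, hC, m0, hL⟩ := h
  -- large `m`
  have hlarge : ∃ m1 : ℕ, ∀ m : ℕ, m1 ≤ m → 1 ≤ m →
      1 / (2 * C * 2 ^ γ) * ((2 * m : ℕ) : ℝ) ^ γ ≤ M (2 * m) := by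
    have ht : Filter.Tendsto (fun m : ℕ => ((m : ℝ)) ^ γ) Filter.atTop Filter.atTop :=
      (tendsto_rpow_atTop hγ).comp tendsto_natCast_atTop_atTop
    obtain ⟨m2, hm2⟩ := Filter.eventually_atTop.1 (ht.eventually_ge_atTop (2 * C))
    refine ⟨max m0 m2, fun m hm hm1 => ?_⟩
    obtain ⟨A, x, hA, hx, hx1⟩ := hL m (le_trans (le_max_left _ _) hm)
    have hm3 : 2 * C ≤ (m : ℝ) ^ γ := hm2 m (le_trans (le_max_right _ _) hm)
    subst hA
    obtain ⟨G, hG, hGW⟩ := exists_tree_of_bt A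
    obtain ⟨T, hT, hW, hTe⟩ := exists_corona_fin G hG
    have hxne : x ≠ 1 := by
      rintro rfl
      obtain ⟨N, hN1, _, hN⟩ := hpoly_one_one G
      rw [hGW, hx] at hN
      have : (N : ℂ) = ((0 : ℕ) : ℂ) := by rw [← hN]; simp
      have := Nat.cast_injective this
      omega
    have hx' : 1 - x ≠ 0 := sub_ne_zero.2 (Ne.symm hxne)
    set z : ℂ := x / (1 - x) with hz
    have h1z : 1 + z = 1 / (1 - x) := by
      rw [hz]; field_simp; ring
    have h1z0 : 1 + z ≠ 0 := by rw [h1z]; exact one_div_ne_zero hx'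
    have hzx : z / (1 + z) = x := by
      rw [h1z, hz]; field_simp
    have hroot : (indepPoly T).eval z = 0 := by
      rw [hTe, hpoly_one_add G h1z0, hzx, hGW, hx, mul_zero]
    have hle : ‖z‖ ≤ M (2 * A.size) := le_csSup (bddAbove_roots _) ⟨T, z, hT, hW, hroot, rfl⟩
    refine le_trans ?_ hle
    have hmpos : (0 : ℝ) < A.size := by exact_mod_cast hm1
    have hmγ : 0 < (A.size : ℝ) ^ γ := Real.rpow_pos_of_pos hmpos _
    have hn1 : 0 < ‖1 - x‖ := norm_pos_iff.2 hx'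
    have hn2 : ‖1 - x‖ ≤ C * (A.size : ℝ) ^ (-γ) := by
      rw [norm_sub_rev]; exact hx1
    have hn3 : (A.size : ℝ) ^ γ / C ≤ ‖1 + z‖ := by
      rw [h1z, norm_div, norm_one, div_le_div_iff₀ hC hn1, one_mul]
      have h8 : (A.size : ℝ) ^ γ * (A.size : ℝ) ^ (-γ) = 1 := by
        rw [← Real.rpow_add hmpos]
        simp
      calc (A.size : ℝ) ^ γ * ‖1 - x‖ ≤ (A.size : ℝ) ^ γ * (C * (A.size : ℝ) ^ (-γ)) :=
            mul_le_mul_of_nonneg_left hn2 hmγ.le
        _ = C * ((A.size : ℝ) ^ γ * (A.size : ℝ) ^ (-γ)) := by ring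
        _ = C := by rw [h8, mul_one]
    have hn4 : ‖1 + z‖ ≤ ‖z‖ + 1 := by
      calc ‖1 + z‖ ≤ ‖(1 : ℂ)‖ + ‖z‖ := norm_add_le _ _
        _ = ‖z‖ + 1 := by rw [norm_one]; ring
    have h2γ : (0 : ℝ) < 2 ^ γ := Real.rpow_pos_of_pos (by norm_num) _
    have h5 : 1 / (2 * C * 2 ^ γ) * ((2 * A.size : ℕ) : ℝ) ^ γ = (A.size : ℝ) ^ γ / (2 * C) := by
      push_cast
      rw [Real.mul_rpow (by norm_num) hmpos.le]
      field_simp
    rw [h5]
    have h6 : 1 ≤ (A.size : ℝ) ^ γ / (2 * C) := by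
      rw [le_div_iff₀ (by positivity)]; linarith
    have h7 : (A.size : ℝ) ^ γ / C = 2 * ((A.size : ℝ) ^ γ / (2 * C)) := by
      field_simp
    linarith
  obtain ⟨m1, hm1⟩ := hlarge
  -- small `m`
  have hsmall : ∀ k : ℕ, ∃ c : ℝ, 0 < c ∧ ∀ m : ℕ, m < k → 1 ≤ m →
      c * ((2 * m : ℕ) : ℝ) ^ γ ≤ M (2 * m) := by
    intro k
    induction k with
    | zero => exact ⟨1, one_pos, fun m hm => absurd hm (by omega)⟩
    | succ k ih =>
      obtain ⟨c, hc, hck⟩ := ih
      rcases Nat.eq_zero_or_pos k with rfl | hk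
      · exact ⟨1, one_pos, fun m hm hm' => absurd hm (by omega)⟩
      · have hp : (0 : ℝ) < ((2 * k : ℕ) : ℝ) ^ γ :=
          Real.rpow_pos_of_pos (by exact_mod_cast (by omega : 0 < 2 * k)) _
        have hMk := M_pos hk
        refine ⟨min c (M (2 * k) / ((2 * k : ℕ) : ℝ) ^ γ), lt_min hc (div_pos hMk hp),
          fun m hm hm' => ?_⟩
        rcases Nat.lt_succ_iff_lt_or_eq.1 hm with h1 | rfl
        · exact le_trans (mul_le_mul_of_nonneg_right (min_le_left _ _)
            (Real.rpow_nonneg (Nat.cast_nonneg _) _)) (hck m h1 hm')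
        · calc min c (M (2 * m) / ((2 * m : ℕ) : ℝ) ^ γ) * ((2 * m : ℕ) : ℝ) ^ γ
              ≤ (M (2 * m) / ((2 * m : ℕ) : ℝ) ^ γ) * ((2 * m : ℕ) : ℝ) ^ γ :=
                mul_le_mul_of_nonneg_right (min_le_right _ _) hp.le
            _ = M (2 * m) := div_mul_cancel₀ _ hp.ne'
  obtain ⟨c, hc, hcs⟩ := hsmall m1
  have h2γ : (0 : ℝ) < 2 ^ γ := Real.rpow_pos_of_pos (by norm_num) _
  refine ⟨min c (1 / (2 * C * 2 ^ γ)), lt_min hc (by positivity), fun m hm => ?_⟩
  rcases lt_or_ge m m1 with h1 | h1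
  · exact le_trans (mul_le_mul_of_nonneg_right (min_le_left _ _)
      (Real.rpow_nonneg (Nat.cast_nonneg _) _)) (hcs m h1 hm)
  · exact le_trans (mul_le_mul_of_nonneg_right (min_le_right _ _)
      (Real.rpow_nonneg (Nat.cast_nonneg _) _)) (hm1 m h1 hm)

end WCT
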