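import Pool.Agent.H11.WCT.Num

namespace WCT

open Real

/-- graft `n` copies of `B` onto `A` -/
def BT.addKids (A B : BT) : ℕ → BT
  | 0 => A
  | n + 1 => .graft (BT.addKids A B n) B

theorem BT.addKids_t (A B : BT) (n : ℕ) : (A.addKids B n).t = A.t + n * ell B.t := by
  induction n with
  | zero => simp [BT.addKids]
  | succ n ih =>
    simp only [BT.addKids, BT.t, ih]
    push_cast
    ring

theorem BT.addKids_D (A B : BT) (n : ℕ) : (A.addKids B n).D = A.D - n * (pf B.t * B.D) := by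
  induction n with
  | zero => simp [BT.addKids]
  | succ n ih =>
    simp only [BT.addKids, BT.D, ih]
    push_cast
    ring

theorem BT.addKids_size (A B : BT) (n : ℕ) : (A.addKids B n).size = A.size + n * B.size := by
  induction n with
  | zero => simp [BT.addKids]
  | succ n ih =>
    simp only [BT.addKids, BT.size, ih]
    ring

/-- the star with `j` leaves -/
def star (j : ℕ) : BT := BT.addKids .leaf .leaf j

theorem ell_zero : ell 0 = log 2 := by
  unfold ell
  norm_num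

theorem pf_zero : pf 0 = 1 / 2 := by
  unfold pf
  norm_num

theorem star_t (j : ℕ) : (star j).t = j * log 2 := by
  unfold star
  rw [BT.addKids_t]
  simp [BT.t, ell_zero]

theorem star_D (j : ℕ) : (star j).D = 1 - j / 2 := by
  unfold star
  rw [BT.addKids_D]
  simp only [BT.t, BT.D, pf_zero]
  ring

theorem star_size (j : ℕ) : (star j).size = j + 1 := by
  unfold star
  rw [BT.addKids_size]
  simp only [BT.size]
  ring

theorem exp_mul_log_two (j : ℕ) : exp (j * log 2) = 2 ^ j := by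
  rw [mul_comm, exp_mul, exp_log (by norm_num)]
  exact rpow_natCast 2 j

theorem exp_neg_mul_log_two (j : ℕ) : exp (-(j * log 2)) = ((2:ℝ) ^ j)⁻¹ := by
  rw [exp_neg, exp_mul_log_two]

theorem ell_star (j : ℕ) : ell (star j).t = log (1 + ((2:ℝ) ^ j)⁻¹) := by
  rw [star_t]
  unfold ell
  rw [exp_neg_mul_log_two]

theorem pf_star_le (j : ℕ) : pf (star j).t ≤ ((2:ℝ) ^ j)⁻¹ := by
  rw [← exp_neg_mul_log_two, star_t]
  exact pf_le_exp _

theorem ell_star_le (j : ℕ) : ell (star j).t ≤ ((2:ℝ) ^ j)⁻¹ := by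
  rw [← exp_neg_mul_log_two, star_t]
  exact ell_le_exp _

theorem ell_star_half (j : ℕ) : ell (star j).t ≤ 2 * ell (star (j + 1)).t := by
  rw [ell_star, ell_star]
  have h2 : (0:ℝ) < ((2:ℝ) ^ (j + 1))⁻¹ := by positivity
  have h3 : ((2:ℝ) ^ j)⁻¹ = 2 * ((2:ℝ) ^ (j + 1))⁻¹ := by
    rw [pow_succ]
    field_simp
  have h4 : 2 * log (1 + ((2:ℝ) ^ (j + 1))⁻¹) = log ((1 + ((2:ℝ) ^ (j + 1))⁻¹) ^ 2) := by
    rw [log_pow]
    norm_num
  rw [h4, h3]
  apply log_le_log (by positivity)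
  nlinarith

/-- gadgets: trees whose `t` approximates a given `τ` from below. -/
theorem gadget (τ : ℝ) (h0 : 0 ≤ τ) (h1 : τ ≤ 5) (n : ℕ) :
    ∃ G : BT, G.t ≤ τ ∧ τ - G.t < ell (star n).t ∧ G.size ≤ 8 + (n + 1) ^ 2 ∧
      |G.D| ≤ 4 + (2 - (n + 2) / 2 ^ n) := by
  induction n with
  | zero =>
    refine ⟨star ⌊τ / log 2⌋₊, ?_, ?_, ?_, ?_⟩
    · rw [star_t]
      have h2 : 0 < log 2 := log_pos (by norm_num)
      have h3 := Nat.floor_le (show 0 ≤ τ / log 2 by positivity)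
      rwa [le_div_iff₀ h2] at h3
    · rw [star_t, star_t]
      have h2 : 0 < log 2 := log_pos (by norm_num)
      have h3 := Nat.lt_floor_add_one (τ / log 2)
      rw [div_lt_iff₀ h2] at h3
      simp only [Nat.cast_zero, zero_mul, ell_zero]
      linarith
    · have hl : (0.69 : ℝ) < log 2 := by
        have := log_two_gt_d9
        linarith
      have h3 : ⌊τ / log 2⌋₊ ≤ 7 := by
        have h4 : ⌊τ / log 2⌋₊ < 8 := by
          rw [Nat.floor_lt (by positivity), div_lt_iff₀ (by linarith)]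
          push_cast
          linarith
        omega
      rw [star_size]
      omega
    · have hl : (0.69 : ℝ) < log 2 := by
        have := log_two_gt_d9
        linarith
      have h3 : ⌊τ / log 2⌋₊ ≤ 7 := by
        have h4 : ⌊τ / log 2⌋₊ < 8 := by
          rw [Nat.floor_lt (by positivity), div_lt_iff₀ (by linarith)]
          push_cast
          linarith
        omega
      rw [star_D]
      have h5 : ((⌊τ / log 2⌋₊ : ℕ) : ℝ) ≤ 7 := by exact_mod_cast h3
      have h6 : (0:ℝ) ≤ ((⌊τ / log 2⌋₊ : ℕ) : ℝ) := Nat.cast_nonneg _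
      rw [abs_le]
      constructor
      · push_cast
        norm_num
        linarith
      · push_cast
        norm_num
        linarith
  | succ n ih =>
    obtain ⟨G, hG1, hG2, hG3, hG4⟩ := ih
    have hstep := ell_star_half n
    have hb : (4 + (2 - ((n:ℝ) + 2) / 2 ^ n)) + (((n:ℝ) + 1) / 2 ^ (n + 1)) =
        4 + (2 - (((n + 1 : ℕ) : ℝ) + 2) / 2 ^ (n + 1)) := by
      rw [pow_succ]
      push_cast
      field_simp
      ring
    by_cases hlt : τ - G.t < ell (star (n + 1)).t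
    · refine ⟨G, hG1, hlt, ?_, ?_⟩
      · refine hG3.trans ?_
        gcongr
        omega
      · rw [← hb]
        have : (0:ℝ) ≤ ((n:ℝ) + 1) / 2 ^ (n + 1) := by positivity
        linarith
    · push Not at hlt
      refine ⟨.graft G (star (n + 1)), ?_, ?_, ?_, ?_⟩
      · simp only [BT.t]
        linarith
      · simp only [BT.t]
        linarith
      · simp only [BT.size, star_size]
        nlinarith
      · simp only [BT.D, star_D]
        rw [← hb]
        have h5 := pf_star_le (n + 1)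
        have h6 := pf_pos (star (n + 1)).t
        have h7 : |(1:ℝ) - ((n + 1 : ℕ) : ℝ) / 2| ≤ (n:ℝ) + 1 := by
          push_cast
          have : (0:ℝ) ≤ n := Nat.cast_nonneg _
          rw [abs_le]
          constructor <;> linarith
        have h8 : |pf (star (n + 1)).t * (1 - ((n + 1 : ℕ) : ℝ) / 2)| ≤
            ((n:ℝ) + 1) / 2 ^ (n + 1) := by
          have h9 : ((n:ℝ) + 1) / 2 ^ (n + 1) = ((2:ℝ) ^ (n + 1))⁻¹ * ((n:ℝ) + 1) :=
            div_eq_inv_mul _ _
          rw [abs_mul, abs_of_pos h6, h9]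
          exact mul_le_mul h5 h7 (abs_nonneg _) (by positivity)
        calc |G.D - pf (star (n + 1)).t * (1 - ((n + 1 : ℕ) : ℝ) / 2)|
            ≤ |G.D| + |pf (star (n + 1)).t * (1 - ((n + 1 : ℕ) : ℝ) / 2)| := abs_sub _ _
          _ ≤ _ := add_le_add hG4 h8

theorem gadget' (τ : ℝ) (h0 : 0 ≤ τ) (h1 : τ ≤ 5) (n : ℕ) :
    ∃ G : BT, G.t ≤ τ ∧ τ - G.t ≤ ((2:ℝ) ^ n)⁻¹ ∧ G.size ≤ 8 + (n + 1) ^ 2 ∧ |G.D| ≤ 6 := by
  obtain ⟨G, hG1, hG2, hG3, hG4⟩ := gadget τ h0 h1 n
  refine ⟨G, hG1, (hG2.trans_le (ell_star_le n)).le, hG3, hG4.trans ?_⟩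
  have : (0:ℝ) ≤ ((n:ℝ) + 2) / 2 ^ n := by positivity
  linarith

theorem ell_anti {s t : ℝ} (h : s ≤ t) : ell t ≤ ell s := by
  unfold ell
  apply log_le_log (by positivity)
  have := exp_le_exp.mpr (neg_le_neg h)
  linarith

theorem pf_add {t e : ℝ} (he : 0 ≤ e) : exp (-e) * pf t ≤ pf (t + e) := by
  unfold pf
  rw [mul_one_div, div_le_div_iff₀ (by positivity) (by positivity)]
  have h1 : exp (-e) * exp (t + e) = exp t := by
    rw [← exp_add]
    ring_nf
  have h2 : exp (-e) ≤ 1 := by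
    rw [exp_le_one_iff]
    linarith
  nlinarith

theorem lam_lo : 3.08 < 75 * pf t0 := by
  rw [pf_t0]
  have h1 := Rr_lo
  have h2 := Rr_pos
  rw [← mul_div_assoc, lt_div_iff₀ (by linarith)]
  linarith

theorem lam_eq : 75 * pf t0 = (75:ℝ) ^ gam := by
  have h1 := pf_t0_rpow
  have h2 := gam_q0
  have h3 : 0 < pf t0 := pf_pos _
  have hq : q0 ≠ 0 := by
    intro h
    rw [h] at h2
    simp at h2
  have h4 : pf t0 ^ q0 = (75:ℝ)⁻¹ := by
    field_simp
    linarith
  have h5 : pf t0 = (75:ℝ) ^ (gam - 1) := by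
    calc pf t0 = (pf t0 ^ q0) ^ (1 - gam) := by
          rw [← rpow_mul h3.le, mul_comm, h2, rpow_one]
      _ = ((75:ℝ)⁻¹) ^ (1 - gam) := by rw [h4]
      _ = (75:ℝ) ^ (gam - 1) := by
          rw [inv_rpow (by norm_num), ← rpow_neg (by norm_num)]
          congr 1
          ring
  rw [h5]
  have h6 : (75:ℝ) * 75 ^ (gam - 1) = 75 ^ (1:ℝ) * 75 ^ (gam - 1) := by rw [rpow_one]
  rw [h6, ← rpow_add (by norm_num)]
  congr 1
  ring

/-- the recursive family -/
theorem family (k : ℕ) : ∃ A : BT, t0 ≤ A.t ∧ A.t ≤ t0 + ((2:ℝ) ^ (k + 7))⁻¹ ∧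
    A.size + ((k + 10) ^ 2 + 9) ≤ 5000 * 75 ^ k ∧
    (75 * pf t0) ^ k * exp (-(((2:ℝ) ^ 6)⁻¹ - ((2:ℝ) ^ (k + 6))⁻¹)) ≤ |A.D| - 3 := by
  induction k with
  | zero =>
    set n : ℕ := ⌈t0 / ell (star 7).t⌉₊ with hn
    have hl0 : 0 < ell (star 7).t := ell_pos _
    have hl1 : ell (star 7).t ≤ ((2:ℝ) ^ 7)⁻¹ := ell_star_le 7
    have ht1 := t0_lo
    have ht2 := t0_hi
    have hn1 : t0 / ell (star 7).t ≤ n := Nat.le_ceil _
    have hn2 : (n : ℝ) < t0 / ell (star 7).t + 1 := Nat.ceil_lt_add_one (by positivity)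
    rw [div_le_iff₀ hl0] at hn1
    have hn3 : (n : ℝ) * ell (star 7).t < t0 + ell (star 7).t := by
      have := mul_lt_mul_of_pos_right hn2 hl0
      rw [add_mul, div_mul_cancel₀ _ hl0.ne'] at this
      linarith
    have hl2 : (1 : ℝ) / 129 ≤ ell (star 7).t := by
      have h5 := pf_le_ell (star 7).t
      have h6 : pf (star 7).t = 1 / 129 := by
        rw [star_t]
        unfold pf
        rw [exp_mul_log_two]
        norm_num
      rw [h6] at h5
      exact h5
    have hn4 : (n : ℝ) < 408 := by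
      have h5 : (n : ℝ) * (1 / 129) ≤ (n : ℝ) * ell (star 7).t :=
        mul_le_mul_of_nonneg_left hl2 (Nat.cast_nonneg _)
      norm_num at hl1
      linarith
    have hn5 : (403 : ℝ) ≤ n := by
      have h5 : (n : ℝ) * ell (star 7).t ≤ (n : ℝ) * ((2:ℝ) ^ 7)⁻¹ :=
        mul_le_mul_of_nonneg_left hl1 (Nat.cast_nonneg _)
      norm_num at h5
      linarith
    refine ⟨BT.addKids .leaf (star 7) n, ?_, ?_, ?_, ?_⟩
    · rw [BT.addKids_t]
      simp only [BT.t, zero_add]
      exact hn1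
    · rw [BT.addKids_t]
      simp only [BT.t, zero_add]
      linarith
    · rw [BT.addKids_size, star_size]
      simp only [BT.size]
      have h6 : n < 408 := by exact_mod_cast hn4
      norm_num
      omega
    · rw [BT.addKids_D, star_D]
      simp only [BT.D]
      have h6 : pf (star 7).t = 1 / 129 := by
        rw [star_t]
        unfold pf
        rw [exp_mul_log_two]
        norm_num
      rw [h6]
      have h7 : (8:ℝ) ≤ 1 - n * (1 / 129 * (1 - ((7:ℕ):ℝ) / 2)) := by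
        push_cast
        linarith
      have h8 : (75 * pf t0) ^ 0 * exp (-(((2:ℝ) ^ 6)⁻¹ - ((2:ℝ) ^ (0 + 6))⁻¹)) = 1 := by
        simp
      rw [h8]
      have := le_abs_self (1 - n * (1 / 129 * (1 - ((7:ℕ):ℝ) / 2)))
      linarith
  | succ k ih =>
    obtain ⟨A, hA1, hA2, hA3, hA4⟩ := ih
    have ht1 := t0_lo
    have ht2 := t0_hi
    have hell : 75 * ell A.t ≤ t0 := by
      have h5 := ell_anti hA1
      rw [ell_t0] at h5
      unfold t0
      linarith
    have hp0 : (0:ℝ) < ((2:ℝ) ^ (k + 8))⁻¹ := by positivity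
    have hp1 : ((2:ℝ) ^ (k + 8))⁻¹ ≤ 1 := by
      apply inv_le_one_of_one_le₀
      exact one_le_pow₀ (by norm_num)
    have hell0 := ell_pos A.t
    obtain ⟨G, hG1, hG2, hG3, hG4⟩ := gadget' (t0 - 75 * ell A.t + ((2:ℝ) ^ (k + 8))⁻¹)
      (by linarith) (by linarith) (k + 8)
    set e : ℝ := A.t - t0 with he
    have he0 : 0 ≤ e := by linarith
    have he1 : e ≤ ((2:ℝ) ^ (k + 7))⁻¹ := by linarith
    have he2 : ((2:ℝ) ^ (k + 7))⁻¹ ≤ 1 / 128 := by
      rw [one_div]
      apply inv_anti₀ (by norm_num)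
      calc (128:ℝ) = 2 ^ 7 := by norm_num
        _ ≤ 2 ^ (k + 7) := pow_le_pow_right₀ (by norm_num) (by omega)
    refine ⟨BT.addKids G A 75, ?_, ?_, ?_, ?_⟩
    · rw [BT.addKids_t]
      push_cast
      linarith
    · rw [BT.addKids_t]
      have : k + 1 + 7 = k + 8 := by ring
      rw [this]
      push_cast
      linarith
    · rw [BT.addKids_size]
      have h5 : 75 * (A.size + ((k + 10) ^ 2 + 9)) ≤ 5000 * 75 ^ (k + 1) := by
        have h6 : 75 ^ (k + 1) = 75 ^ k * 75 := pow_succ _ _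
        rw [h6]
        calc 75 * (A.size + ((k + 10) ^ 2 + 9)) ≤ 75 * (5000 * 75 ^ k) :=
              Nat.mul_le_mul_left _ hA3
          _ = _ := by ring
      nlinarith
    · rw [BT.addKids_D]
      have hlam := lam_lo
      have hpfA : exp (-e) * pf t0 ≤ pf A.t := by
        have := pf_add (t := t0) he0
        rwa [he, show t0 + (A.t - t0) = A.t by ring] at this
      set L : ℝ := 75 * pf t0 * exp (-e) with hL
      have hL3 : 3 ≤ L := by
        have h5 := add_one_le_exp (-e)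
        have h6 : (1 - 1 / 128 : ℝ) ≤ exp (-e) := by linarith
        rw [hL]
        nlinarith
      have hLA : L ≤ 75 * pf A.t := by
        rw [hL]
        nlinarith
      have hD0 : 0 ≤ |A.D| := abs_nonneg _
      have h9 : L * |A.D| ≤ |((75:ℕ):ℝ) * (pf A.t * A.D)| := by
        rw [abs_mul, abs_mul, abs_of_pos (pf_pos A.t)]
        push_cast
        rw [abs_of_pos (by norm_num : (0:ℝ) < 75), ← mul_assoc]
        exact mul_le_mul_of_nonneg_right hLA hD0
      have h10 : |((75:ℕ):ℝ) * (pf A.t * A.D)| ≤ |G.D - ((75:ℕ):ℝ) * (pf A.t * A.D)| + |G.D| := by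
        have := abs_sub_abs_le_abs_sub (((75:ℕ):ℝ) * (pf A.t * A.D)) G.D
        rw [abs_sub_comm (((75:ℕ):ℝ) * (pf A.t * A.D)) G.D] at this
        linarith
      have h11 : L * (|A.D| - 3) ≤ |G.D - ((75:ℕ):ℝ) * (pf A.t * A.D)| - 3 := by
        nlinarith
      refine le_trans ?_ h11
      have hX : 0 < (75 * pf t0) ^ k := by
        have := pf_pos t0
        positivity
      calc (75 * pf t0) ^ (k + 1) * exp (-(((2:ℝ) ^ 6)⁻¹ - ((2:ℝ) ^ (k + 1 + 6))⁻¹))
          ≤ (75 * pf t0) ^ (k + 1) *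
            (exp (-e) * exp (-(((2:ℝ) ^ 6)⁻¹ - ((2:ℝ) ^ (k + 6))⁻¹))) := by
            apply mul_le_mul_of_nonneg_left _ (by have := pf_pos t0; positivity)
            rw [← exp_add]
            apply exp_le_exp.mpr
            have h12 : ((2:ℝ) ^ (k + 6))⁻¹ = 2 * ((2:ℝ) ^ (k + 7))⁻¹ := by
              have h14 : (2:ℝ) ^ (k + 7) = 2 ^ (k + 6) * 2 := pow_succ _ _
              rw [h14, mul_inv]
              ring
            have h13 : k + 1 + 6 = k + 7 := by ring
            rw [h13, h12]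
            linarith
        _ = L * ((75 * pf t0) ^ k * exp (-(((2:ℝ) ^ 6)⁻¹ - ((2:ℝ) ^ (k + 6))⁻¹))) := by
            rw [hL, pow_succ]
            ring
        _ ≤ L * (|A.D| - 3) := mul_le_mul_of_nonneg_left hA4 (by linarith)

/-- Rooted trees with a large `D`. -/
theorem grow : ∃ c : ℝ, 0 < c ∧ ∃ m0 : ℕ, ∀ m : ℕ, m0 ≤ m →
    ∃ A : BT, A.size ≤ m ∧ A.t ≤ 4 ∧ c * (m : ℝ) ^ gam ≤ |A.D| := by
  refine ⟨exp (-((2:ℝ) ^ 6)⁻¹) * ((5000 * 75 : ℝ) ^ gam)⁻¹, by positivity, 5000, ?_⟩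
  intro m hm
  set k : ℕ := Nat.log 75 (m / 5000) with hk
  have hq : m / 5000 ≠ 0 := by
    have : 1 ≤ m / 5000 := by
      rw [Nat.le_div_iff_mul_le (by norm_num)]
      omega
    omega
  have h1 : 75 ^ k ≤ m / 5000 := Nat.pow_log_le_self 75 hq
  have h2 : m / 5000 < 75 ^ (k + 1) := Nat.lt_pow_succ_log_self (by norm_num) _
  have h3 : 5000 * 75 ^ k ≤ m := by
    calc 5000 * 75 ^ k ≤ 5000 * (m / 5000) := Nat.mul_le_mul_left _ h1
      _ ≤ m := Nat.mul_div_le _ _
  have h4 : m < 5000 * 75 ^ (k + 1) := by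
    rw [Nat.div_lt_iff_lt_mul (by norm_num)] at h2
    linarith
  obtain ⟨A, hA1, hA2, hA3, hA4⟩ := family k
  refine ⟨A, by omega, ?_, ?_⟩
  · have ht2 := t0_hi
    have : ((2:ℝ) ^ (k + 7))⁻¹ ≤ 1 / 128 := by
      rw [one_div]
      apply inv_anti₀ (by norm_num)
      calc (128:ℝ) = 2 ^ 7 := by norm_num
        _ ≤ 2 ^ (k + 7) := pow_le_pow_right₀ (by norm_num) (by omega)
    linarith
  · have hg : 0 ≤ gam := by
      have := gam_lo
      linarith
    have h5 : (m : ℝ) ≤ 5000 * 75 * 75 ^ k := by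
      have : (m : ℝ) < 5000 * 75 ^ (k + 1) := by exact_mod_cast h4
      rw [pow_succ] at this
      linarith
    have h6 : (m : ℝ) ^ gam ≤ (5000 * 75 : ℝ) ^ gam * (75 * pf t0) ^ k := by
      calc (m : ℝ) ^ gam ≤ (5000 * 75 * 75 ^ k : ℝ) ^ gam := rpow_le_rpow (by positivity) h5 hg
        _ = (5000 * 75 : ℝ) ^ gam * ((75:ℝ) ^ k) ^ gam := by
          rw [mul_rpow (by norm_num) (by positivity)]
        _ = (5000 * 75 : ℝ) ^ gam * (75 * pf t0) ^ k := by
          rw [lam_eq, ← rpow_natCast, ← rpow_natCast, ← rpow_mul (by norm_num),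
            ← rpow_mul (by norm_num), mul_comm gam]
    have hZ : 0 < (5000 * 75 : ℝ) ^ gam := by positivity
    have hE : 0 < exp (-((2:ℝ) ^ 6)⁻¹) := exp_pos _
    calc exp (-((2:ℝ) ^ 6)⁻¹) * ((5000 * 75 : ℝ) ^ gam)⁻¹ * (m : ℝ) ^ gam
        ≤ exp (-((2:ℝ) ^ 6)⁻¹) * ((5000 * 75 : ℝ) ^ gam)⁻¹ *
          ((5000 * 75 : ℝ) ^ gam * (75 * pf t0) ^ k) := by
          apply mul_le_mul_of_nonneg_left h6 (by positivity)
      _ = (75 * pf t0) ^ k * exp (-((2:ℝ) ^ 6)⁻¹) := by
          field_simp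
      _ ≤ (75 * pf t0) ^ k * exp (-(((2:ℝ) ^ 6)⁻¹ - ((2:ℝ) ^ (k + 6))⁻¹)) := by
          apply mul_le_mul_of_nonneg_left _ (by have := pf_pos t0; positivity)
          apply exp_le_exp.mpr
          have : (0:ℝ) < ((2:ℝ) ^ (k + 6))⁻¹ := by positivity
          linarith
      _ ≤ |A.D| := by linarith

end WCT
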