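import Pool.Agent.H11.WCT.Upper

/-!
Children lists of rooted trees, and propagation of bounds from the children to the root.
-/

namespace WCT

open Real

/-- the list of the branches at the root -/
def BT.kids : BT → List BT
  | .leaf => []
  | .graft A B => B :: BT.kids A

theorem BT.t_eq_sum (A : BT) : A.t = (A.kids.map (fun B => ell B.t)).sum := by
  induction A with
  | leaf => simp [BT.kids, BT.t]
  | graft A B hA hB =>
    simp only [BT.kids, BT.t, List.map_cons, List.sum_cons, ← hA]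
    ring

theorem BT.size_eq_sum (A : BT) : A.size = 1 + (A.kids.map BT.size).sum := by
  induction A with
  | leaf => simp [BT.kids, BT.size]
  | graft A B hA hB =>
    simp only [BT.kids, BT.size, List.map_cons, List.sum_cons]
    omega

theorem BT.size_kid_lt {A B : BT} (h : B ∈ A.kids) : B.size < A.size := by
  rw [A.size_eq_sum]
  have : B.size ≤ (A.kids.map BT.size).sum :=
    List.single_le_sum (fun _ _ => Nat.zero_le _) _ (List.mem_map_of_mem h)
  omega

theorem BT.kids_induction {P : BT → Prop} (h : ∀ A : BT, (∀ B ∈ A.kids, P B) → P A) (A : BT) :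
    P A := by
  have : P A ∧ ∀ B ∈ A.kids, P B := by
    induction A with
    | leaf => exact ⟨h _ (by simp [BT.kids]), by simp [BT.kids]⟩
    | graft A B hA hB =>
      have hk : ∀ C ∈ (BT.graft A B).kids, P C := by
        intro C hC
        simp only [BT.kids, List.mem_cons] at hC
        rcases hC with rfl | hC
        · exact hB.1
        · exact hA.2 C hC
      exact ⟨h _ hk, hk⟩
  exact this.1

/-- The ratio of `A` at `x` is `exp (- t + δ)` with `‖δ‖ ≤ y`. -/
def Good (x : ℂ) (A : BT) (y : ℝ) : Prop :=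
  (A.W 1 x).1 ≠ 0 ∧ ∃ δ : ℂ, (A.W 1 x).2 = (A.W 1 x).1 * Complex.exp (-(A.t : ℂ) + δ) ∧
      ‖δ‖ ≤ y

theorem Good.mono {x : ℂ} {A : BT} {y z : ℝ} (h : Good x A y) (hyz : y ≤ z) : Good x A z := by
  obtain ⟨h1, δ, h2, h3⟩ := h
  exact ⟨h1, δ, h2, h3.trans hyz⟩

/-- the bound for the logarithm of `(1 + r e ^ δ) / (1 + r)` -/
noncomputable def Uf (t y : ℝ) : ℝ := pf t * (exp y - 1) / (1 - pf t * (exp y - 1))

theorem good_leaf {x : ℂ} {ε : ℝ} (hε : ε ≤ 1 / 2) (hx : ‖x - 1‖ ≤ ε) :
    Good x BT.leaf (2 * ε) := by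
  have hε0 : 0 ≤ ε := (norm_nonneg _).trans hx
  refine ⟨by simp [BT.W], Complex.log x, ?_, ?_⟩
  · have hx0 : x ≠ 0 := by
      rintro rfl
      simp at hx
      linarith
    simp [BT.W, BT.t, Complex.exp_log hx0]
  · have h1 : Complex.log x = Complex.log (1 + (x - 1)) := by ring_nf
    rw [h1]
    have h2 := norm_log_one_add_le' hx (by linarith)
    have h3 : ε / (1 - ε) ≤ 2 * ε := by
      rw [div_le_iff₀ (by linarith)]
      nlinarith
    linarith

theorem good_key {x : ℂ} {B : BT} {y : ℝ} (hB : Good x B y)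
    (hU : pf B.t * (exp y - 1) ≤ 1 / 2) :
    ∃ u : ℂ, 1 + u ≠ 0 ∧ ‖Complex.log (1 + u)‖ ≤ Uf B.t y ∧
      (B.W 1 x).1 + (B.W 1 x).2 =
        (B.W 1 x).1 * ((1 + Complex.exp (-(B.t : ℂ))) * (1 + u)) := by
  obtain ⟨hB1, δB, hB2, hB3⟩ := hB
  set u : ℂ := (pf B.t : ℂ) * (Complex.exp δB - 1) with hu
  have huU : ‖u‖ ≤ pf B.t * (exp y - 1) := by
    rw [hu, norm_mul, Complex.norm_real, Real.norm_of_nonneg (pf_pos _).le]
    apply mul_le_mul_of_nonneg_left _ (pf_pos _).le
    calc ‖Complex.exp δB - 1‖ ≤ exp ‖δB‖ - 1 := norm_exp_sub_one_le' _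
      _ ≤ exp y - 1 := by
        have := exp_le_exp.mpr hB3
        linarith
  have hu1 : ‖u‖ < 1 := by linarith
  have hune : 1 + u ≠ 0 := by
    intro h
    have : u = -1 := by linear_combination h
    rw [this] at hu1
    simp at hu1
  have hlog := norm_log_one_add_le' huU (by linarith)
  have hexpB : (1 : ℂ) + Complex.exp (-(B.t : ℂ)) ≠ 0 := by
    rw [← Complex.ofReal_neg, ← Complex.ofReal_exp, ← Complex.ofReal_one, ← Complex.ofReal_add]
    have := exp_pos (-B.t)
    exact_mod_cast (by linarith : (1:ℝ) + exp (-B.t) ≠ 0)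
  have hkey : (1 : ℂ) + Complex.exp (-(B.t : ℂ) + δB) =
      (1 + Complex.exp (-(B.t : ℂ))) * (1 + u) := by
    rw [hu, pf_eq, Complex.exp_add]
    push_cast
    field_simp
    ring
  refine ⟨u, hune, hlog, ?_⟩
  rw [hB2, ← hkey]
  ring

theorem Good.ne_zero {x : ℂ} {B : BT} {y : ℝ} (hB : Good x B y)
    (hU : pf B.t * (exp y - 1) ≤ 1 / 2) : (B.W 1 x).1 + (B.W 1 x).2 ≠ 0 := by
  obtain ⟨u, h1, -, h2⟩ := good_key hB hU
  rw [h2]
  have hexpB : (1 : ℂ) + Complex.exp (-(B.t : ℂ)) ≠ 0 := by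
    rw [← Complex.ofReal_neg, ← Complex.ofReal_exp, ← Complex.ofReal_one, ← Complex.ofReal_add]
    have := exp_pos (-B.t)
    exact_mod_cast (by linarith : (1:ℝ) + exp (-B.t) ≠ 0)
  exact mul_ne_zero hB.1 (mul_ne_zero hexpB h1)

theorem good_graft {x : ℂ} {A B : BT} {a y : ℝ} (hA : Good x A a) (hB : Good x B y)
    (hU : pf B.t * (exp y - 1) ≤ 1 / 2) : Good x (BT.graft A B) (a + Uf B.t y) := by
  obtain ⟨u, hune, hlog, hsum⟩ := good_key hB hU
  have hne := hB.ne_zero hU
  obtain ⟨hA1, δA, hA2, hA3⟩ := hA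
  have hB1 := hB.1
  have hellB : Complex.exp (-(ell B.t : ℂ)) * (1 + Complex.exp (-(B.t : ℂ))) = 1 := by
    have h1 : (1 : ℂ) + Complex.exp (-(B.t : ℂ)) = Complex.exp (ell B.t : ℂ) := by
      rw [← Complex.ofReal_exp]
      unfold ell
      rw [Real.exp_log (by have := exp_pos (-B.t); linarith)]
      push_cast
      rfl
    rw [h1, ← Complex.exp_add]
    simp
  refine ⟨?_, δA - Complex.log (1 + u), ?_, ?_⟩
  · simp only [BT.W]
    exact mul_ne_zero hA1 hne
  · simp only [BT.W, BT.t]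
    rw [hsum, hA2]
    have h2 : Complex.exp (-((A.t + ell B.t : ℝ) : ℂ) + (δA - Complex.log (1 + u))) =
        Complex.exp (-(A.t : ℂ) + δA) * Complex.exp (-(ell B.t : ℂ)) *
          (1 + u)⁻¹ := by
      rw [← Complex.exp_log hune, ← Complex.exp_neg, Complex.exp_log hune, ← Complex.exp_add,
        ← Complex.exp_add]
      congr 1
      push_cast
      ring
    rw [h2]
    have h3 : (A.W 1 x).1 * ((B.W 1 x).1 * ((1 + Complex.exp (-(B.t : ℂ))) * (1 + u))) *
        (Complex.exp (-(A.t : ℂ) + δA) * Complex.exp (-(ell B.t : ℂ)) * (1 + u)⁻¹) =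
        (A.W 1 x).1 * Complex.exp (-(A.t : ℂ) + δA) * (B.W 1 x).1 *
        (Complex.exp (-(ell B.t : ℂ)) * (1 + Complex.exp (-(B.t : ℂ)))) *
        ((1 + u) * (1 + u)⁻¹) := by ring
    rw [h3, hellB, mul_inv_cancel₀ hune]
    ring
  · calc ‖δA - Complex.log (1 + u)‖ ≤ ‖δA‖ + ‖Complex.log (1 + u)‖ := norm_sub_le _ _
      _ ≤ a + Uf B.t y := add_le_add hA3 hlog

/-- If every branch is good with bound `y B`, then the root is good with the summed bound. -/
theorem good_of_kids {x : ℂ} {ε : ℝ} (hε : ε ≤ 1 / 2) (hx : ‖x - 1‖ ≤ ε) (y : BT → ℝ) (A : BT)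
    (hk : ∀ B ∈ A.kids, Good x B (y B) ∧ pf B.t * (exp (y B) - 1) ≤ 1 / 2) :
    Good x A (2 * ε + (A.kids.map (fun B => Uf B.t (y B))).sum) := by
  induction A with
  | leaf =>
    simpa [BT.kids] using good_leaf hε hx
  | graft A B hA hB =>
    have h1 := hA (fun C hC => hk C (by simp [BT.kids, hC]))
    obtain ⟨h2, h3⟩ := hk B (by simp [BT.kids])
    have h4 := good_graft h1 h2 h3
    refine h4.mono (le_of_eq ?_)
    simp only [BT.kids, List.map_cons, List.sum_cons]
    ring

/-- Hölder's inequality for lists of positive numbers. -/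
theorem holder_list {γ : ℝ} (h0 : 0 < γ) (h1 : γ < 1) {ι : Type*} (l : List ι) (a m : ι → ℝ)
    (ha : ∀ i ∈ l, 0 < a i) (hm : ∀ i ∈ l, 0 < m i) :
    (l.map (fun i => m i ^ γ * a i ^ (1 - γ))).sum ≤
      (l.map m).sum ^ γ * (l.map a).sum ^ (1 - γ) := by
  induction l with
  | nil => simp [Real.zero_rpow h0.ne']
  | cons i l ih =>
    have ih' := ih (fun j hj => ha j (by simp [hj])) (fun j hj => hm j (by simp [hj]))
    have hai := ha i (by simp)
    have hmi := hm i (by simp)
    simp only [List.map_cons, List.sum_cons]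
    rcases l.eq_nil_or_concat with rfl | ⟨l', j, hl⟩
    · simp
    · have hne : l ≠ [] := by rw [hl]; simp
      have hA : 0 < (l.map a).sum := by
        apply List.sum_pos
        · intro z hz
          obtain ⟨j, hj, rfl⟩ := List.mem_map.mp hz
          exact ha j (by simp [hj])
        · simpa using hne
      have hM : 0 < (l.map m).sum := by
        apply List.sum_pos
        · intro z hz
          obtain ⟨j, hj, rfl⟩ := List.mem_map.mp hz
          exact hm j (by simp [hj])
        · simpa using hne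
      have := holder2 h0.le h1.le hai hA hmi hM
      linarith

end WCT
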