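import Pool.Agent.H11.WCT.Grow
import Pool.Agent.H11.WCT.Cross

namespace WCT

open Real

theorem lower_gam : ∃ C : ℝ, 0 < C ∧ ∃ m0 : ℕ, ∀ m : ℕ, m0 ≤ m → ∃ (A : BT) (x : ℂ), A.size = m ∧
    (A.W 1 x).1 + (A.W 1 x).2 = 0 ∧ ‖x - 1‖ ≤ C * (m : ℝ) ^ (-gam) := by
  obtain ⟨c, hc, m0, hg⟩ := grow
  obtain ⟨C, hC, hcr⟩ := cross
  have hg0 : 0 < gam := by have := gam_lo; linarith
  -- the final constant
  set K : ℝ := C / c * 2 ^ gam with hK
  have hK0 : 0 < K := by positivity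
  -- a threshold beyond which `K * m ^ (-gam) ≤ 1/4`
  have hlim : Filter.Tendsto (fun m : ℕ => K * (m : ℝ) ^ (-gam)) Filter.atTop (nhds (K * 0)) :=
    ((tendsto_rpow_neg_atTop hg0).comp tendsto_natCast_atTop_atTop).const_mul K
  rw [mul_zero] at hlim
  have hev := hlim.eventually (gt_mem_nhds (by norm_num : (0:ℝ) < 1 / 4))
  obtain ⟨m1, hm1⟩ := Filter.eventually_atTop.mp hev
  refine ⟨K, hK0, max (2 * m0) (max m1 20) + 1, ?_⟩
  intro m hm
  have hm2 : 2 * m0 ≤ m := by omega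
  have hm3 : m1 ≤ m := by omega
  have hm4 : 21 ≤ m := by omega
  obtain ⟨A, hA1, hA2, hA3⟩ := hg (m - m / 2) (by omega)
  have hmR : (21 : ℝ) ≤ m := by exact_mod_cast hm4
  have hmpos : (0 : ℝ) < m := by linarith
  have hhalf : (m : ℝ) / 2 ≤ ((m - m / 2 : ℕ) : ℝ) := by
    have h1 : m ≤ 2 * (m - m / 2) := by omega
    have h2 : (m : ℝ) ≤ 2 * ((m - m / 2 : ℕ) : ℝ) := by exact_mod_cast h1
    linarith
  have hD : c * ((m : ℝ) / 2) ^ gam ≤ |A.D| := by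
    refine le_trans ?_ hA3
    apply mul_le_mul_of_nonneg_left _ hc.le
    exact rpow_le_rpow (by linarith) hhalf hg0.le
  have hD0 : 0 < c * ((m : ℝ) / 2) ^ gam := by positivity
  have hε1 : C / (c * ((m : ℝ) / 2) ^ gam) = K * (m : ℝ) ^ (-gam) := by
    rw [hK, div_rpow hmpos.le (by norm_num), rpow_neg hmpos.le]
    field_simp
  obtain ⟨B, hB1, x, hx1, hx2⟩ := hcr A hA2 m (by omega) (K * (m : ℝ) ^ (-gam)) (by positivity)
    (hm1 m hm3).le (by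
      rw [← hε1]
      calc C = C / (c * ((m : ℝ) / 2) ^ gam) * (c * ((m : ℝ) / 2) ^ gam) := by field_simp
        _ ≤ _ := mul_le_mul_of_nonneg_left hD (by positivity))
  exact ⟨B, x, hB1, hx2, hx1.le⟩

end WCT
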