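import Pool.Agent.H11.WCT.Upper

/-!
The constants: `R (1 + R) ^ 75 = 1`, `s0 = log (1 + R)`, `t0 = 75 s0 = - log R`,
`q0 = log 75 / (76 s0)`, `gam = 1 - 1 / q0`, `h0 = (1 + 76 R) / q0`.
Numerical values: R = 0.04288410572394691, s0 = 0.04199005356858719,
t0 = 3.149254017644039, log 75 = 4.31748811353631, q0 = 1.3529169243064907,
gam = 0.2608563156879695, h0 = 3.1481548929571113, t0 - h0 = 0.0010991246869.
-/

namespace WCT

open Real

theorem exists_R : ∃ R : ℝ, 0 < R ∧ R * (1 + R) ^ 75 = 1 := by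
  have hc : ContinuousOn (fun x : ℝ => x * (1 + x) ^ 75) (Set.Icc 0 1) := by fun_prop
  have h := intermediate_value_Icc (show (0 : ℝ) ≤ 1 by norm_num) hc
  have h1 : (1 : ℝ) ∈ Set.Icc ((fun x : ℝ => x * (1 + x) ^ 75) 0)
      ((fun x : ℝ => x * (1 + x) ^ 75) 1) := by
    constructor <;> norm_num
  obtain ⟨x, hx, hx1⟩ := h h1
  refine ⟨x, lt_of_le_of_ne hx.1 ?_, hx1⟩
  rintro rfl
  norm_num at hx1

/-- the positive solution of `R (1 + R) ^ 75 = 1` -/
noncomputable def Rr : ℝ := exists_R.choose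

theorem Rr_pos : 0 < Rr := exists_R.choose_spec.1

theorem Rr_eq : Rr * (1 + Rr) ^ 75 = 1 := exists_R.choose_spec.2

theorem Rr_mono {a b : ℝ} (ha : 0 < a) (hab : a < b) : a * (1 + a) ^ 75 < b * (1 + b) ^ 75 := by
  have h1 : (1 + a) ^ 75 < (1 + b) ^ 75 := pow_lt_pow_left₀ (by linarith) (by linarith) (by norm_num)
  exact mul_lt_mul hab h1.le (by positivity) (by linarith)

theorem Rr_unique {R : ℝ} (h0 : 0 < R) (h : R * (1 + R) ^ 75 = 1) : R = Rr := by
  rcases lt_trichotomy R Rr with h1 | h1 | h1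
  · have := Rr_mono h0 h1
    rw [h, Rr_eq] at this
    exact absurd this (lt_irrefl _)
  · exact h1
  · have := Rr_mono Rr_pos h1
    rw [h, Rr_eq] at this
    exact absurd this (lt_irrefl _)

theorem Rr_gt {a : ℝ} (h : a * (1 + a) ^ 75 < 1) : a < Rr := by
  by_contra hcon
  push Not at hcon
  rcases eq_or_lt_of_le hcon with h1 | h1
  · rw [← h1, Rr_eq] at h; exact lt_irrefl _ h
  · have := Rr_mono Rr_pos h1
    rw [Rr_eq] at this
    linarith

theorem Rr_lt {a : ℝ} (ha : 0 < a) (h : 1 < a * (1 + a) ^ 75) : Rr < a := by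
  by_contra hcon
  push Not at hcon
  rcases eq_or_lt_of_le hcon with h1 | h1
  · rw [h1, Rr_eq] at h; exact lt_irrefl _ h
  · have := Rr_mono ha h1
    rw [Rr_eq] at this
    linarith

theorem Rr_lo : 0.0428841 < Rr := by
  apply Rr_gt
  norm_num

theorem Rr_hi' : Rr < 0.04288411 := by
  apply Rr_lt
  · norm_num
  · norm_num

theorem Rr_hi : Rr < 0.0428842 := Rr_hi'.trans (by norm_num)

theorem log75_bd : |log 75 - 4.3174881| < 0.0000008 := by
  have h1 : log 75 = 6 * log 2 + log (1 - (-11 / 64)) := by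
    have h2 : (75 : ℝ) = 2 ^ 6 * (1 - (-11 / 64)) := by norm_num
    rw [h2, log_mul (by norm_num) (by norm_num), log_pow]
    norm_num
  have h3 := abs_log_sub_add_sum_range_le (x := (-11 / 64 : ℝ)) (by norm_num [abs_lt]) 8
  have h4 : |(-11 / 64 : ℝ)| = 11 / 64 := by norm_num [abs_of_neg]
  rw [h4] at h3
  have h5 := log_two_gt_d9
  have h6 := log_two_lt_d9
  simp only [Finset.sum_range_succ, Finset.sum_range_zero] at h3
  rw [abs_le] at h3
  norm_num at h3
  rw [h1, abs_lt]
  norm_num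
  obtain ⟨h7, h8⟩ := h3
  constructor <;> linarith

theorem log75_lo : 4.31748 < log 75 := by
  have := (abs_lt.1 log75_bd).1
  norm_num at this ⊢
  linarith

theorem log75_hi' : log 75 < 4.317489 := by
  have := (abs_lt.1 log75_bd).2
  norm_num at this ⊢
  linarith

theorem log75_hi : log 75 < 4.31749 := log75_hi'.trans (by norm_num)

/-- `log (1 + R)` -/
noncomputable def s0 : ℝ := log (1 + Rr)

/-- `- log R` -/
noncomputable def t0 : ℝ := 75 * s0

/-- `1 / (1 - gam)` -/
noncomputable def q0 : ℝ := log 75 / (76 * s0)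

/-- the exponent -/
noncomputable def gam : ℝ := 1 - 76 * s0 / log 75

/-- the height of the potential at `t0` -/
noncomputable def h0 : ℝ := (1 + 76 * Rr) / q0

theorem s0_lo' : 0.04199004 < s0 := by
  have h3 := abs_log_sub_add_sum_range_le (x := (-0.0428841 : ℝ)) (by norm_num [abs_lt]) 6
  have h4 : |(-0.0428841 : ℝ)| = 0.0428841 := by norm_num [abs_of_neg]
  rw [h4] at h3
  simp only [Finset.sum_range_succ, Finset.sum_range_zero] at h3
  rw [abs_le] at h3
  norm_num at h3
  have h5 : log (10428841 / 10000000) < s0 := by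
    unfold s0
    apply log_lt_log (by norm_num)
    have := Rr_lo
    norm_num at this ⊢
    linarith
  have h6 := h3.1
  norm_num
  linarith

theorem s0_lo : 0.04199 < s0 := lt_trans (by norm_num) s0_lo'

theorem s0_hi : s0 < 0.0419901 := by
  have h3 := abs_log_sub_add_sum_range_le (x := (-0.04288411 : ℝ)) (by norm_num [abs_lt]) 6
  have h4 : |(-0.04288411 : ℝ)| = 0.04288411 := by norm_num [abs_of_neg]
  rw [h4] at h3
  simp only [Finset.sum_range_succ, Finset.sum_range_zero] at h3
  rw [abs_le] at h3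
  norm_num at h3
  have h5 : s0 < log (104288411 / 100000000) := by
    unfold s0
    apply log_lt_log (by have := Rr_pos; linarith)
    have := Rr_hi'
    norm_num at this ⊢
    linarith
  have h6 := h3.2
  norm_num
  linarith

theorem s0_pos : 0 < s0 := lt_trans (by norm_num) s0_lo

theorem exp_s0 : exp s0 = 1 + Rr := exp_log (by have := Rr_pos; linarith)

theorem exp_neg_t0 : exp (-t0) = Rr := by
  have h1 : exp t0 = (1 + Rr) ^ 75 := by
    unfold t0
    rw [← exp_s0, ← exp_nat_mul]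
    norm_num
  rw [exp_neg, h1]
  exact inv_eq_of_mul_eq_one_left Rr_eq

theorem pf_t0 : pf t0 = Rr / (1 + Rr) := by
  rw [pf_eq, exp_neg_t0]

theorem ell_t0 : ell t0 = s0 := by
  unfold ell s0
  rw [exp_neg_t0]

theorem log_Rr : log Rr = -t0 := by
  rw [← exp_neg_t0, log_exp]

theorem log_pf_t0 : log (pf t0) = -(76 * s0) := by
  have h := Rr_pos
  rw [pf_t0, log_div h.ne' (by linarith), log_Rr]
  unfold t0 s0
  ring

theorem log75_pos : 0 < log 75 := lt_trans (by norm_num) log75_lo

theorem q0_mul : q0 * (76 * s0) = log 75 := by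
  unfold q0
  have := s0_pos
  field_simp

theorem pf_t0_rpow : 75 * pf t0 ^ q0 = 1 := by
  rw [rpow_def_of_pos (pf_pos _), log_pf_t0]
  have h : -(76 * s0) * q0 = - log 75 := by rw [← q0_mul]; ring
  rw [h, exp_neg, exp_log (by norm_num)]
  norm_num

theorem gam_q0 : (1 - gam) * q0 = 1 := by
  unfold gam q0
  have h1 := s0_pos
  have h2 := log75_pos
  field_simp
  ring

theorem t0_lo' : 3.149253 < t0 := by
  unfold t0
  have := s0_lo'
  norm_num at this ⊢
  linarith

theorem t0_lo : 3.14925 < t0 := lt_trans (by norm_num) t0_lo'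

theorem t0_hi : t0 < 3.14926 := by
  unfold t0
  have := s0_hi
  norm_num at this ⊢
  linarith

theorem q0_lo : 1.35291 < q0 := by
  unfold q0
  rw [lt_div_iff₀ (by have := s0_pos; positivity)]
  have h1 := s0_hi
  have h2 := log75_lo
  norm_num at h1 h2 ⊢
  linarith

theorem q0_hi' : q0 < 1.352918 := by
  unfold q0
  rw [div_lt_iff₀ (by have := s0_pos; positivity)]
  have h1 := s0_lo'
  have h2 := log75_hi'
  norm_num at h1 h2 ⊢
  linarith

theorem q0_hi : q0 < 1.35292 := q0_hi'.trans (by norm_num)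

theorem q0_pos : 0 < q0 := lt_trans (by norm_num) q0_lo

theorem gam_lo : 0.26085 < gam := by
  have h1 := gam_q0
  have h2 := q0_lo
  have h3 := q0_pos
  norm_num at h2 ⊢
  by_contra hcon
  push Not at hcon
  nlinarith

theorem gam_hi : gam < 0.26086 := by
  have h1 := gam_q0
  have h2 := q0_hi
  have h3 := q0_pos
  norm_num at h2 ⊢
  by_contra hcon
  push Not at hcon
  nlinarith

theorem h0_lo : 3.14815 < h0 := by
  unfold h0
  rw [lt_div_iff₀ q0_pos]
  have h1 := Rr_lo
  have h2 := q0_hi'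
  norm_num at h1 h2 ⊢
  linarith

theorem h0_hi : h0 < 3.14818 := by
  unfold h0
  rw [div_lt_iff₀ q0_pos]
  have h1 := Rr_hi'
  have h2 := q0_lo
  norm_num at h1 h2 ⊢
  linarith

theorem gap_lo : 0.00107 < t0 - h0 := by
  have h1 := t0_lo'
  have h2 := h0_hi
  norm_num at h1 h2 ⊢
  linarith

theorem gap_hi : t0 - h0 < 0.00111 := by
  have h1 := s0_hi
  have h2 := h0_lo
  unfold t0
  norm_num at h1 h2 ⊢
  linarith

end WCT
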