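import Pool.Agent.H11.WCT.Sec

namespace WCT

open Real

/-- `Λ` -/
noncomputable def La (t : ℝ) : ℝ := ell t - s0

noncomputable def aF (t : ℝ) : ℝ := h0 + 75 * La t - 75 * La t ^ 2

noncomputable def bF (t : ℝ) : ℝ := h0 + (t - t0) + 24 / 1000 * (t - t0) ^ 2

noncomputable def Th (t : ℝ) : ℝ := log (aF t) - log (bF t) + q0 * ((t - t0) + La t)

noncomputable def Th1 (t : ℝ) : ℝ :=
  -(75 * pf t * (1 - 2 * La t)) / aF t - (1 + 48 / 1000 * (t - t0)) / bF t + q0 * (1 - pf t)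

noncomputable def Th2 (t : ℝ) : ℝ :=
  (75 * pf t / aF t) * ((1 - pf t) * (1 - 2 * La t) - 2 * pf t)
    - (75 * pf t / aF t) ^ 2 * (1 - 2 * La t) ^ 2
    + ((1 + 48 / 1000 * (t - t0)) ^ 2 - 48 / 1000 * bF t) / bF t ^ 2 + q0 * (pf t * (1 - pf t))

theorem hasDerivAt_La (t : ℝ) : HasDerivAt La (-pf t) t := (hasDerivAt_ell t).sub_const s0

theorem hasDerivAt_aF (t : ℝ) : HasDerivAt aF (-(75 * pf t * (1 - 2 * La t))) t := by
  have h1 := (hasDerivAt_La t).const_mul 75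
  have h2 := ((hasDerivAt_La t).pow 2).const_mul 75
  have h3 : HasDerivAt aF (75 * -pf t - 75 * (((2 : ℕ) : ℝ) * La t ^ (2 - 1) * -pf t)) t :=
    (h1.const_add h0).sub h2
  apply h3.congr_deriv
  norm_num
  ring

theorem hasDerivAt_bF (t : ℝ) : HasDerivAt bF (1 + 48 / 1000 * (t - t0)) t := by
  have h1 : HasDerivAt (fun t : ℝ => t - t0) 1 t := (hasDerivAt_id t).sub_const t0
  have h2 := (h1.pow 2).const_mul (24 / 1000 : ℝ)
  have h3 : HasDerivAt bF (1 + 24 / 1000 * (((2 : ℕ) : ℝ) * (t - t0) ^ (2 - 1) * 1)) t :=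
    (h1.const_add h0).add h2
  apply h3.congr_deriv
  norm_num
  ring

theorem hasDerivAt_Th {t : ℝ} (ha : 0 < aF t) (hb : 0 < bF t) : HasDerivAt Th (Th1 t) t := by
  have h1 := (hasDerivAt_aF t).log ha.ne'
  have h2 := (hasDerivAt_bF t).log hb.ne'
  have h3 : HasDerivAt (fun t : ℝ => t - t0) 1 t := (hasDerivAt_id t).sub_const t0
  have h4 := (h3.add (hasDerivAt_La t)).const_mul q0
  have h5 : HasDerivAt Th (-(75 * pf t * (1 - 2 * La t)) / aF t - (1 + 48 / 1000 * (t - t0)) / bF t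
    + q0 * (1 + -pf t)) t := (h1.sub h2).add h4
  apply h5.congr_deriv
  unfold Th1
  ring

theorem hasDerivAt_Th1 {t : ℝ} (ha : 0 < aF t) (hb : 0 < bF t) : HasDerivAt Th1 (Th2 t) t := by
  have h0 : HasDerivAt (fun t : ℝ => t - t0) 1 t := (hasDerivAt_id t).sub_const t0
  have hp := hasDerivAt_pf t
  have h1 : HasDerivAt (fun t => 1 - 2 * La t) (-(2 * -pf t)) t :=
    ((hasDerivAt_La t).const_mul 2).const_sub 1
  have h2 := ((hp.const_mul 75).mul h1).neg
  have h3 := h2.div (hasDerivAt_aF t) ha.ne'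
  have h4 : HasDerivAt (fun t : ℝ => 1 + 48 / 1000 * (t - t0)) (48 / 1000 * 1) t :=
    (h0.const_mul (48 / 1000 : ℝ)).const_add 1
  have h5 := h4.div (hasDerivAt_bF t) hb.ne'
  have h6 := (hp.const_sub 1).const_mul q0
  have h7 := (h3.sub h5).add h6
  have h8 : HasDerivAt Th1 _ t := h7
  apply h8.congr_deriv
  unfold Th2
  simp only [Pi.neg_apply, Pi.mul_apply]
  field_simp
  ring

/-- bounds for `k0 = 1 / (1 + R)` -/
theorem k0_bd : 0.95887929 < 1 / (1 + Rr) ∧ 1 / (1 + Rr) < 0.95887938 := by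
  have h1 := Rr_lo
  have h2 := Rr_hi'
  norm_num at h1 h2
  constructor
  · rw [lt_div_iff₀ (by linarith)]; norm_num; linarith
  · rw [div_lt_iff₀ (by linarith)]; norm_num; linarith

theorem exp_neg_s0 : exp (-s0) = 1 / (1 + Rr) := by
  rw [exp_neg, exp_s0, one_div]

theorem pf_La (t : ℝ) : pf t = 1 - 1 / (1 + Rr) * exp (-La t) := by
  have h1 := one_sub_pf t
  have h2 : -ell t = -s0 + -La t := by unfold La; ring
  rw [h2, exp_add, exp_neg_s0] at h1
  linarith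

theorem La_log (t : ℝ) : La t = log ((1 + Rr * exp (-(t - t0))) / (1 + Rr)) := by
  have hR := Rr_pos
  have he := exp_pos (-(t - t0))
  rw [log_div (by positivity) (by positivity)]
  unfold La ell s0
  congr 2
  rw [← exp_neg_t0, ← exp_add]
  congr 1
  ring

theorem exp_small {x : ℝ} (h : |x| ≤ 3 / 10) :
    exp x ≤ 1 + x + x ^ 2 / 2 + x ^ 3 / 6 + 5 / 96 * x ^ 4 ∧
    1 + x + x ^ 2 / 2 + x ^ 3 / 6 - 5 / 96 * x ^ 4 ≤ exp x := by
  have h1 := Real.exp_bound (x := x) (by linarith) (n := 4) (by norm_num)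
  simp only [Finset.sum_range_succ, Finset.sum_range_zero, Nat.factorial] at h1
  have h2 : |x| ^ 4 = x ^ 4 := by
    rw [← abs_pow, abs_of_nonneg (by positivity)]
  rw [h2, abs_le] at h1
  norm_num at h1
  constructor
  · linarith [h1.2]
  · linarith [h1.1]

theorem La_bd {t : ℝ} (ht : |t - t0| ≤ 3 / 10) : -0.0108 ≤ La t ∧ La t ≤ 0.0144 := by
  have hR := Rr_pos
  have hR1 := Rr_lo
  have hR2 := Rr_hi'
  rw [abs_le] at ht
  have hLa := La_log t
  generalize hy : -(t - t0) = y at hLa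
  have hy1 : -(3 / 10) ≤ y := by rw [← hy]; linarith
  have hy2 : y ≤ 3 / 10 := by rw [← hy]; linarith
  have hu : exp y ≤ 1.35 := by
    have h5 := exp_le_exp.2 hy2
    have := Real.exp_bound' (x := 3 / 10) (by norm_num) (by norm_num) (n := 6) (by norm_num)
    refine (h5.trans this).trans ?_
    norm_num [Finset.sum_range_succ, Nat.factorial]
  have hl : 0.74 ≤ exp y := by
    have h5 := exp_le_exp.2 hy1
    have := (exp_small (x := -(3 / 10)) (by rw [abs_neg, abs_of_pos (by norm_num)])).2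
    refine le_trans ?_ (this.trans h5)
    norm_num
  have he := exp_pos y
  norm_num at hu hl hR1 hR2
  constructor
  · rw [hLa]
    rw [Real.le_log_iff_exp_le (by positivity)]
    have h3 := (exp_small (x := -0.0108) (by norm_num [abs_of_neg])).1
    refine h3.trans ?_
    rw [le_div_iff₀ (by positivity)]
    norm_num
    nlinarith
  · rw [hLa]
    refine (log_le_sub_one_of_pos (by positivity)).trans ?_
    rw [sub_le_iff_le_add, div_le_iff₀ (by positivity)]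
    norm_num
    nlinarith

theorem pf_bd {t : ℝ} (ht : |t - t0| ≤ 3 / 10) :
    pf t ≤ 0.041122 + 0.95888 * La t ∧ 0.041 + 0.95888 * La t ≤ pf t := by
  obtain ⟨h1, h2⟩ := La_bd ht
  obtain ⟨hk1, hk2⟩ := k0_bd
  have hx : |-La t| ≤ 3 / 10 := by
    rw [abs_neg, abs_le]; norm_num at h1 h2 ⊢; constructor <;> linarith
  obtain ⟨e1, e2⟩ := exp_small hx
  have e3 := add_one_le_exp (-La t)
  rw [pf_La t]
  generalize 1 / (1 + Rr) = k at *
  generalize La t = x at *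
  have hk0 : 0 < k := by norm_num at hk1; linarith
  constructor
  · have h5 : k * (-x + 1) ≤ k * exp (-x) := mul_le_mul_of_nonneg_left e3 hk0.le
    norm_num at h1 h2 hk1 hk2 ⊢
    nlinarith
  · have e4 : exp (-x) ≤ 1 - x + 0.000105 := by
      refine e1.trans ?_
      norm_num at h1 h2
      have g1 : x ^ 2 ≤ 0.000208 := by norm_num; nlinarith
      have g2 : 0 ≤ x ^ 2 := sq_nonneg x
      have g3 : -(x ^ 3) ≤ 0.0108 * x ^ 2 := by norm_num; nlinarith
      have g4 : x ^ 4 ≤ 0.000208 * x ^ 2 := by norm_num at g1 ⊢; nlinarith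
      norm_num at g1 g3 g4 ⊢
      nlinarith
    have h5 : k * exp (-x) ≤ k * (1 - x + 0.000105) := mul_le_mul_of_nonneg_left e4 hk0.le
    norm_num at h1 h2 hk1 hk2 h5 ⊢
    nlinarith

theorem aF_pos {t : ℝ} (ht : |t - t0| ≤ 3 / 10) : 0 < aF t := by
  obtain ⟨h1, h2⟩ := La_bd ht
  have h3 := h0_lo
  unfold aF
  norm_num at h1 h2 h3
  nlinarith

theorem bF_pos {t : ℝ} (ht : |t - t0| ≤ 3 / 10) : 0 < bF t := by
  rw [abs_le] at ht
  have h3 := h0_lo
  unfold bF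
  norm_num at h3
  nlinarith [sq_nonneg (t - t0)]

/-- step 4 -/
theorem step4 {x p h : ℝ} (hx1 : -0.0108 ≤ x) (hx2 : x ≤ 0.0144)
    (hp : p ≤ 0.041122 + 0.95888 * x) (hh : 3.14815 ≤ h) :
    75 * p * (1 - 2 * x) ≤ (1 - p + (0.028 - 1.5 * x)) * (h + 75 * x - 75 * x ^ 2) := by
  have ha : 0 < h + 75 * x - 75 * x ^ 2 := by norm_num at hx1 hx2 hh; nlinarith
  have h1 : 75 * p * (1 - 2 * x) ≤ 75 * (0.041122 + 0.95888 * x) * (1 - 2 * x) := by
    apply mul_le_mul_of_nonneg_right _ (by norm_num at hx2; linarith)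
    linarith
  have h2 : (1 - (0.041122 + 0.95888 * x) + (0.028 - 1.5 * x)) * (h + 75 * x - 75 * x ^ 2) ≤
      (1 - p + (0.028 - 1.5 * x)) * (h + 75 * x - 75 * x ^ 2) := by
    apply mul_le_mul_of_nonneg_right _ ha.le
    linarith
  have h3 : (1 - (0.041122 + 0.95888 * x) + (0.028 - 1.5 * x)) * (3.14815 + 75 * x - 75 * x ^ 2) ≤
      (1 - (0.041122 + 0.95888 * x) + (0.028 - 1.5 * x)) * (h + 75 * x - 75 * x ^ 2) := by
    apply mul_le_mul_of_nonneg_left _ (by norm_num at hx2 ⊢; linarith)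
    linarith
  refine (h1.trans ?_).trans (h3.trans h2)
  norm_num at hx1 hx2 ⊢
  nlinarith [mul_nonneg (sub_nonneg.2 hx1) (sub_nonneg.2 hx2), sq_nonneg x,
    mul_nonneg (sub_nonneg.2 hx1) (sq_nonneg x)]

/-- step 5 -/
theorem step5 {x p : ℝ} (hx1 : -0.0108 ≤ x) (hx2 : x ≤ 0.0144)
    (hp : p ≤ 0.041122 + 0.95888 * x) (hp' : 0.041 + 0.95888 * x ≤ p) :
    (1 - p + (0.028 - 1.5 * x)) * ((0.028 - 1.5 * x) + 2 * p * (1 + 2 * x + 0.00087)) ≤
      0.084 + 1.2 * x + 1.35291 * (p * (1 - p)) := by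
  obtain ⟨e, he⟩ : ∃ e, p = 0.041 + 0.95888 * x + e := ⟨p - (0.041 + 0.95888 * x), by ring⟩
  have e1 : 0 ≤ e := by linarith
  have e2 : e ≤ 0.000122 := by norm_num at hp he ⊢; linarith
  subst he
  norm_num at hx1 hx2 e2 ⊢
  nlinarith [mul_nonneg (sub_nonneg.2 hx1) (sub_nonneg.2 hx2), sq_nonneg x,
    mul_nonneg (sub_nonneg.2 hx1) (sq_nonneg x), mul_nonneg e1 (sub_nonneg.2 hx1),
    mul_nonneg e1 (sub_nonneg.2 hx2), mul_nonneg e1 (sub_nonneg.2 e2),
    mul_nonneg (mul_nonneg e1 (sub_nonneg.2 e2)) (sub_nonneg.2 hx1),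
    mul_nonneg e1 (sq_nonneg x)]

/-- the lower bound of the `b` part -/
theorem B_bd {t : ℝ} (ht : |t - t0| ≤ 3 / 10) :
    0.084 + 1.2 * La t ≤
      ((1 + 48 / 1000 * (t - t0)) ^ 2 - 48 / 1000 * bF t) / bF t ^ 2 := by
  have hb := bF_pos ht
  rw [le_div_iff₀ (by positivity)]
  have hR := Rr_pos
  have hR1 := Rr_lo
  have hR2 := Rr_hi'
  have hh := h0_hi
  have hh' := h0_lo
  obtain ⟨e1, -⟩ := exp_small (x := -(t - t0)) (by rw [abs_neg]; exact ht)
  have hLa : La t ≤ (1 + Rr * exp (-(t - t0))) / (1 + Rr) - 1 := by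
    rw [La_log t]
    exact log_le_sub_one_of_pos (by positivity)
  have hb1 : bF t ≤ 3.14818 + (t - t0) + 24 / 1000 * (t - t0) ^ 2 := by
    unfold bF; linarith
  obtain ⟨h1, h2⟩ := La_bd ht
  rw [abs_le] at ht
  generalize bF t = b at *
  generalize La t = x at *
  obtain ⟨ht1, ht2⟩ := ht
  generalize t - t0 = y at *
  have hE1 : -0.3 ≤ exp (-y) - 1 := by
    have := add_one_le_exp (-y)
    norm_num
    linarith
  generalize exp (-y) = E at *
  have hE2 : E - 1 ≤ 0.36 := by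
    norm_num at e1 ⊢
    nlinarith [sq_nonneg y, mul_nonneg (sub_nonneg.2 ht1) (sub_nonneg.2 ht2)]
  have hE : x ≤ 0.04112 * (E - 1) + 0.0000004 := by
    refine hLa.trans ?_
    rw [sub_le_iff_le_add, div_le_iff₀ (by positivity)]
    norm_num at hR1 hR2 hE1 hE2 ⊢
    nlinarith
  have hB : 0.084 + 1.2 * x ≤
      0.08403 + 0.049344 * (-y + y ^ 2 / 2 - y ^ 3 / 6) := by
    have h4 : y ^ 4 ≤ 0.0081 := by
      have h5 : y ^ 2 ≤ 0.09 := by norm_num; nlinarith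
      have h6 : 0 ≤ y ^ 2 := sq_nonneg y
      norm_num at h5 ⊢
      nlinarith
    norm_num at e1 hE h4 ⊢
    nlinarith
  have hy2 : y ^ 2 ≤ 0.09 := by norm_num; nlinarith
  have hy0 : 0 ≤ y ^ 2 := sq_nonneg y
  have hy3 : y ^ 3 ≤ 0.027 ∧ -0.027 ≤ y ^ 3 := by
    norm_num at hy2 ⊢
    constructor <;> nlinarith
  have hr0 : 0 ≤ 0.08403 + 0.049344 * (-y + y ^ 2 / 2 - y ^ 3 / 6) := by
    obtain ⟨h5, h6⟩ := hy3
    norm_num at h5 h6 ⊢
    linarith
  have h7 : (0.08403 + 0.049344 * (-y + y ^ 2 / 2 - y ^ 3 / 6)) *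
      (3.14818 + y + 24 / 1000 * y ^ 2) ^ 2 ≤
      (1 + 48 / 1000 * y) ^ 2 - 48 / 1000 * (3.14818 + y + 24 / 1000 * y ^ 2) := by
    have h8 : (1 + 48 / 1000 * y) ^ 2 - 48 / 1000 * (3.14818 + y + 24 / 1000 * y ^ 2) -
        (0.08403 + 0.049344 * (-y + y ^ 2 / 2 - y ^ 3 / 6)) *
      (3.14818 + y + 24 / 1000 * y ^ 2) ^ 2 =
      0.016062894639028 + 0.0079670943430656 * y - 0.0294135198707328 * y ^ 2
      - 0.0210683609546624 * y ^ 3 + 0.02570112430592 * (y ^ 2) ^ 2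
      + (0.00831091649536 * y + 0.000380540928 * y ^ 2 + 0.000004737024 * y ^ 3) * (y ^ 2) ^ 2 := by
      norm_num
      ring
    have h9 : 0 ≤ (0.00831091649536 * y + 0.000380540928 * y ^ 2 + 0.000004737024 * y ^ 3)
        * (y ^ 2) ^ 2 + 0.00003 := by
      have h10 : -0.003 ≤ 0.00831091649536 * y + 0.000380540928 * y ^ 2
          + 0.000004737024 * y ^ 3 := by
        obtain ⟨h5, h6⟩ := hy3
        norm_num at h5 h6 ⊢
        linarith
      have h11 : (y ^ 2) ^ 2 ≤ 0.0081 := by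
        norm_num at hy2 ⊢
        nlinarith
      have h12 : 0 ≤ (y ^ 2) ^ 2 := sq_nonneg _
      norm_num at h10 h11 ⊢
      nlinarith
    obtain ⟨h5, h6⟩ := hy3
    have h13 : 0 ≤ (y ^ 2) ^ 2 := sq_nonneg _
    norm_num at h5 h6 h8 h9 hy2 ⊢
    linarith
  have h14 : 0 < b := hb
  have h15 : b ^ 2 ≤ (3.14818 + y + 24 / 1000 * y ^ 2) ^ 2 :=
    pow_le_pow_left₀ h14.le hb1 2
  have h16 : (0.084 + 1.2 * x) * b ^ 2 ≤
      (0.08403 + 0.049344 * (-y + y ^ 2 / 2 - y ^ 3 / 6)) *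
      (3.14818 + y + 24 / 1000 * y ^ 2) ^ 2 :=
    mul_le_mul hB h15 (sq_nonneg b) hr0
  linarith

theorem Th2_nonneg {t : ℝ} (ht : |t - t0| ≤ 3 / 10) : 0 ≤ Th2 t := by
  have hB := B_bd ht
  obtain ⟨hx1, hx2⟩ := La_bd ht
  obtain ⟨hp1, hp2⟩ := pf_bd ht
  have ha := aF_pos ht
  have h4 := step4 hx1 hx2 hp1 h0_lo.le
  have h5 := step5 hx1 hx2 hp1 hp2
  have hq := q0_lo
  have hp0 := pf_pos t
  have hpl := pf_lt_one t
  unfold Th2
  generalize ((1 + 48 / 1000 * (t - t0)) ^ 2 - 48 / 1000 * bF t) / bF t ^ 2 = B at *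
  have h6 : h0 + 75 * La t - 75 * La t ^ 2 = aF t := rfl
  rw [h6] at h4
  generalize aF t = a at *
  generalize La t = x at *
  generalize pf t = p at *
  have hx0 : 0 < 1 - 2 * x := by norm_num at hx2; linarith
  obtain ⟨v, hv⟩ : ∃ v, v = 75 * p / a := ⟨_, rfl⟩
  rw [← hv]
  have hv0 : 0 < v := by rw [hv]; positivity
  have h7 : v * (1 - 2 * x) ≤ 1 - p + (0.028 - 1.5 * x) := by
    rw [hv, div_mul_eq_mul_div, div_le_iff₀ ha]
    exact h4
  have hV0 : 0 < 1 - p + (0.028 - 1.5 * x) := lt_of_lt_of_le (by positivity) h7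
  have h10 : 0 < 1 + 2 * x + 0.00087 := by norm_num at hx1 ⊢; linarith
  have h8 : v ≤ v * (1 - 2 * x) * (1 + 2 * x + 0.00087) := by
    have h9 : 1 ≤ (1 - 2 * x) * (1 + 2 * x + 0.00087) := by
      norm_num at hx1 hx2 ⊢
      nlinarith
    calc v = v * 1 := by ring
      _ ≤ v * ((1 - 2 * x) * (1 + 2 * x + 0.00087)) := mul_le_mul_of_nonneg_left h9 hv0.le
      _ = v * (1 - 2 * x) * (1 + 2 * x + 0.00087) := by ring
  have h11 : 1.35291 * (p * (1 - p)) ≤ q0 * (p * (1 - p)) := by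
    apply mul_le_mul_of_nonneg_right hq.le
    apply mul_nonneg hp0.le; linarith
  have hW : 0 ≤ 0.028 - 1.5 * x := by norm_num at hx2 ⊢; linarith
  obtain ⟨w, hw⟩ : ∃ w, w = v * (1 - 2 * x) := ⟨_, rfl⟩
  have hw0 : 0 < w := by rw [hw]; positivity
  rw [← hw] at h7 h8
  have e1 : v * ((1 - p) * (1 - 2 * x) - 2 * p) - v ^ 2 * (1 - 2 * x) ^ 2 =
      w * (1 - p) - 2 * p * v - w ^ 2 := by rw [hw]; ring
  rw [e1]
  generalize 1 + 2 * x + 0.00087 = c at *
  have e2 : 2 * p * v ≤ 2 * p * (w * c) := mul_le_mul_of_nonneg_left h8 (by positivity)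
  generalize 0.028 - 1.5 * x = W at *
  have e3 : 0 ≤ (1 - p + W - w) * (w + W + 2 * p * c) := by
    apply mul_nonneg (by linarith)
    positivity
  nlinarith

theorem h0_eq : h0 * q0 = 1 + 76 * Rr := by
  unfold h0
  exact div_mul_cancel₀ _ q0_pos.ne'

theorem P2 (t : ℝ) (ht : |t - t0| ≤ 3 / 10) :
    75 * pf t ^ q0 * (h0 + (t - t0) + 24 / 1000 * (t - t0) ^ 2) ≤
      h0 + 75 * (ell t - s0) - 75 * (ell t - s0) ^ 2 := by
  have hI : ∀ s : ℝ, s ∈ Set.Icc (t0 - 3 / 10) (t0 + 3 / 10) → |s - t0| ≤ 3 / 10 := by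
    intro s hs
    rw [abs_le]
    constructor <;> linarith [hs.1, hs.2]
  have htI : t ∈ Set.Icc (t0 - 3 / 10) (t0 + 3 / 10) := by
    rw [abs_le] at ht
    constructor <;> linarith [ht.1, ht.2]
  have hh0 : 0 < h0 := lt_trans (by norm_num) h0_lo
  have hLa0 : La t0 = 0 := by unfold La; rw [ell_t0]; ring
  have haF0 : aF t0 = h0 := by unfold aF; rw [hLa0]; ring
  have hbF0 : bF t0 = h0 := by unfold bF; ring
  have hR := Rr_pos
  have h1 : Th1 t0 = 0 := by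
    unfold Th1
    rw [haF0, hbF0, hLa0, pf_t0]
    have hq : q0 = (1 + 76 * Rr) / h0 := by
      rw [← h0_eq]; field_simp
    rw [hq]
    field_simp
    ring
  have h0' : Th t0 = 0 := by
    unfold Th
    rw [haF0, hbF0, hLa0]
    ring
  have hmin := min_of_second_deriv (g := Th) (g' := Th1) (g'' := Th2) (x0 := t0)
    (a := t0 - 3 / 10) (b := t0 + 3 / 10) (by constructor <;> linarith)
    (fun s hs => hasDerivAt_Th (aF_pos (hI s hs)) (bF_pos (hI s hs)))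
    (fun s hs => hasDerivAt_Th1 (aF_pos (hI s hs)) (bF_pos (hI s hs))) h1
    (fun s hs => Th2_nonneg (hI s hs)) t htI
  rw [h0'] at hmin
  have ha := aF_pos ht
  have hb := bF_pos ht
  have hp := pf_pos t
  have h2 : 75 * pf t ^ q0 = exp (-(q0 * ((t - t0) + La t))) := by
    have h3 := pf_t0_rpow
    have h4 : pf t ^ q0 = pf t0 ^ q0 * exp (-(q0 * ((t - t0) + La t))) := by
      rw [rpow_def_of_pos hp, rpow_def_of_pos (pf_pos t0), ← exp_add, log_pf, log_pf, ell_t0]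
      congr 1
      unfold La
      ring
    rw [h4, ← mul_assoc, h3, one_mul]
  have h5 : log (75 * pf t ^ q0 * bF t) ≤ log (aF t) := by
    rw [h2, log_mul (exp_pos _).ne' hb.ne', log_exp]
    unfold Th at hmin
    linarith
  have h6 : 0 < 75 * pf t ^ q0 * bF t := by positivity
  exact (log_le_log_iff h6 ha).1 h5

end WCT
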