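import Pool.Agent.H11.WCT.Upper

namespace WCT

open Real

theorem scal_aux_U {η t y : ℝ} (hη : 0 ≤ η) (hη1 : η ≤ 1 / 50) (ht : 0 ≤ t) (hy : 0 ≤ y)
    (hyη : y ≤ η * (t + 1)) : pf t * (exp y - 1) ≤ 2 * η := by
  have h1 : exp y - 1 ≤ y * exp y := by
    have h2 := add_one_le_exp (-y)
    have h3 : exp (-y) * exp y = 1 := by rw [← exp_add]; simp
    have h4 := exp_pos y
    nlinarith
  have h2 : exp y ≤ exp ((1 / 50) * (t + 1)) := by
    apply exp_le_exp.mpr
    nlinarith
  have h3 := pf_le_exp t
  have h4 := pf_pos t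
  have h5 : exp (-t) * exp ((1 / 50) * (t + 1)) * (t + 1) ≤ 2 := by
    rw [← exp_add]
    have h6 : -t + (1 / 50) * (t + 1) = -((49 / 50) * (t + 1) - 1) := by ring
    rw [h6]
    have h7 := add_one_le_exp ((49 / 50) * (t + 1) - 1)
    have h8 : exp (-((49 / 50) * (t + 1) - 1)) * exp ((49 / 50) * (t + 1) - 1) = 1 := by
      rw [← exp_add]; simp
    have h9 := exp_pos (-((49 / 50) * (t + 1) - 1))
    nlinarith
  calc pf t * (exp y - 1) ≤ pf t * (y * exp y) := mul_le_mul_of_nonneg_left h1 h4.le
    _ ≤ exp (-t) * (η * (t + 1) * exp ((1 / 50) * (t + 1))) := by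
      apply mul_le_mul h3 _ (by positivity) (exp_pos _).le
      apply mul_le_mul hyη h2 (exp_pos _).le
      positivity
    _ = η * (exp (-t) * exp ((1 / 50) * (t + 1)) * (t + 1)) := by ring
    _ ≤ η * 2 := mul_le_mul_of_nonneg_left h5 hη
    _ = 2 * η := by ring

theorem scal_of {γ γ' : ℝ} (h0 : 0 ≤ γ') (hlt : γ' < γ) (h1 : γ < 1)
    (H : ∀ t : ℝ, 4 / 5 ≤ t → pf t ≤ (ell t / t) ^ (1 - γ')) :
    Scal γ ((γ - γ') / 50) ((γ - γ') / 50) := by
  intro t y ht hy hyη
  set Δ := γ - γ' with hΔ
  have hΔ0 : 0 < Δ := by linarith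
  have hΔ1 : Δ < 1 := by linarith
  set η := Δ / 50 with hη
  have hη0 : 0 < η := by positivity
  have hη1 : η ≤ 1 / 50 := by rw [hη]; linarith
  have hU := scal_aux_U hη0.le hη1 ht hy hyη
  have hU0 : 0 ≤ pf t * (exp y - 1) := by
    apply mul_nonneg (pf_pos t).le
    have := add_one_le_exp y
    linarith
  set U := pf t * (exp y - 1) with hUdef
  refine ⟨by linarith, ?_⟩
  have hp := pf_pos t
  have h2 : exp y - 1 ≤ y * exp y := by
    have h2 := add_one_le_exp (-y)
    have h3 : exp (-y) * exp y = 1 := by rw [← exp_add]; simp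
    have h4 := exp_pos y
    nlinarith
  have h3 : U / (1 - U) ≤ U * exp (4 * η) := by
    rw [div_le_iff₀ (by linarith)]
    have h4 : 1 + 2 * U ≤ exp (4 * η) := by
      have := add_one_le_exp (4 * η)
      linarith
    have h5 : 1 ≤ exp (4 * η) * (1 - U) := by nlinarith
    nlinarith
  have h4 : U * exp (4 * η) ≤ y * (pf t * exp (y + 4 * η)) := by
    rw [exp_add]
    have : U ≤ pf t * (y * exp y) := mul_le_mul_of_nonneg_left h2 hp.le
    have h5 := exp_pos (4 * η)
    calc U * exp (4 * η) ≤ pf t * (y * exp y) * exp (4 * η) :=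
          mul_le_mul_of_nonneg_right this h5.le
      _ = _ := by ring
  have h5 : pf t * exp (y + 4 * η) ≤ (ell t / (t + η)) ^ (1 - γ) := by
    have hell := ell_pos t
    have htη : 0 < t + η := by linarith
    rcases le_total t (4 / 5) with hle | hge
    · have h6 : exp (y + 4 * η) ≤ 50 / 44 := by
        have h7 : y + 4 * η ≤ 6 / 50 := by nlinarith
        have h8 := add_one_le_exp (-(y + 4 * η))
        have h9 : exp (-(y + 4 * η)) * exp (y + 4 * η) = 1 := by rw [← exp_add]; simp
        have h10 := exp_pos (y + 4 * η)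
        nlinarith
      have h7 := pf_le_ell t
      have h8 := pf_le_half ht
      have h9 : pf t * exp (y + 4 * η) ≤ ell t / (t + η) := by
        rw [le_div_iff₀ htη]
        have : pf t * exp (y + 4 * η) ≤ pf t * (50 / 44) := mul_le_mul_of_nonneg_left h6 hp.le
        nlinarith
      rcases le_total 1 (ell t / (t + η)) with h10 | h10
      · calc pf t * exp (y + 4 * η) ≤ 1 / 2 * (50 / 44) := by
              apply mul_le_mul h8 h6 (exp_pos _).le (by norm_num)
          _ ≤ 1 := by norm_num
          _ ≤ _ := one_le_rpow h10 (by linarith)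
      · calc pf t * exp (y + 4 * η) ≤ ell t / (t + η) := h9
          _ = (ell t / (t + η)) ^ (1 : ℝ) := (rpow_one _).symm
          _ ≤ _ := rpow_le_rpow_of_exponent_ge (by positivity) h10 (by linarith)
    · have ht0 : 0 < t := by linarith
      have h6 := H t hge
      have h7 : (ell t / t) ^ (1 - γ') = (ell t / (t + η)) ^ (1 - γ) * ((t + η) / t) ^ (1 - γ) *
          (ell t / t) ^ Δ := by
        rw [← mul_rpow (by positivity) (by positivity)]
        have h8 : ell t / (t + η) * ((t + η) / t) = ell t / t := by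
          field_simp
        rw [h8, ← rpow_add (by positivity)]
        congr 1
        rw [hΔ]
        ring
      have h8 : ((t + η) / t) ^ (1 - γ) ≤ exp (5 / 4 * η) := by
        have h9 : 1 ≤ (t + η) / t := by
          rw [le_div_iff₀ ht0]
          linarith
        calc ((t + η) / t) ^ (1 - γ) ≤ ((t + η) / t) ^ (1 : ℝ) :=
              rpow_le_rpow_of_exponent_le h9 (by linarith)
          _ = η / t + 1 := by
            rw [rpow_one]
            field_simp
            ring
          _ ≤ exp (η / t) := add_one_le_exp _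
          _ ≤ exp (5 / 4 * η) := by
            apply exp_le_exp.mpr
            rw [div_le_iff₀ ht0]
            nlinarith
      have h9 : (ell t / t) ^ Δ ≤ exp (-(Δ * (9 / 100 * (t + 5)))) := by
        have h10 : ell t / t ≤ exp (-(9 / 100 * (t + 5))) := by
          have h11 := ell_le_exp t
          have h12 := Real.one_sub_inv_le_log_of_pos ht0
          have h13 : ell t / t ≤ exp (-(t + log t)) := by
            rw [neg_add, exp_add, exp_neg (log t), exp_log ht0]
            exact mul_le_mul_of_nonneg_right h11 (by positivity)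
          have h14 : 9 / 100 * (t + 5) ≤ t + log t := by
            have h15 : t⁻¹ ≤ 91 / 100 * t + 55 / 100 := by
              rw [inv_le_iff_one_le_mul₀ ht0]
              nlinarith
            linarith
          exact h13.trans (exp_le_exp.mpr (by linarith))
        calc (ell t / t) ^ Δ ≤ (exp (-(9 / 100 * (t + 5)))) ^ Δ :=
              rpow_le_rpow (by positivity) h10 hΔ0.le
          _ = _ := by
            rw [← exp_mul]
            congr 1
            ring
      have hX : 0 < (ell t / (t + η)) ^ (1 - γ) := by positivity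
      calc pf t * exp (y + 4 * η) ≤ (ell t / t) ^ (1 - γ') * exp (y + 4 * η) :=
            mul_le_mul_of_nonneg_right h6 (exp_pos _).le
        _ ≤ (ell t / (t + η)) ^ (1 - γ) * exp (5 / 4 * η) *
            exp (-(Δ * (9 / 100 * (t + 5)))) * exp (y + 4 * η) := by
          rw [h7]
          apply mul_le_mul_of_nonneg_right _ (exp_pos _).le
          apply mul_le_mul _ h9 (by positivity) (by positivity)
          exact mul_le_mul_of_nonneg_left h8 hX.le
        _ = (ell t / (t + η)) ^ (1 - γ) *
            exp (5 / 4 * η + -(Δ * (9 / 100 * (t + 5))) + (y + 4 * η)) := by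
          rw [exp_add (5 / 4 * η + -(Δ * (9 / 100 * (t + 5)))) (y + 4 * η),
            exp_add (5 / 4 * η) (-(Δ * (9 / 100 * (t + 5))))]
          ring
        _ ≤ (ell t / (t + η)) ^ (1 - γ) * 1 := by
          apply mul_le_mul_of_nonneg_left _ hX.le
          rw [← exp_zero]
          apply exp_le_exp.mpr
          have h10 : 5 / 4 * η + -(Δ * (9 / 100 * (t + 5))) + (y + 4 * η) ≤
              5 / 4 * η - Δ * (9 / 100 * (t + 5)) + η * (t + 5) := by linarith
          refine h10.trans ?_
          rw [hη]
          nlinarith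
        _ = _ := mul_one _
  calc U / (1 - U) ≤ U * exp (4 * η) := h3
    _ ≤ y * (pf t * exp (y + 4 * η)) := h4
    _ ≤ _ := mul_le_mul_of_nonneg_left h5 hy

end WCT
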