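import Pool.Agent.H11.WCT.Num

namespace WCT

open Real

theorem min_of_second_deriv {g g' g'' : ℝ → ℝ} {a b x0 : ℝ} (hx0 : x0 ∈ Set.Icc a b)
    (hg : ∀ t ∈ Set.Icc a b, HasDerivAt g (g' t) t)
    (hg' : ∀ t ∈ Set.Icc a b, HasDerivAt g' (g'' t) t) (h0 : g' x0 = 0)
    (hpos : ∀ t ∈ Set.Icc a b, 0 ≤ g'' t) : ∀ t ∈ Set.Icc a b, g x0 ≤ g t := by
  have hmono : MonotoneOn g' (Set.Icc a b) := by
    apply monotoneOn_of_deriv_nonneg (convex_Icc a b)
    · intro t ht; exact (hg' t ht).continuousAt.continuousWithinAt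
    · intro t ht
      exact (hg' t (interior_subset ht)).differentiableAt.differentiableWithinAt
    · intro t ht
      rw [(hg' t (interior_subset ht)).deriv]
      exact hpos t (interior_subset ht)
  intro t ht
  rcases le_total x0 t with h | h
  · have hm : MonotoneOn g (Set.Icc x0 b) := by
      apply monotoneOn_of_deriv_nonneg (convex_Icc x0 b)
      · intro s hs
        exact (hg s ⟨hx0.1.trans hs.1, hs.2⟩).continuousAt.continuousWithinAt
      · intro s hs
        have hs' := interior_subset hs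
        exact (hg s ⟨hx0.1.trans hs'.1, hs'.2⟩).differentiableAt.differentiableWithinAt
      · intro s hs
        have hs' := interior_subset hs
        rw [(hg s ⟨hx0.1.trans hs'.1, hs'.2⟩).deriv, ← h0]
        exact hmono hx0 ⟨hx0.1.trans hs'.1, hs'.2⟩ hs'.1
    exact hm ⟨le_rfl, hx0.2⟩ ⟨h, ht.2⟩ h
  · have hm : AntitoneOn g (Set.Icc a x0) := by
      apply antitoneOn_of_deriv_nonpos (convex_Icc a x0)
      · intro s hs
        exact (hg s ⟨hs.1, hs.2.trans hx0.2⟩).continuousAt.continuousWithinAt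
      · intro s hs
        have hs' := interior_subset hs
        exact (hg s ⟨hs'.1, hs'.2.trans hx0.2⟩).differentiableAt.differentiableWithinAt
      · intro s hs
        have hs' := interior_subset hs
        rw [(hg s ⟨hs'.1, hs'.2.trans hx0.2⟩).deriv, ← h0]
        exact hmono ⟨hs'.1, hs'.2.trans hx0.2⟩ hx0 hs'.2
    exact hm ⟨ht.1, h⟩ ⟨hx0.1, le_rfl⟩ h

theorem taylor_lower {f f' f'' : ℝ → ℝ} {a b x : ℝ} (c : ℝ) (hx : x ∈ Set.Icc a b)
    (hf : ∀ t ∈ Set.Icc a b, HasDerivAt f (f' t) t)
    (hf' : ∀ t ∈ Set.Icc a b, HasDerivAt f' (f'' t) t)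
    (hc : ∀ t ∈ Set.Icc a b, c ≤ f'' t) :
    ∀ t ∈ Set.Icc a b, f x + f' x * (t - x) + c / 2 * (t - x) ^ 2 ≤ f t := by
  intro t ht
  have h := min_of_second_deriv (g := fun t => f t - f' x * (t - x) - c / 2 * (t - x) ^ 2)
    (g' := fun t => f' t - f' x - c * (t - x)) (g'' := fun t => f'' t - c) hx
    (by
      intro s hs
      have h1 : HasDerivAt (fun t : ℝ => t - x) 1 s := (hasDerivAt_id s).sub_const x
      have h2 : HasDerivAt (fun t : ℝ => f' x * (t - x)) (f' x) s := by
        have := h1.const_mul (f' x)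
        simpa using this
      have h3 : HasDerivAt (fun t : ℝ => c / 2 * (t - x) ^ 2) (c * (s - x)) s := by
        have := (h1.pow 2).const_mul (c / 2)
        apply this.congr_deriv
        simp
        ring
      exact ((hf s hs).sub h2).sub h3)
    (by
      intro s hs
      have h1 : HasDerivAt (fun t : ℝ => t - x) 1 s := (hasDerivAt_id s).sub_const x
      have h2 : HasDerivAt (fun t : ℝ => c * (t - x)) c s := by
        have := h1.const_mul c
        simpa using this
      exact ((hf' s hs).sub_const (f' x)).sub h2)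
    (by simp) (by intro s hs; have := hc s hs; linarith) t ht
  simp only [sub_self, mul_zero, sub_zero, ne_eq, OfNat.ofNat_ne_zero, not_false_eq_true,
    zero_pow] at h
  linarith

theorem one_sub_pf (t : ℝ) : 1 - pf t = exp (-ell t) := by
  unfold pf ell
  rw [exp_neg, exp_log (by positivity), exp_neg]
  have h := exp_pos t
  field_simp
  ring

theorem pf_lt_one (t : ℝ) : pf t < 1 := by
  have h1 := one_sub_pf t
  have h2 := exp_pos (-ell t)
  linarith

theorem hasDerivAt_pf (t : ℝ) : HasDerivAt pf (-(pf t * (1 - pf t))) t := by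
  have h1 : HasDerivAt (fun s : ℝ => 1 + exp s) (exp t) t := (hasDerivAt_exp t).const_add 1
  have h2 : (1 + exp t) ≠ 0 := by positivity
  have h3 := h1.inv h2
  have h4 : (fun s : ℝ => 1 + exp s)⁻¹ = pf := by
    funext s; simp [pf]
  rw [h4] at h3
  apply h3.congr_deriv
  unfold pf
  field_simp
  ring

theorem hasDerivAt_ell (t : ℝ) : HasDerivAt ell (-pf t) t := by
  have h1 : HasDerivAt (fun s : ℝ => exp (-s)) (-exp (-t)) t := by
    have := (hasDerivAt_neg t).exp
    simpa using this
  have h2 : HasDerivAt (fun s : ℝ => 1 + exp (-s)) (-exp (-t)) t := h1.const_add 1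
  have h3 : HasDerivAt ell (-exp (-t) / (1 + exp (-t))) t := h2.log (by positivity)
  apply h3.congr_deriv
  rw [pf_eq]; ring

theorem log_pf (t : ℝ) : log (pf t) = -t - ell t := by
  rw [pf_eq, log_div (exp_pos _).ne' (by positivity), log_exp]
  rfl

theorem neg_log_ge {p : ℝ} (h0 : 0 ≤ p) (h1 : p < 1) : p + p ^ 2 / 2 ≤ -log (1 - p) := by
  have h := hasSum_pow_div_log_of_abs_lt_one (x := p) (by rw [abs_of_nonneg h0]; exact h1)
  have h2 := sum_le_hasSum (Finset.range 2) (fun n _ => by positivity) h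
  simp only [Finset.sum_range_succ, Finset.sum_range_zero] at h2
  norm_num at h2
  linarith

theorem ell_eq_neg_log (t : ℝ) : ell t = -log (1 - pf t) := by
  rw [one_sub_pf, log_exp, neg_neg]

theorem ell_ge (t : ℝ) : pf t + pf t ^ 2 / 2 ≤ ell t := by
  rw [ell_eq_neg_log]
  exact neg_log_ge (pf_pos t).le (pf_lt_one t)

theorem pf_mono {s t : ℝ} (h : s ≤ t) : pf t ≤ pf s := by
  unfold pf
  apply one_div_le_one_div_of_le (by positivity)
  have := exp_le_exp.2 h
  linarith

/-- `pf (t0 + y) = R / (R + e ^ y)` -/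
theorem pf_shift (y : ℝ) : pf (t0 + y) = Rr / (Rr + exp y) := by
  unfold pf
  have h1 : exp t0 = Rr⁻¹ := by
    rw [← exp_neg_t0, exp_neg, inv_inv]
  have h2 := Rr_pos
  have h3 := exp_pos y
  rw [exp_add, h1]
  field_simp

end WCT
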