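import Pool.Agent.H11.WCT.Kids
import Pool.Agent.H11.WCT.Scal
import Pool.Agent.H11.WCT.Core

/-!
Upper bound with the exact exponent.
-/

namespace WCT

open Real

theorem scal310 : Scal (3 / 10) (1 / 2500) (1 / 2500) := by
  have h := scal_of (γ := 3 / 10) (γ' := 28 / 100) (by norm_num) (by norm_num) (by norm_num) (by
    intro t ht
    have ht0 : 0 < t := by linarith
    have hp := pf_pos t
    have hpe := pf_le_exp t
    have hpl := pf_le_ell t
    have h1 : (pf t / t) ^ (1 - 28 / 100 : ℝ) ≤ (ell t / t) ^ (1 - 28 / 100 : ℝ) := by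
      apply rpow_le_rpow (by positivity) _ (by norm_num)
      exact div_le_div_of_nonneg_right hpl ht0.le
    refine le_trans ?_ h1
    have h2 : t ≤ exp (7 / 18 * t) := by
      have h3 : exp (7 / 18 * t) = exp 1 * exp (7 / 18 * t - 1) := by
        rw [← exp_add]
        congr 1
        ring
      have h4 := add_one_le_exp (7 / 18 * t - 1)
      have h5 := Real.exp_one_gt_d9
      have h6 : 0 < exp (7 / 18 * t - 1) := exp_pos _
      rw [h3]
      nlinarith
    have h3 : t ^ (18 / 25 : ℝ) ≤ exp (7 / 25 * t) := by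
      calc t ^ (18 / 25 : ℝ) ≤ (exp (7 / 18 * t)) ^ (18 / 25 : ℝ) :=
            rpow_le_rpow ht0.le h2 (by norm_num)
        _ = exp (7 / 25 * t) := by
          rw [← exp_mul]
          congr 1
          ring
    have h4 : pf t ^ (7 / 25 : ℝ) ≤ exp (-(7 / 25 * t)) := by
      calc pf t ^ (7 / 25 : ℝ) ≤ (exp (-t)) ^ (7 / 25 : ℝ) :=
            rpow_le_rpow hp.le hpe (by norm_num)
        _ = _ := by
          rw [← exp_mul]
          congr 1
          ring
    have h5 : pf t ^ (7 / 25 : ℝ) * t ^ (18 / 25 : ℝ) ≤ 1 := by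
      calc pf t ^ (7 / 25 : ℝ) * t ^ (18 / 25 : ℝ) ≤ exp (-(7 / 25 * t)) * exp (7 / 25 * t) :=
            mul_le_mul h4 h3 (by positivity) (exp_pos _).le
        _ = 1 := by
          rw [← exp_add]
          simp
    rw [show (1 - 28 / 100 : ℝ) = 18 / 25 by norm_num, div_rpow hp.le ht0.le,
      le_div_iff₀ (by positivity)]
    have h6 : pf t = pf t ^ (18 / 25 : ℝ) * pf t ^ (7 / 25 : ℝ) := by
      rw [← rpow_add hp]
      norm_num
    have h7 : 0 < pf t ^ (18 / 25 : ℝ) := by positivity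
    calc pf t * t ^ (18 / 25 : ℝ) = pf t ^ (18 / 25 : ℝ) * (pf t ^ (7 / 25 : ℝ) *
          t ^ (18 / 25 : ℝ)) := by
            nth_rewrite 1 [h6]
            ring
      _ ≤ pf t ^ (18 / 25 : ℝ) * 1 := mul_le_mul_of_nonneg_left h5 h7.le
      _ = _ := mul_one _)
  norm_num at h
  exact h

theorem exp_sub_one_le_mul {y : ℝ} : exp y - 1 ≤ y * exp y := by
  have h5 := add_one_le_exp (-y)
  have h6 : exp (-y) * exp y = 1 := by rw [← exp_add]; simp
  have h7 := exp_pos y
  nlinarith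

theorem Uf_le {t y : ℝ} (ht : 0 ≤ t) (hy0 : 0 ≤ y) (hU1 : pf t * (exp y - 1) ≤ 1 / 2) :
    Uf t y ≤ pf t * y + 2 * (pf t * (y ^ 2 * exp (2 * y))) := by
  have hp := pf_pos t
  have hph := pf_le_half ht
  have hE2 : exp y - 1 ≤ y * exp y := exp_sub_one_le_mul
  have hE : exp y - 1 - y ≤ y ^ 2 * exp y := by
    nlinarith
  have hey : 1 ≤ exp y := one_le_exp hy0
  have hE0 : 0 ≤ exp y - 1 := by linarith
  set U := pf t * (exp y - 1) with hU
  have hU0 : 0 ≤ U := mul_nonneg hp.le hE0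
  have hUf : Uf t y ≤ U + 2 * U ^ 2 := by
    unfold Uf
    rw [← hU, div_le_iff₀ (by linarith)]
    have h1 : 0 ≤ U ^ 2 * (1 - 2 * U) := mul_nonneg (sq_nonneg _) (by linarith)
    linarith [h1, show (U + 2 * U ^ 2) * (1 - U) = U + U ^ 2 * (1 - 2 * U) by ring]
  have hUa : U ≤ pf t * y + pf t * (y ^ 2 * exp y) := by
    have := mul_le_mul_of_nonneg_left hE hp.le
    rw [hU]
    linarith
  have hUb : U ^ 2 ≤ pf t * (1 / 2) * (y * exp y) ^ 2 := by
    have h5 : (exp y - 1) ^ 2 ≤ (y * exp y) ^ 2 := pow_le_pow_left₀ hE0 hE2 2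
    have h6 : pf t ^ 2 ≤ pf t * (1 / 2) := by nlinarith
    calc U ^ 2 = pf t ^ 2 * (exp y - 1) ^ 2 := by rw [hU]; ring
      _ ≤ (pf t * (1 / 2)) * (y * exp y) ^ 2 := mul_le_mul h6 h5 (sq_nonneg _) (by positivity)
  have h5 : exp (2 * y) = exp y * exp y := by rw [← exp_add]; congr 1; ring
  have h6 : pf t * (y ^ 2 * exp y) ≤ pf t * (y ^ 2 * exp (2 * y)) := by
    apply mul_le_mul_of_nonneg_left _ hp.le
    apply mul_le_mul_of_nonneg_left _ (sq_nonneg _)
    rw [h5]
    nlinarith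
  have h7 : pf t * (1 / 2) * (y * exp y) ^ 2 = 1 / 2 * (pf t * (y ^ 2 * exp (2 * y))) := by
    rw [h5]; ring
  linarith

/-- The step inequality for one child. -/
theorem scalN {t a e : ℝ} (ht : 0 ≤ t) (ha : 0 ≤ a) (he : 0 ≤ e) (h1 : a ≤ (t + 1) / 40000)
    (h2 : e ≤ (t + 1) / 80000) (h3 : 32 * a ^ 2 ≤ (t + 1) / 2500 * e) :
    pf t * (exp (a + e) - 1) ≤ 1 / 2 ∧
    Uf t (a + e) ≤ pf t * a + (ell t / (t + 1 / 2500)) ^ (7 / 10 : ℝ) * e := by
  set y := a + e with hy
  set y' := 1 / 2500 * (t + 1) with hy'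
  have hy0 : 0 ≤ y := by linarith
  have hy'0 : 0 < y' := by rw [hy']; linarith
  have hyy' : y ≤ y' / 8 := by rw [hy, hy']; linarith
  obtain ⟨hU1, -⟩ := scal310 t y ht hy0 (by linarith)
  obtain ⟨hV1, hV2⟩ := scal310 t y' ht hy'0.le le_rfl
  refine ⟨hU1, ?_⟩
  have hp := pf_pos t
  have hph := pf_le_half ht
  rw [show (1 - 3 / 10 : ℝ) = 7 / 10 by norm_num] at hV2
  set P := (ell t / (t + 1 / 2500)) ^ (7 / 10 : ℝ) with hP
  have hP1 : pf t * exp (y' / 2) ≤ P := by
    have h4 : y' * exp (y' / 2) ≤ exp y' - 1 := by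
      have h5 : y' / 2 ≤ sinh (y' / 2) := self_le_sinh_iff.mpr (by linarith)
      rw [sinh_eq] at h5
      have h6 : exp y' = exp (y' / 2) * exp (y' / 2) := by
        rw [← exp_add]; congr 1; ring
      have h7 : exp (-(y' / 2)) * exp (y' / 2) = 1 := by
        rw [← exp_add]; simp
      have h8 := exp_pos (y' / 2)
      nlinarith
    have h5 : 0 ≤ pf t * (exp y' - 1) := by
      apply mul_nonneg hp.le
      have := add_one_le_exp y'
      linarith
    have h6 : pf t * (exp y' - 1) ≤ pf t * (exp y' - 1) / (1 - pf t * (exp y' - 1)) := by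
      rw [le_div_iff₀ (by linarith)]
      nlinarith
    have h7 : pf t * (y' * exp (y' / 2)) ≤ y' * P := by
      calc pf t * (y' * exp (y' / 2)) ≤ pf t * (exp y' - 1) :=
            mul_le_mul_of_nonneg_left h4 hp.le
        _ ≤ y' * P := h6.trans hV2
    have h8 : y' * (pf t * exp (y' / 2)) ≤ y' * P := by linarith
    exact le_of_mul_le_mul_left h8 hy'0
  have hP2 : pf t * (y' / 4 * exp (y' / 4)) ≤ P - pf t := by
    have h4 : y' / 4 * exp (y' / 4) ≤ exp (y' / 2) - 1 := by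
      have h5 := add_one_le_exp (y' / 4)
      have h6 : exp (y' / 2) = exp (y' / 4) * exp (y' / 4) := by
        rw [← exp_add]; congr 1; ring
      have h7 := exp_pos (y' / 4)
      nlinarith
    have := mul_le_mul_of_nonneg_left h4 hp.le
    linarith
  have hUc : Uf t y ≤ pf t * y + 2 * (pf t * (y ^ 2 * exp (2 * y))) := Uf_le ht hy0 hU1
  have h8 : 2 * (pf t * (y ^ 2 * exp (2 * y))) ≤ (P - pf t) * e := by
    have h9 : exp (2 * y) ≤ exp (y' / 4) := exp_le_exp.mpr (by linarith)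
    have h10 : 8 * y ^ 2 ≤ y' * e := by
      have h11 : y ^ 2 ≤ 2 * a ^ 2 + 2 * e ^ 2 := by
        rw [hy]
        nlinarith [sq_nonneg (a - e)]
      have h12 : 32 * a ^ 2 ≤ y' * e := by rw [hy']; linarith
      have h13 : 32 * e ^ 2 ≤ y' * e := by
        have : 32 * e ≤ y' := by rw [hy']; linarith
        nlinarith
      linarith
    have h14 : 0 < exp (y' / 4) := exp_pos _
    calc 2 * (pf t * (y ^ 2 * exp (2 * y))) ≤ 2 * (pf t * (y ^ 2 * exp (y' / 4))) := by
          have := mul_le_mul_of_nonneg_left h9 (sq_nonneg y)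
          have := mul_le_mul_of_nonneg_left this hp.le
          linarith
      _ = pf t * exp (y' / 4) * (1 / 4) * (8 * y ^ 2) := by ring
      _ ≤ pf t * exp (y' / 4) * (1 / 4) * (y' * e) :=
          mul_le_mul_of_nonneg_left h10 (by positivity)
      _ = pf t * (y' / 4 * exp (y' / 4)) * e := by ring
      _ ≤ (P - pf t) * e := mul_le_mul_of_nonneg_right hP2 he
  calc Uf t y ≤ pf t * y + 2 * (pf t * (y ^ 2 * exp (2 * y))) := hUc
    _ ≤ pf t * y + (P - pf t) * e := by linarith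
    _ = pf t * a + P * e := by rw [hy]; ring

/-! ### The potentials -/

/-- `m ^ gam * Hk t ^ (1 - gam)` -/
noncomputable def Xp (A : BT) : ℝ := (A.size : ℝ) ^ gam * Hk A.t ^ (1 - gam)

/-- `m ^ (3/10) * (t + 1/2500) ^ (7/10)` -/
noncomputable def Yp (A : BT) : ℝ :=
  (A.size : ℝ) ^ (3 / 10 : ℝ) * (A.t + 1 / 2500) ^ (7 / 10 : ℝ)

theorem gam_pos : 0 < gam := by have := gam_lo; linarith

theorem gam_lt_one : gam < 1 := by have := gam_hi; linarith

theorem Hk_pos {t : ℝ} (ht : 0 ≤ t) : 0 < Hk t := by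
  have := Hk_lower ht
  linarith

theorem size_ge_one (A : BT) : (1 : ℝ) ≤ A.size := by exact_mod_cast A.size_pos

theorem Xp_lower (A : BT) : 1 / 200 ≤ Xp A := by
  unfold Xp
  have ht := A.t_nonneg
  have h1 : 1 / 200 ≤ Hk A.t := by
    have := Hk_lower ht
    linarith
  have h2 : 1 / 200 ≤ Hk A.t ^ (1 - gam) := by
    rcases le_total 1 (Hk A.t) with h | h
    · have := one_le_rpow h (by have := gam_lt_one; linarith : (0:ℝ) ≤ 1 - gam)
      linarith
    · calc (1 / 200 : ℝ) ≤ Hk A.t := h1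
        _ = Hk A.t ^ (1 : ℝ) := (rpow_one _).symm
        _ ≤ _ := rpow_le_rpow_of_exponent_ge (Hk_pos ht) h (by have := gam_pos; linarith)
  have h3 : 1 ≤ (A.size : ℝ) ^ gam := one_le_rpow (size_ge_one A) gam_pos.le
  nlinarith

theorem pf_Xp (B : BT) : pf B.t * Xp B =
    (B.size : ℝ) ^ gam * (pf B.t ^ q0 * Hk B.t) ^ (1 - gam) := by
  unfold Xp
  rw [mul_rpow (by have := pf_pos B.t; positivity) (Hk_pos B.t_nonneg).le, ← rpow_mul (pf_pos _).le,
    mul_comm q0, gam_q0, rpow_one]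
  ring

/-- Linear step for the potential `Xp`. -/
theorem Xp_step (A : BT) :
    22 + 10 ^ 8 * (A.kids.map (fun B => pf B.t * Xp B)).sum ≤
      10 ^ 8 * Xp A + 20 * (A.kids.map (fun B => pf B.t)).sum := by
  have hg0 := gam_pos
  have hg1 := gam_lt_one
  set l := A.kids with hl
  have hsz : (A.size : ℝ) = 1 + (l.map (fun B => (B.size : ℝ))).sum := by
    have h := A.size_eq_sum
    rw [h]
    push_cast
    rw [← hl]
    simp [List.map_map, Function.comp_def]
  have hpos1 : ∀ B ∈ l, 0 < pf B.t ^ q0 * Hk B.t := by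
    intro B _
    have h1 := pf_pos B.t
    have h2 := Hk_pos B.t_nonneg
    positivity
  have hpos2 : ∀ B ∈ l, 0 < (B.size : ℝ) := by
    intro B _
    have := size_ge_one B
    linarith
  have hH := holder_list hg0 hg1 l (fun B => pf B.t ^ q0 * Hk B.t) (fun B => (B.size : ℝ))
    hpos1 hpos2
  have hsum : (l.map (fun B => pf B.t * Xp B)).sum ≤
      (l.map (fun B => (B.size : ℝ))).sum ^ gam *
        (l.map (fun B => pf B.t ^ q0 * Hk B.t)).sum ^ (1 - gam) := by
    refine le_trans (le_of_eq ?_) hH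
    congr 1
    apply List.map_congr_left
    intro B _
    exact pf_Xp B
  have hm0 : 0 ≤ (l.map (fun B => (B.size : ℝ))).sum := by
    apply List.sum_nonneg
    intro z hz
    obtain ⟨B, hB, rfl⟩ := List.mem_map.mp hz
    exact (hpos2 B hB).le
  have hmle : (l.map (fun B => (B.size : ℝ))).sum ^ gam ≤ (A.size : ℝ) ^ gam := by
    apply rpow_le_rpow hm0 _ hg0.le
    linarith
  have hs0 : 0 ≤ (l.map (fun B => pf B.t ^ q0 * Hk B.t)).sum := by
    apply List.sum_nonneg
    intro z hz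
    obtain ⟨B, hB, rfl⟩ := List.mem_map.mp hz
    exact (hpos1 B hB).le
  have hmap1 : ((l.map BT.t).map (fun t => pf t ^ q0 * Hk t)).sum =
      (l.map (fun B => pf B.t ^ q0 * Hk B.t)).sum := by
    rw [List.map_map]
    rfl
  have hmap2 : ((l.map BT.t).map ell).sum = A.t := by
    rw [List.map_map, A.t_eq_sum, ← hl]
    rfl
  have hmap3 : ((l.map BT.t).map pf).sum = (l.map (fun B => pf B.t)).sum := by
    rw [List.map_map]
    rfl
  have hnn : ∀ t ∈ l.map BT.t, 0 ≤ t := by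
    intro t ht
    obtain ⟨B, -, rfl⟩ := List.mem_map.mp ht
    exact B.t_nonneg
  have hHk := Hk_pos A.t_nonneg
  have hXA : 0 < (A.size : ℝ) ^ gam := by
    have := size_ge_one A
    positivity
  rcases le_total (l.map (fun B => pf B.t)).sum (11 / 10) with hp | hp
  · have hc := core_gap (l.map BT.t) hnn (by rw [hmap3]; exact hp)
    rw [hmap1, hmap2] at hc
    have h1 : (l.map (fun B => pf B.t ^ q0 * Hk B.t)).sum ^ (1 - gam) ≤
        (1 - 1 / 20000) * Hk A.t ^ (1 - gam) := by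
      calc (l.map (fun B => pf B.t ^ q0 * Hk B.t)).sum ^ (1 - gam) ≤
            ((1 - 1 / 10000) * Hk A.t) ^ (1 - gam) := rpow_le_rpow hs0 hc (by linarith)
        _ = (1 - 1 / 10000) ^ (1 - gam) * Hk A.t ^ (1 - gam) := by
            rw [mul_rpow (by norm_num) hHk.le]
        _ ≤ _ := by
            apply mul_le_mul_of_nonneg_right _ (by positivity)
            have h2 := rpow_one_add_le_one_add_mul_self (s := -(1 / 10000 : ℝ)) (by norm_num)
              (p := 1 - gam) (by linarith) (by linarith)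
            have h3 := gam_hi
            rw [show (1 : ℝ) + -(1 / 10000) = 1 - 1 / 10000 by ring] at h2
            nlinarith
    have h2 : (l.map (fun B => pf B.t * Xp B)).sum ≤ (1 - 1 / 20000) * Xp A := by
      calc (l.map (fun B => pf B.t * Xp B)).sum ≤ _ := hsum
        _ ≤ (A.size : ℝ) ^ gam * ((1 - 1 / 20000) * Hk A.t ^ (1 - gam)) :=
            mul_le_mul hmle h1 (by positivity) hXA.le
        _ = _ := by unfold Xp; ring
    have h3 := Xp_lower A
    have h4 : 0 ≤ (l.map (fun B => pf B.t)).sum := by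
      apply List.sum_nonneg
      intro z hz
      obtain ⟨B, hB, rfl⟩ := List.mem_map.mp hz
      exact (pf_pos _).le
    linarith
  · have hc := core (l.map BT.t) hnn
    rw [hmap1, hmap2] at hc
    have h1 : (l.map (fun B => pf B.t ^ q0 * Hk B.t)).sum ^ (1 - gam) ≤ Hk A.t ^ (1 - gam) :=
      rpow_le_rpow hs0 hc (by linarith)
    have h2 : (l.map (fun B => pf B.t * Xp B)).sum ≤ Xp A := by
      calc (l.map (fun B => pf B.t * Xp B)).sum ≤ _ := hsum
        _ ≤ (A.size : ℝ) ^ gam * (Hk A.t ^ (1 - gam)) :=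
            mul_le_mul hmle h1 (by positivity) hXA.le
        _ = _ := rfl
    linarith

/-- Step for the potential `Yp`. -/
theorem Yp_step (A : BT) :
    (A.kids.map (fun B => (ell B.t / (B.t + 1 / 2500)) ^ (7 / 10 : ℝ) * Yp B)).sum ≤ Yp A := by
  set l := A.kids with hl
  have hsz : (A.size : ℝ) = 1 + (l.map (fun B => (B.size : ℝ))).sum := by
    have h := A.size_eq_sum
    rw [h]
    push_cast
    rw [← hl]
    simp [List.map_map, Function.comp_def]
  have hpos1 : ∀ B ∈ l, 0 < ell B.t := fun B _ => ell_pos _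
  have hpos2 : ∀ B ∈ l, 0 < (B.size : ℝ) := by
    intro B _
    have := size_ge_one B
    linarith
  have hH := holder_list (γ := 3 / 10) (by norm_num) (by norm_num) l (fun B => ell B.t)
    (fun B => (B.size : ℝ)) hpos1 hpos2
  rw [show (1 - 3 / 10 : ℝ) = 7 / 10 by norm_num] at hH
  have ht : A.t = (l.map (fun B => ell B.t)).sum := A.t_eq_sum
  have hm0 : 0 ≤ (l.map (fun B => (B.size : ℝ))).sum := by
    apply List.sum_nonneg
    intro z hz
    obtain ⟨B, hB, rfl⟩ := List.mem_map.mp hz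
    exact (hpos2 B hB).le
  have ht0 := A.t_nonneg
  have e1 : (l.map (fun B => (ell B.t / (B.t + 1 / 2500)) ^ (7 / 10 : ℝ) * Yp B)).sum =
      (l.map (fun B => (B.size : ℝ) ^ (3 / 10 : ℝ) * ell B.t ^ (7 / 10 : ℝ))).sum := by
    congr 1
    apply List.map_congr_left
    intro B _
    have hB := B.t_nonneg
    have h1 : 0 < (B.t + 1 / 2500) ^ (7 / 10 : ℝ) := rpow_pos_of_pos (by linarith) _
    unfold Yp
    rw [div_rpow (ell_pos _).le (by linarith)]
    field_simp
  rw [e1]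
  refine hH.trans ?_
  unfold Yp
  apply mul_le_mul
  · apply rpow_le_rpow hm0 _ (by norm_num)
    linarith
  · rw [← ht]
    apply rpow_le_rpow ht0 (by linarith) (by norm_num)
  · rw [← ht]
    positivity
  · positivity

/-- the bound used in the induction -/
noncomputable def yb (ε : ℝ) (A : BT) : ℝ :=
  ε * (10 ^ 8 * Xp A - 20) + ε ^ (3 / 10 / gam) * Yp A

theorem step_conditions {ε : ℝ} (hε0 : 0 < ε) (B : BT)
    (hB : ε * (B.size : ℝ) ^ gam ≤ (10 : ℝ) ^ (-50 : ℝ)) :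
    0 ≤ ε * (10 ^ 8 * Xp B - 20) ∧ 0 ≤ ε ^ (3 / 10 / gam) * Yp B ∧
    ε * (10 ^ 8 * Xp B - 20) ≤ (B.t + 1) / 40000 ∧
    ε ^ (3 / 10 / gam) * Yp B ≤ (B.t + 1) / 80000 ∧
    32 * (ε * (10 ^ 8 * Xp B - 20)) ^ 2 ≤ (B.t + 1) / 2500 * (ε ^ (3 / 10 / gam) * Yp B) := by
  have hX := Xp_lower B
  have ht := B.t_nonneg
  have hs := size_ge_one B
  have hs0 : (0 : ℝ) < B.size := by linarith
  have hg0 := gam_pos
  have hg1 := gam_lt_one
  have hglo := gam_lo
  have hghi := gam_hi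
  have hHk := Hk_pos ht
  have hHku := Hk_upper ht
  set z := ε * (B.size : ℝ) ^ gam with hz
  have hz0 : 0 < z := by positivity
  have h50 : (10 : ℝ) ^ (-50 : ℝ) = 1 / 10 ^ 50 := by
    rw [show (-50 : ℝ) = ((-50 : ℤ) : ℝ) by norm_num, rpow_intCast]
    norm_num
  rw [h50] at hB
  have hz1 : z ≤ 1 := hB.trans (by norm_num)
  have hexp1 : 1 ≤ 3 / 10 / gam := by
    rw [le_div_iff₀ hg0]
    linarith
  have hexp2 : 3 / 10 / gam + 1 / 2 ≤ 2 := by
    have : 3 / 10 / gam ≤ 3 / 2 := by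
      rw [div_le_iff₀ hg0]
      linarith
    linarith
  have he : ε ^ (3 / 10 / gam) * Yp B = z ^ (3 / 10 / gam) * (B.t + 1 / 2500) ^ (7 / 10 : ℝ) := by
    unfold Yp
    rw [hz, mul_rpow hε0.le (by positivity), ← rpow_mul hs0.le,
      show gam * (3 / 10 / gam) = 3 / 10 by field_simp]
    ring
  have hHk1 : Hk B.t ^ (1 - gam) ≤ B.t + 1 := by
    calc Hk B.t ^ (1 - gam) ≤ (B.t + 1) ^ (1 - gam) :=
          rpow_le_rpow hHk.le (by linarith) (by linarith)
      _ ≤ (B.t + 1) ^ (1 : ℝ) := rpow_le_rpow_of_exponent_le (by linarith) (by linarith)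
      _ = B.t + 1 := rpow_one _
  have hT7 : (B.t + 1 / 2500) ^ (7 / 10 : ℝ) ≤ B.t + 1 := by
    calc (B.t + 1 / 2500) ^ (7 / 10 : ℝ) ≤ (B.t + 1) ^ (7 / 10 : ℝ) :=
          rpow_le_rpow (by linarith) (by linarith) (by norm_num)
      _ ≤ (B.t + 1) ^ (1 : ℝ) := rpow_le_rpow_of_exponent_le (by linarith) (by norm_num)
      _ = B.t + 1 := rpow_one _
  have ha0 : 0 ≤ ε * (10 ^ 8 * Xp B - 20) := by
    apply mul_nonneg hε0.le
    linarith
  have ha1 : ε * (10 ^ 8 * Xp B - 20) ≤ 10 ^ 8 * (z * Hk B.t ^ (1 - gam)) := by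
    have : 10 ^ 8 * (z * Hk B.t ^ (1 - gam)) = ε * (10 ^ 8 * Xp B) := by
      rw [hz]
      unfold Xp
      ring
    rw [this]
    apply mul_le_mul_of_nonneg_left _ hε0.le
    linarith
  have hHkp : 0 < Hk B.t ^ (1 - gam) := by positivity
  refine ⟨ha0, ?_, ?_, ?_, ?_⟩
  · rw [he]
    positivity
  · calc ε * (10 ^ 8 * Xp B - 20) ≤ 10 ^ 8 * (z * Hk B.t ^ (1 - gam)) := ha1
      _ ≤ 10 ^ 8 * (1 / 10 ^ 50 * (B.t + 1)) := by
        apply mul_le_mul_of_nonneg_left _ (by norm_num)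
        exact mul_le_mul hB hHk1 hHkp.le (by norm_num)
      _ ≤ (B.t + 1) / 40000 := by
        have : 0 ≤ B.t + 1 := by linarith
        linarith
  · rw [he]
    have h1 : z ^ (3 / 10 / gam) ≤ z := by
      calc z ^ (3 / 10 / gam) ≤ z ^ (1 : ℝ) := rpow_le_rpow_of_exponent_ge hz0 hz1 hexp1
        _ = z := rpow_one _
    calc z ^ (3 / 10 / gam) * (B.t + 1 / 2500) ^ (7 / 10 : ℝ) ≤ 1 / 10 ^ 50 * (B.t + 1) :=
          mul_le_mul (h1.trans hB) hT7 (by positivity) (by norm_num)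
      _ ≤ (B.t + 1) / 80000 := by
        have : 0 ≤ B.t + 1 := by linarith
        linarith
  · rw [he]
    have h1 : z ^ 2 ≤ z ^ (3 / 10 / gam) * (1 / 10 ^ 25) := by
      have h2 : z ^ (2 : ℝ) ≤ z ^ (3 / 10 / gam + 1 / 2) :=
        rpow_le_rpow_of_exponent_ge hz0 hz1 hexp2
      rw [rpow_two, rpow_add hz0] at h2
      have h3 : z ^ (1 / 2 : ℝ) ≤ 1 / 10 ^ 25 := by
        rw [← sqrt_eq_rpow]
        apply sqrt_le_iff.mpr
        refine ⟨by norm_num, hB.trans (by norm_num)⟩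
      have h4 : 0 ≤ z ^ (3 / 10 / gam) := by positivity
      exact h2.trans (mul_le_mul_of_nonneg_left h3 h4)
    have h2 : (Hk B.t ^ (1 - gam)) ^ 2 ≤
        2500 * ((B.t + 1) * (B.t + 1 / 2500) ^ (7 / 10 : ℝ)) := by
      have h3 : (Hk B.t ^ (1 - gam)) ^ 2 = Hk B.t ^ (2 - 2 * gam) := by
        rw [← rpow_natCast, ← rpow_mul hHk.le]
        congr 1
        push_cast
        ring
      rw [h3]
      calc Hk B.t ^ (2 - 2 * gam) ≤ (B.t + 1) ^ (2 - 2 * gam) :=
            rpow_le_rpow hHk.le (by linarith) (by linarith)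
        _ ≤ (B.t + 1) ^ (1 + 7 / 10 : ℝ) :=
            rpow_le_rpow_of_exponent_le (by linarith) (by linarith)
        _ = (B.t + 1) * (B.t + 1) ^ (7 / 10 : ℝ) := by
            rw [rpow_add (by linarith), rpow_one]
        _ ≤ (B.t + 1) * (2500 * (B.t + 1 / 2500) ^ (7 / 10 : ℝ)) := by
            apply mul_le_mul_of_nonneg_left _ (by linarith)
            calc (B.t + 1) ^ (7 / 10 : ℝ) ≤ (2500 * (B.t + 1 / 2500)) ^ (7 / 10 : ℝ) :=
                  rpow_le_rpow (by linarith) (by linarith) (by norm_num)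
              _ = 2500 ^ (7 / 10 : ℝ) * (B.t + 1 / 2500) ^ (7 / 10 : ℝ) := by
                  rw [mul_rpow (by norm_num) (by linarith)]
              _ ≤ 2500 * (B.t + 1 / 2500) ^ (7 / 10 : ℝ) := by
                  apply mul_le_mul_of_nonneg_right _ (by positivity)
                  calc (2500 : ℝ) ^ (7 / 10 : ℝ) ≤ 2500 ^ (1 : ℝ) :=
                        rpow_le_rpow_of_exponent_le (by norm_num) (by norm_num)
                    _ = 2500 := rpow_one _
        _ = _ := by ring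
    have hT0 : 0 ≤ (B.t + 1 / 2500) ^ (7 / 10 : ℝ) := by positivity
    have hz3 : 0 ≤ z ^ (3 / 10 / gam) := by positivity
    calc 32 * (ε * (10 ^ 8 * Xp B - 20)) ^ 2
        ≤ 32 * (10 ^ 8 * (z * Hk B.t ^ (1 - gam))) ^ 2 := by
          apply mul_le_mul_of_nonneg_left _ (by norm_num)
          exact pow_le_pow_left₀ ha0 ha1 2
      _ = 32 * 10 ^ 16 * (z ^ 2 * (Hk B.t ^ (1 - gam)) ^ 2) := by ring
      _ ≤ 32 * 10 ^ 16 * ((z ^ (3 / 10 / gam) * (1 / 10 ^ 25)) *
            (2500 * ((B.t + 1) * (B.t + 1 / 2500) ^ (7 / 10 : ℝ)))) := by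
          apply mul_le_mul_of_nonneg_left _ (by norm_num)
          exact mul_le_mul h1 h2 (by positivity) (by positivity)
      _ = 8 / 10 ^ 5 * ((B.t + 1) * (z ^ (3 / 10 / gam) *
            (B.t + 1 / 2500) ^ (7 / 10 : ℝ))) := by ring
      _ ≤ 4 / 10 ^ 4 * ((B.t + 1) * (z ^ (3 / 10 / gam) *
            (B.t + 1 / 2500) ^ (7 / 10 : ℝ))) := by
          apply mul_le_mul_of_nonneg_right (by norm_num)
          have : 0 ≤ B.t + 1 := by linarith
          positivity
      _ = _ := by ring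

theorem good_all {ε : ℝ} (hε0 : 0 < ε) (hε : ε ≤ 1 / 2) {x : ℂ} (hx : ‖x - 1‖ ≤ ε) (A : BT)
    (hA : ε * (A.size : ℝ) ^ gam ≤ (10 : ℝ) ^ (-50 : ℝ)) : Good x A (yb ε A) := by
  induction A using BT.kids_induction with
  | h A ih =>
    have hkid : ∀ B ∈ A.kids, ε * (B.size : ℝ) ^ gam ≤ (10 : ℝ) ^ (-50 : ℝ) := by
      intro B hB
      have h1 := BT.size_kid_lt hB
      have h2 : (B.size : ℝ) ^ gam ≤ (A.size : ℝ) ^ gam := by
        apply rpow_le_rpow (by positivity) _ gam_pos.le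
        exact_mod_cast h1.le
      have := mul_le_mul_of_nonneg_left h2 hε0.le
      linarith
    have hstep : ∀ B ∈ A.kids, pf B.t * (exp (yb ε B) - 1) ≤ 1 / 2 ∧
        Uf B.t (yb ε B) ≤ pf B.t * (ε * (10 ^ 8 * Xp B - 20)) +
          (ell B.t / (B.t + 1 / 2500)) ^ (7 / 10 : ℝ) * (ε ^ (3 / 10 / gam) * Yp B) := by
      intro B hB
      obtain ⟨h1, h2, h3, h4, h5⟩ := step_conditions hε0 B (hkid B hB)
      exact scalN B.t_nonneg h1 h2 h3 h4 h5
    have hG := good_of_kids hε hx (yb ε) A (fun B hB => ⟨ih B hB (hkid B hB), (hstep B hB).1⟩)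
    refine hG.mono ?_
    have h6 : (A.kids.map (fun B => Uf B.t (yb ε B))).sum ≤
        (A.kids.map (fun B => pf B.t * (ε * (10 ^ 8 * Xp B - 20)) +
          (ell B.t / (B.t + 1 / 2500)) ^ (7 / 10 : ℝ) * (ε ^ (3 / 10 / gam) * Yp B))).sum := by
      apply List.sum_le_sum
      intro B hB
      exact (hstep B hB).2
    have h7 : ∀ l : List BT, (l.map (fun B => pf B.t * (ε * (10 ^ 8 * Xp B - 20)) +
          (ell B.t / (B.t + 1 / 2500)) ^ (7 / 10 : ℝ) * (ε ^ (3 / 10 / gam) * Yp B))).sum =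
        ε * (10 ^ 8 * (l.map (fun B => pf B.t * Xp B)).sum -
          20 * (l.map (fun B => pf B.t)).sum) +
        ε ^ (3 / 10 / gam) *
          (l.map (fun B => (ell B.t / (B.t + 1 / 2500)) ^ (7 / 10 : ℝ) * Yp B)).sum := by
      intro l
      induction l with
      | nil => simp
      | cons B l ihl =>
        simp only [List.map_cons, List.sum_cons]
        rw [ihl]
        ring
    rw [h7] at h6
    have h8 := Xp_step A
    have h9 := Yp_step A
    have h10 : 0 ≤ ε ^ (3 / 10 / gam) := by positivity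
    have h11 := mul_le_mul_of_nonneg_left h8 hε0.le
    have h12 := mul_le_mul_of_nonneg_left h9 h10
    have h13 : yb ε A = ε * (10 ^ 8 * Xp A - 20) + ε ^ (3 / 10 / gam) * Yp A := rfl
    rw [h13]
    linarith

theorem upper_gam : ∃ c : ℝ, 0 < c ∧ ∀ (A : BT) (x : ℂ), (A.W 1 x).1 + (A.W 1 x).2 = 0 →
    c * (A.size : ℝ) ^ (-gam) ≤ ‖x - 1‖ := by
  refine ⟨(10 : ℝ) ^ (-50 : ℝ), by positivity, ?_⟩
  intro A x hx
  by_contra hcon
  push Not at hcon
  set ε := (10 : ℝ) ^ (-50 : ℝ) * (A.size : ℝ) ^ (-gam) with hε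
  have hs := size_ge_one A
  have hs0 : (0 : ℝ) < A.size := by linarith
  have hε0 : 0 < ε := by positivity
  have h10 : (10 : ℝ) ^ (-50 : ℝ) ≤ 1 / 2 := by
    rw [show (-50 : ℝ) = ((-50 : ℤ) : ℝ) by norm_num, rpow_intCast]
    norm_num
  have hle : ε ≤ (10 : ℝ) ^ (-50 : ℝ) := by
    have h1 : (A.size : ℝ) ^ (-gam) ≤ 1 := rpow_le_one_of_one_le_of_nonpos hs (by
      have := gam_pos; linarith)
    have h2 : (0:ℝ) < (10 : ℝ) ^ (-50 : ℝ) := by positivity
    nlinarith
  have hcond : ε * (A.size : ℝ) ^ gam ≤ (10 : ℝ) ^ (-50 : ℝ) := by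
    rw [hε, mul_assoc, ← rpow_add hs0]
    simp
  have hG := good_all hε0 (hle.trans h10) hcon.le A hcond
  obtain ⟨h1, h2, h3, h4, h5⟩ := step_conditions hε0 A hcond
  exact hG.ne_zero (scalN A.t_nonneg h1 h2 h3 h4 h5).1 hx

end WCT
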