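import Pool.Agent.H11.WCT.Defs

/-!
Upper bound: zeros of the independence polynomial of a tree with `m` vertices stay at distance
at least `c * m ^ (-γ)` from `1`.
-/

namespace WCT

open Real

/-- `1 / (1 + e ^ t)` -/
noncomputable def pf (t : ℝ) : ℝ := 1 / (1 + exp t)

/-- `log (1 + e ^ (-t))` -/
noncomputable def ell (t : ℝ) : ℝ := log (1 + exp (-t))

/-- minus the logarithm of the ratio of the rooted tree at `x = 1` -/
noncomputable def BT.t : BT → ℝ
  | .leaf => 0
  | .graft A B => BT.t A + ell (BT.t B)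

/-- the logarithmic derivative `d log R / d log x` of the ratio at `x = 1` -/
noncomputable def BT.D : BT → ℝ
  | .leaf => 1
  | .graft A B => BT.D A - pf (BT.t B) * BT.D B

theorem BT.size_pos (A : BT) : 1 ≤ A.size := by
  induction A with
  | leaf => simp [BT.size]
  | graft A B hA hB => simp only [BT.size]; omega

theorem ell_pos (t : ℝ) : 0 < ell t := by
  unfold ell
  apply Real.log_pos
  have := exp_pos (-t)
  linarith

theorem pf_pos (t : ℝ) : 0 < pf t := by
  unfold pf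
  positivity

theorem BT.t_nonneg (A : BT) : 0 ≤ A.t := by
  induction A with
  | leaf => simp [BT.t]
  | graft A B hA hB =>
    simp only [BT.t]
    have := ell_pos B.t
    linarith

theorem pf_eq (t : ℝ) : pf t = exp (-t) / (1 + exp (-t)) := by
  unfold pf
  rw [exp_neg]
  have h := exp_pos t
  field_simp
  ring

theorem pf_le_exp (t : ℝ) : pf t ≤ exp (-t) := by
  rw [pf_eq]
  have h := exp_pos (-t)
  rw [div_le_iff₀ (by linarith)]
  nlinarith

theorem pf_le_half {t : ℝ} (ht : 0 ≤ t) : pf t ≤ 1 / 2 := by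
  unfold pf
  have h : 1 ≤ exp t := one_le_exp ht
  apply one_div_le_one_div_of_le <;> linarith

theorem pf_le_ell (t : ℝ) : pf t ≤ ell t := by
  have h := exp_pos (-t)
  have h1 : 0 < 1 + exp (-t) := by linarith
  have h2 := Real.one_sub_inv_le_log_of_pos h1
  rw [pf_eq]
  unfold ell
  have h3 : exp (-t) / (1 + exp (-t)) = 1 - (1 + exp (-t))⁻¹ := by
    field_simp
    ring
  rw [h3]
  exact h2

theorem ell_le_exp (t : ℝ) : ell t ≤ exp (-t) := by
  unfold ell
  have h := exp_pos (-t)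
  have h1 : 0 < 1 + exp (-t) := by linarith
  have := Real.log_le_sub_one_of_pos h1
  linarith

/-- two-term Hölder inequality -/
theorem holder2 {γ a b M N : ℝ} (h0 : 0 ≤ γ) (h1 : γ ≤ 1) (ha : 0 < a) (hb : 0 < b)
    (hM : 0 < M) (hN : 0 < N) :
    M ^ γ * a ^ (1 - γ) + N ^ γ * b ^ (1 - γ) ≤ (M + N) ^ γ * (a + b) ^ (1 - γ) := by
  have hMN : 0 < M + N := by linarith
  have hab : 0 < a + b := by linarith
  have e1 := Real.geom_mean_le_arith_mean2_weighted (w₁ := γ) (w₂ := 1 - γ) h0 (by linarith)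
    (p₁ := M / (M + N)) (p₂ := a / (a + b)) (by positivity) (by positivity) (by ring)
  have e2 := Real.geom_mean_le_arith_mean2_weighted (w₁ := γ) (w₂ := 1 - γ) h0 (by linarith)
    (p₁ := N / (M + N)) (p₂ := b / (a + b)) (by positivity) (by positivity) (by ring)
  rw [div_rpow hM.le hMN.le, div_rpow ha.le hab.le] at e1
  rw [div_rpow hN.le hMN.le, div_rpow hb.le hab.le] at e2
  have h3 : γ * (M / (M + N)) + (1 - γ) * (a / (a + b)) + (γ * (N / (M + N)) +
      (1 - γ) * (b / (a + b))) = 1 := by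
    field_simp
    ring
  have hX : 0 < (M + N) ^ γ := rpow_pos_of_pos hMN _
  have hY : 0 < (a + b) ^ (1 - γ) := rpow_pos_of_pos hab _
  have h4 : M ^ γ / (M + N) ^ γ * (a ^ (1 - γ) / (a + b) ^ (1 - γ)) +
      N ^ γ / (M + N) ^ γ * (b ^ (1 - γ) / (a + b) ^ (1 - γ)) ≤ 1 := by linarith
  have h5 : M ^ γ / (M + N) ^ γ * (a ^ (1 - γ) / (a + b) ^ (1 - γ)) +
      N ^ γ / (M + N) ^ γ * (b ^ (1 - γ) / (a + b) ^ (1 - γ)) =
      (M ^ γ * a ^ (1 - γ) + N ^ γ * b ^ (1 - γ)) / ((M + N) ^ γ * (a + b) ^ (1 - γ)) := by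
    field_simp
  rw [h5, div_le_one (by positivity)] at h4
  exact h4

theorem norm_exp_sub_one_le' (δ : ℂ) : ‖Complex.exp δ - 1‖ ≤ Real.exp ‖δ‖ - 1 := by
  have h := Complex.norm_exp_sub_sum_le_exp_norm_sub_sum δ 1
  simpa using h

theorem norm_log_one_add_le' {u : ℂ} {U : ℝ} (hu : ‖u‖ ≤ U) (hU : U < 1) :
    ‖Complex.log (1 + u)‖ ≤ U / (1 - U) := by
  have hu1 : ‖u‖ < 1 := lt_of_le_of_lt hu hU
  have h := Complex.norm_log_one_add_le hu1
  have h0 : 0 ≤ ‖u‖ := norm_nonneg _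
  have h1 : 0 < 1 - ‖u‖ := by linarith
  have h2 : ‖u‖ ^ 2 * (1 - ‖u‖)⁻¹ / 2 + ‖u‖ ≤ ‖u‖ / (1 - ‖u‖) := by
    rw [le_div_iff₀ h1]
    have : (‖u‖ ^ 2 * (1 - ‖u‖)⁻¹ / 2 + ‖u‖) * (1 - ‖u‖) = ‖u‖ ^ 2 / 2 + ‖u‖ * (1 - ‖u‖) := by
      field_simp
    rw [this]
    nlinarith
  have h3 : ‖u‖ / (1 - ‖u‖) ≤ U / (1 - U) := by
    rw [div_le_div_iff₀ h1 (by linarith)]
    nlinarith
  linarith

/-- The scalar condition used in the induction. -/
def Scal (γ κ η : ℝ) : Prop :=
  ∀ t y : ℝ, 0 ≤ t → 0 ≤ y → y ≤ η * (t + 1) →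
    pf t * (exp y - 1) ≤ 1 / 2 ∧
    pf t * (exp y - 1) / (1 - pf t * (exp y - 1)) ≤ y * (ell t / (t + κ)) ^ (1 - γ)

theorem upper_aux {γ κ η ε K : ℝ} (hγ0 : 0 ≤ γ) (hγ1 : γ ≤ 1) (hκ : 0 < κ) (hκ1 : κ ≤ 1)
    (hS : Scal γ κ η) (hε : ε ≤ 1 / 2) (hε0 : 0 ≤ ε) (hK0 : 0 ≤ K)
    (hK : 2 ≤ K * κ ^ (1 - γ))
    {x : ℂ} (hx : ‖x - 1‖ ≤ ε) (A : BT) (hA : K * ε * (A.size : ℝ) ^ γ ≤ η) :
    (A.W 1 x).1 ≠ 0 ∧ ∃ δ : ℂ, (A.W 1 x).2 = (A.W 1 x).1 * Complex.exp (-(A.t : ℂ) + δ) ∧
      ‖δ‖ ≤ K * ε * (A.size : ℝ) ^ γ * (A.t + κ) ^ (1 - γ) := by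
  induction A with
  | leaf =>
    refine ⟨by simp [BT.W], Complex.log x, ?_, ?_⟩
    · have hx0 : x ≠ 0 := by
        rintro rfl
        simp at hx
        linarith
      simp [BT.W, BT.t, Complex.exp_log hx0]
    · have h1 : Complex.log x = Complex.log (1 + (x - 1)) := by ring_nf
      rw [h1]
      have h2 := norm_log_one_add_le' hx (by linarith)
      have h3 : ε / (1 - ε) ≤ 2 * ε := by
        rw [div_le_iff₀ (by linarith)]
        nlinarith
      simp only [BT.size, BT.t, Nat.cast_one, one_rpow, mul_one, zero_add]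
      nlinarith
  | graft A B ihA ihB =>
    simp only [BT.size, Nat.cast_add] at hA
    have hmA : (1:ℝ) ≤ A.size := by exact_mod_cast A.size_pos
    have hmB : (1:ℝ) ≤ B.size := by exact_mod_cast B.size_pos
    have hAle : (A.size : ℝ) ^ γ ≤ ((A.size : ℝ) + B.size) ^ γ :=
      rpow_le_rpow (by linarith) (by linarith) hγ0
    have hBle : (B.size : ℝ) ^ γ ≤ ((A.size : ℝ) + B.size) ^ γ :=
      rpow_le_rpow (by linarith) (by linarith) hγ0
    have hKε : 0 ≤ K * ε := by positivity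
    obtain ⟨hA1, δA, hA2, hA3⟩ := ihA (by
      have := mul_le_mul_of_nonneg_left hAle hKε
      linarith)
    obtain ⟨hB1, δB, hB2, hB3⟩ := ihB (by
      have := mul_le_mul_of_nonneg_left hBle hKε
      linarith)
    have htA := A.t_nonneg
    have htB := B.t_nonneg
    set y : ℝ := K * ε * (B.size : ℝ) ^ γ * (B.t + κ) ^ (1 - γ) with hy
    have hy0 : 0 ≤ y := by positivity
    have hyη : y ≤ η * (B.t + 1) := by
      have h1 : (B.t + κ) ^ (1 - γ) ≤ B.t + 1 := by
        calc (B.t + κ) ^ (1 - γ) ≤ (B.t + 1) ^ (1 - γ) :=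
              rpow_le_rpow (by linarith) (by linarith) (by linarith)
          _ ≤ (B.t + 1) ^ (1 : ℝ) := rpow_le_rpow_of_exponent_le (by linarith) (by linarith)
          _ = B.t + 1 := rpow_one _
      have h2 : K * ε * (B.size : ℝ) ^ γ ≤ η := by
        have := mul_le_mul_of_nonneg_left hBle hKε
        linarith
      calc y ≤ K * ε * (B.size : ℝ) ^ γ * (B.t + 1) :=
            mul_le_mul_of_nonneg_left h1 (by positivity)
        _ ≤ η * (B.t + 1) := mul_le_mul_of_nonneg_right h2 (by linarith)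
    obtain ⟨hU1, hU2⟩ := hS B.t y htB hy0 hyη
    set u : ℂ := (pf B.t : ℂ) * (Complex.exp δB - 1) with hu
    have huU : ‖u‖ ≤ pf B.t * (exp y - 1) := by
      rw [hu, norm_mul, Complex.norm_real, Real.norm_of_nonneg (pf_pos _).le]
      apply mul_le_mul_of_nonneg_left _ (pf_pos _).le
      calc ‖Complex.exp δB - 1‖ ≤ exp ‖δB‖ - 1 := norm_exp_sub_one_le' _
        _ ≤ exp y - 1 := by
          have := exp_le_exp.mpr hB3
          linarith
    have hu1 : ‖u‖ < 1 := by linarith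
    have hune : 1 + u ≠ 0 := by
      intro h
      have : u = -1 := by linear_combination h
      rw [this] at hu1
      simp at hu1
    have hlog := norm_log_one_add_le' huU (by linarith)
    have hexpB : (1 : ℂ) + Complex.exp (-(B.t : ℂ)) ≠ 0 := by
      rw [← Complex.ofReal_neg, ← Complex.ofReal_exp, ← Complex.ofReal_one, ← Complex.ofReal_add]
      have := exp_pos (-B.t)
      exact_mod_cast (by linarith : (1:ℝ) + exp (-B.t) ≠ 0)
    have hkey : (1 : ℂ) + Complex.exp (-(B.t : ℂ) + δB) =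
        (1 + Complex.exp (-(B.t : ℂ))) * (1 + u) := by
      rw [hu, pf_eq, Complex.exp_add]
      push_cast
      field_simp
      ring
    have hsum : (B.W 1 x).1 + (B.W 1 x).2 =
        (B.W 1 x).1 * ((1 + Complex.exp (-(B.t : ℂ))) * (1 + u)) := by
      rw [hB2, ← hkey]
      ring
    have hellB : Complex.exp (-(ell B.t : ℂ)) * (1 + Complex.exp (-(B.t : ℂ))) = 1 := by
      have h1 : (1 : ℂ) + Complex.exp (-(B.t : ℂ)) = Complex.exp (ell B.t : ℂ) := by
        rw [← Complex.ofReal_exp]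
        unfold ell
        rw [Real.exp_log (by have := exp_pos (-B.t); linarith)]
        push_cast
        rfl
      rw [h1, ← Complex.exp_add]
      simp
    refine ⟨?_, δA - Complex.log (1 + u), ?_, ?_⟩
    · simp only [BT.W]
      rw [hsum]
      exact mul_ne_zero hA1 (mul_ne_zero hB1 (mul_ne_zero hexpB hune))
    · simp only [BT.W, BT.t]
      rw [hsum, hA2]
      have h2 : Complex.exp (-((A.t + ell B.t : ℝ) : ℂ) + (δA - Complex.log (1 + u))) =
          Complex.exp (-(A.t : ℂ) + δA) * Complex.exp (-(ell B.t : ℂ)) *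
            (1 + u)⁻¹ := by
        rw [← Complex.exp_log hune, ← Complex.exp_neg, Complex.exp_log hune, ← Complex.exp_add,
          ← Complex.exp_add]
        congr 1
        push_cast
        ring
      rw [h2]
      have h3 : (A.W 1 x).1 * ((B.W 1 x).1 * ((1 + Complex.exp (-(B.t : ℂ))) * (1 + u))) *
          (Complex.exp (-(A.t : ℂ) + δA) * Complex.exp (-(ell B.t : ℂ)) * (1 + u)⁻¹) =
          (A.W 1 x).1 * Complex.exp (-(A.t : ℂ) + δA) * (B.W 1 x).1 *
          (Complex.exp (-(ell B.t : ℂ)) * (1 + Complex.exp (-(B.t : ℂ)))) *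
          ((1 + u) * (1 + u)⁻¹) := by ring
      rw [h3, hellB, mul_inv_cancel₀ hune]
      ring
    · simp only [BT.size, BT.t, Nat.cast_add]
      have hb0 : 0 < ell B.t := ell_pos _
      have hH := holder2 (γ := γ) (a := A.t + κ) (b := ell B.t) (M := A.size) (N := B.size)
        hγ0 hγ1 (by linarith) hb0 (by linarith) (by linarith)
      have hy2 : y * (ell B.t / (B.t + κ)) ^ (1 - γ) =
          K * ε * ((B.size : ℝ) ^ γ * (ell B.t) ^ (1 - γ)) := by
        rw [hy, div_rpow hb0.le (by linarith)]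
        have : 0 < (B.t + κ) ^ (1 - γ) := rpow_pos_of_pos (by linarith) _
        field_simp
      calc ‖δA - Complex.log (1 + u)‖ ≤ ‖δA‖ + ‖Complex.log (1 + u)‖ := norm_sub_le _ _
        _ ≤ K * ε * (A.size : ℝ) ^ γ * (A.t + κ) ^ (1 - γ) +
            K * ε * ((B.size : ℝ) ^ γ * (ell B.t) ^ (1 - γ)) := by
          rw [← hy2]
          linarith
        _ = K * ε * ((A.size : ℝ) ^ γ * (A.t + κ) ^ (1 - γ) +
            (B.size : ℝ) ^ γ * (ell B.t) ^ (1 - γ)) := by ring
        _ ≤ K * ε * (((A.size : ℝ) + B.size) ^ γ * (A.t + κ + ell B.t) ^ (1 - γ)) :=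
          mul_le_mul_of_nonneg_left hH hKε
        _ = _ := by
          rw [show A.t + κ + ell B.t = A.t + ell B.t + κ by ring]
          ring

end WCT
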